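import Pool.Agent.SzC2.Defs

/-!
Residue classes of the zeros modulo a prime power, and small values, of an integral polynomial.
-/

open Polynomial
open scoped Classical

namespace SzC2

/-- the norm of an integer not divisible by `p^e` -/
private lemma norm_ge (p : ℕ) [hp : Fact p.Prime] (e : ℕ) (he : 1 ≤ e) (z : ℤ)
    (hz : ¬ (p : ℤ) ^ e ∣ z) : ((p : ℚ) ^ (e - 1))⁻¹ ≤ padicNorm p z := by
  have hz0 : (z : ℚ) ≠ 0 := by
    intro h
    apply hz
    have : z = 0 := by exact_mod_cast h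
    rw [this]; exact dvd_zero _
  have h1 : ¬ padicNorm p z ≤ (p : ℚ) ^ (-(e : ℤ)) := by
    rw [← padicNorm.dvd_iff_norm_le]
    push_cast
    exact hz
  push Not at h1
  obtain ⟨m, hm⟩ := padicNorm.values_discrete (p := p) hz0
  rw [hm] at h1 ⊢
  have hp1 : (1 : ℚ) < p := by exact_mod_cast hp.out.one_lt
  have h2 : -(e : ℤ) < -m := (zpow_lt_zpow_iff_right₀ hp1).1 h1
  rw [← zpow_natCast, ← zpow_neg]
  apply zpow_le_zpow_right₀ hp1.le
  rw [Nat.cast_sub he]
  push_cast
  omega

/-- Lagrange interpolation: the integers `y` with `p^k | P(y)` lie in at most `deg P` classes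
modulo `p^e` if `p^k` does not divide `lead P * p^(deg P * (e-1))`. -/
theorem classes (P : ℤ[X]) (p : ℕ) (hp : p.Prime) (k e : ℕ) (he : 1 ≤ e)
    (hk : ¬ (p : ℤ) ^ k ∣ P.leadingCoeff * (p : ℤ) ^ (P.natDegree * (e - 1)))
    (Y : Finset ℤ) (hY : ∀ y ∈ Y, (p : ℤ) ^ k ∣ P.eval y)
    (hd : ∀ y ∈ Y, ∀ y' ∈ Y, y ≠ y' → ¬ (p : ℤ) ^ e ∣ y - y') : Y.card ≤ P.natDegree := by
  have : Fact p.Prime := ⟨hp⟩
  by_contra hcon
  push Not at hcon
  apply hk
  obtain ⟨S, hSY, hSc⟩ := Finset.exists_subset_card_eq (show P.natDegree + 1 ≤ Y.card by omega)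
  have hp1 : (1 : ℚ) < p := by exact_mod_cast hp.one_lt
  have hp0 : (0 : ℚ) < p := by linarith
  set PQ : ℚ[X] := P.map (Int.castRingHom ℚ) with hPQ
  have hinj : Set.InjOn (fun y : ℤ => (y : ℚ)) (S : Set ℤ) := fun a _ b _ h => by simpa using h
  have hdeg : PQ.degree < S.card := by
    rw [hSc]
    refine lt_of_le_of_lt degree_le_natDegree ?_
    have h1 : PQ.natDegree ≤ P.natDegree := natDegree_map_le
    exact_mod_cast Nat.lt_succ_of_le h1
  have hint := Lagrange.eq_interpolate hinj hdeg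
  have hcoef : ∀ t, padicNorm p ((P.coeff t : ℤ) : ℚ)
      ≤ ((p : ℚ) ^ k)⁻¹ * ((p : ℚ) ^ (e - 1)) ^ P.natDegree := by
    intro t
    have h1 : ((P.coeff t : ℤ) : ℚ) = ∑ i ∈ S, (PQ.eval (i : ℚ)) *
        ((∏ j ∈ S.erase i, ((i : ℚ) - j)⁻¹) *
          (((∏ j ∈ S.erase i, (X - C j) : ℤ[X]).coeff t : ℤ) : ℚ)) := by
      have h2 : ((P.coeff t : ℤ) : ℚ) = PQ.coeff t := by rw [hPQ, coeff_map]; rfl
      have h2' := congrArg (fun f : ℚ[X] => f.coeff t) hint
      rw [h2, h2', Lagrange.interpolate_apply, finsetSum_coeff]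
      refine Finset.sum_congr rfl (fun i _ => ?_)
      rw [coeff_C_mul]
      congr 1
      · have h3 : Lagrange.basis S (fun y : ℤ => (y : ℚ)) i
            = C (∏ j ∈ S.erase i, ((i : ℚ) - j)⁻¹) *
              (∏ j ∈ S.erase i, (X - C j) : ℤ[X]).map (Int.castRingHom ℚ) := by
          rw [Lagrange.basis, Polynomial.map_prod, map_prod, ← Finset.prod_mul_distrib]
          refine Finset.prod_congr rfl (fun j _ => ?_)
          rw [Lagrange.basisDivisor]
          simp
        rw [h3, coeff_C_mul, coeff_map]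
        rfl
    rw [h1]
    refine padicNorm.sum_le' (fun i hi => ?_) (by positivity)
    rw [padicNorm.mul, padicNorm.mul]
    have hiY : i ∈ Y := hSY hi
    have a1 : padicNorm p (PQ.eval (i : ℚ)) ≤ ((p : ℚ) ^ k)⁻¹ := by
      have h2 : PQ.eval (i : ℚ) = ((P.eval i : ℤ) : ℚ) := by
        rw [hPQ, eval_map]
        have := (eval₂_at_apply (Int.castRingHom ℚ) i (p := P))
        exact this
      rw [h2, ← zpow_natCast, ← zpow_neg]
      rw [← padicNorm.dvd_iff_norm_le]
      push_cast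
      exact hY i hiY
    have a2 : padicNorm p (∏ j ∈ S.erase i, ((i : ℚ) - j)⁻¹)
        ≤ ((p : ℚ) ^ (e - 1)) ^ P.natDegree := by
      have hprod : ∀ T : Finset ℤ, (∀ j ∈ T, j ∈ Y ∧ i ≠ j) →
          padicNorm p (∏ j ∈ T, ((i : ℚ) - j)⁻¹) ≤ ((p : ℚ) ^ (e - 1)) ^ T.card := by
        intro T
        induction T using Finset.induction_on with
        | empty => intro _; simp
        | insert a T ha ih =>
          intro hT
          rw [Finset.prod_insert ha, Finset.card_insert_of_notMem ha, padicNorm.mul, pow_succ,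
            mul_comm]
          apply mul_le_mul (ih (fun j hj => hT j (Finset.mem_insert_of_mem hj))) _
            (padicNorm.nonneg _) (by positivity)
          obtain ⟨haY, hia⟩ := hT a (Finset.mem_insert_self _ _)
          have h3 := norm_ge p e he (i - a) (hd i hiY a haY hia)
          have h4 : padicNorm p ((i : ℚ) - a)⁻¹ = (padicNorm p (((i - a : ℤ)) : ℚ))⁻¹ := by
            have h5 := padicNorm.div (p := p) 1 ((i : ℚ) - a)
            rw [one_div, padicNorm.one, one_div] at h5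
            rw [h5]; push_cast; rfl
          rw [h4]
          exact inv_le_of_inv_le₀ (by positivity) h3
      have h6 := hprod (S.erase i) (fun j hj =>
        ⟨hSY (Finset.mem_of_mem_erase hj), (Finset.ne_of_mem_erase hj).symm⟩)
      have h7 : (S.erase i).card = P.natDegree := by
        rw [Finset.card_erase_of_mem hi, hSc]; simp
      rwa [h7] at h6
    have a3 : padicNorm p ((((∏ j ∈ S.erase i, (X - C j) : ℤ[X]).coeff t : ℤ)) : ℚ) ≤ 1 :=
      padicNorm.of_int _
    have a4 : padicNorm p (PQ.eval (i : ℚ)) *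
        (padicNorm p (∏ j ∈ S.erase i, ((i : ℚ) - j)⁻¹) *
          padicNorm p ((((∏ j ∈ S.erase i, (X - C j) : ℤ[X]).coeff t : ℤ)) : ℚ))
        ≤ ((p : ℚ) ^ k)⁻¹ * (((p : ℚ) ^ (e - 1)) ^ P.natDegree * 1) := by
      apply mul_le_mul a1 _ (mul_nonneg (padicNorm.nonneg _) (padicNorm.nonneg _)) (by positivity)
      exact mul_le_mul a2 a3 (padicNorm.nonneg _) (by positivity)
    rw [mul_one] at a4
    exact a4
  have h5 := hcoef P.natDegree
  have h6 : padicNorm p (((P.leadingCoeff * (p : ℤ) ^ (P.natDegree * (e - 1)) : ℤ)) : ℚ)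
      ≤ (p : ℚ) ^ (-(k : ℤ)) := by
    push_cast
    have hpw : ∀ n : ℕ, padicNorm p ((p : ℚ) ^ n) = ((p : ℚ)⁻¹) ^ n := by
      intro n
      induction n with
      | zero => simp
      | succ n ih =>
        rw [pow_succ, padicNorm.mul, ih, padicNorm.padicNorm_p hp.one_lt, pow_succ]
    rw [padicNorm.mul, hpw, zpow_neg, zpow_natCast]
    have h7 : ((p : ℚ)⁻¹) ^ (P.natDegree * (e - 1)) = (((p : ℚ) ^ (e - 1)) ^ P.natDegree)⁻¹ := by
      rw [inv_pow, ← pow_mul, mul_comm]
    rw [h7]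
    have h8 : (0 : ℚ) < ((p : ℚ) ^ (e - 1)) ^ P.natDegree := by positivity
    rw [mul_inv_le_iff₀ h8]
    exact h5
  have h9 := (padicNorm.dvd_iff_norm_le (p := p) (n := k)).2 h6
  push_cast at h9
  exact h9

/-- small values are rare -/
theorem low_count (P : ℤ[X]) (hP : P ≠ 0) (η : ℝ) (hη : 0 ≤ η) (I : Finset ℤ) :
    ((I.filter (fun y => |((P.eval y : ℤ) : ℝ)| ≤ η ^ P.natDegree ∧ 1 ≤ P.natDegree)).card : ℝ)
      ≤ P.natDegree * (2 * η + 1) := by
  set F : ℂ[X] := P.map (Int.castRingHom ℂ) with hF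
  have hFd : F.natDegree = P.natDegree :=
    natDegree_map_eq_of_injective (RingHom.injective_int _) P
  have hFs : F.Splits := IsAlgClosed.splits F
  have hlc : F.leadingCoeff = ((P.leadingCoeff : ℤ) : ℂ) :=
    leadingCoeff_map_of_injective (f := Int.castRingHom ℂ) (RingHom.injective_int _) P
  have hlc1 : 1 ≤ ‖F.leadingCoeff‖ := by
    rw [hlc, Complex.norm_intCast]
    have h1 : (1 : ℤ) ≤ |P.leadingCoeff| := Int.one_le_abs (leadingCoeff_ne_zero.2 hP)
    exact_mod_cast h1
  have hcard : Multiset.card F.roots = P.natDegree := by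
    rw [← hFd]; exact (splits_iff_card_roots.1 hFs)
  have key : ∀ y : ℤ, |((P.eval y : ℤ) : ℝ)| ≤ η ^ P.natDegree → 1 ≤ P.natDegree →
      ∃ α ∈ F.roots, ‖(y : ℂ) - α‖ ≤ η := by
    intro y hy h1
    by_contra hcon
    push Not at hcon
    have h2 : F.eval (y : ℂ) = F.leadingCoeff * (F.roots.map (fun α => (y : ℂ) - α)).prod := by
      conv_lhs => rw [hFs.eq_prod_roots]
      rw [eval_mul, eval_C, eval_multiset_prod, Multiset.map_map]
      simp
    have h3 : ‖F.eval (y : ℂ)‖ = |((P.eval y : ℤ) : ℝ)| := by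
      have h4 : F.eval (y : ℂ) = ((P.eval y : ℤ) : ℂ) := by
        rw [hF, eval_map]
        exact eval₂_at_apply (Int.castRingHom ℂ) y (p := P)
      rw [h4, Complex.norm_intCast]
    have h5 : η ^ P.natDegree < ‖(F.roots.map (fun α => (y : ℂ) - α)).prod‖ := by
      rw [← hcard]
      have h6 : ∀ s : Multiset ℂ, s ≠ 0 → (∀ α ∈ s, η < ‖(y : ℂ) - α‖) →
          η ^ Multiset.card s < ‖(s.map (fun α => (y : ℂ) - α)).prod‖ := by
        intro s
        induction s using Multiset.induction_on with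
        | empty => intro h; exact absurd rfl h
        | cons a s ih =>
          intro _ hs
          rw [Multiset.card_cons, Multiset.map_cons, Multiset.prod_cons, norm_mul, pow_succ,
            mul_comm]
          by_cases hs0 : s = 0
          · subst hs0
            simpa using hs a (Multiset.mem_cons_self _ _)
          · exact mul_lt_mul'' (hs a (Multiset.mem_cons_self _ _))
              (ih hs0 (fun α hα => hs α (Multiset.mem_cons_of_mem hα))) hη (by positivity)
      apply h6 _ _ hcon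
      intro h0
      rw [h0] at hcard
      simp at hcard
      omega
    have h7 : ‖F.eval (y : ℂ)‖ = ‖F.leadingCoeff‖ * ‖(F.roots.map (fun α => (y : ℂ) - α)).prod‖ := by
      rw [h2, norm_mul]
    have h8 : ‖(F.roots.map (fun α => (y : ℂ) - α)).prod‖ ≤ ‖F.eval (y : ℂ)‖ := by
      rw [h7]
      exact le_mul_of_one_le_left (norm_nonneg _) hlc1
    rw [h3] at h8
    linarith
  have hsub : I.filter (fun y => |((P.eval y : ℤ) : ℝ)| ≤ η ^ P.natDegree ∧ 1 ≤ P.natDegree) ⊆
      F.roots.toFinset.biUnion (fun α => Finset.Icc ⌈α.re - η⌉ ⌊α.re + η⌋) := by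
    intro y hy
    rw [Finset.mem_filter] at hy
    obtain ⟨α, hα, h1⟩ := key y hy.2.1 hy.2.2
    rw [Finset.mem_biUnion]
    refine ⟨α, Multiset.mem_toFinset.2 hα, ?_⟩
    have h2 : |((y : ℂ) - α).re| ≤ η := (Complex.abs_re_le_norm _).trans h1
    have h3 : ((y : ℂ) - α).re = (y : ℝ) - α.re := by simp
    rw [h3, abs_le] at h2
    rw [Finset.mem_Icc]
    exact ⟨Int.ceil_le.2 (by linarith [h2.1]), Int.le_floor.2 (by linarith [h2.2])⟩
  calc ((I.filter (fun y => |((P.eval y : ℤ) : ℝ)| ≤ η ^ P.natDegree ∧ 1 ≤ P.natDegree)).card : ℝ)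
      ≤ ((F.roots.toFinset.biUnion (fun α => Finset.Icc ⌈α.re - η⌉ ⌊α.re + η⌋)).card : ℝ) := by
        exact_mod_cast Finset.card_le_card hsub
    _ ≤ ∑ α ∈ F.roots.toFinset, ((Finset.Icc ⌈α.re - η⌉ ⌊α.re + η⌋).card : ℝ) := by
        exact_mod_cast Finset.card_biUnion_le
    _ ≤ ∑ α ∈ F.roots.toFinset, (2 * η + 1) := by
        apply Finset.sum_le_sum
        intro α _
        rw [Int.card_Icc]
        have h1 : (⌊α.re + η⌋ : ℝ) ≤ α.re + η := Int.floor_le _
        have h2 : α.re - η ≤ (⌈α.re - η⌉ : ℝ) := Int.le_ceil _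
        by_cases h3 : 0 ≤ ⌊α.re + η⌋ + 1 - ⌈α.re - η⌉
        · have h4 : (((⌊α.re + η⌋ + 1 - ⌈α.re - η⌉).toNat : ℤ) : ℝ)
              = ((⌊α.re + η⌋ + 1 - ⌈α.re - η⌉ : ℤ) : ℝ) := by rw [Int.toNat_of_nonneg h3]
          have h5 : (((⌊α.re + η⌋ + 1 - ⌈α.re - η⌉).toNat : ℕ) : ℝ)
              = (((⌊α.re + η⌋ + 1 - ⌈α.re - η⌉).toNat : ℤ) : ℝ) := by norm_cast
          rw [h5, h4]
          push_cast
          linarith
        · rw [Int.toNat_of_nonpos (by omega)]
          simp only [Nat.cast_zero]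
          linarith
    _ = (F.roots.toFinset.card : ℝ) * (2 * η + 1) := by rw [Finset.sum_const, nsmul_eq_mul]
    _ ≤ P.natDegree * (2 * η + 1) := by
        apply mul_le_mul_of_nonneg_right _ (by linarith)
        have h1 : F.roots.toFinset.card ≤ Multiset.card F.roots := Multiset.toFinset_card_le _
        rw [hcard] at h1
        exact_mod_cast h1

end SzC2
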