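import Pool.Agent.SzC2.Ypol

/-!
A square in the discriminant is weak or strong.
-/

open Polynomial
open scoped Classical

namespace SzC2

theorem exists_double_root {K : Type*} [Field K] [IsAlgClosed K] {F : K[X]} (hF : F.Monic)
    (h : F.discr = 0) : ∃ r : K, (X - C r) ^ 2 ∣ F := by
  have h1 : ¬ F.Separable := by
    rw [← SzSP.discr_ne_zero_iff hF]
    simp [h]
  have h2 : ¬ F.roots.Nodup := by
    rw [nodup_roots_iff_of_splits hF.ne_zero (IsAlgClosed.splits F)]
    exact h1
  rw [Multiset.nodup_iff_count_le_one] at h2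
  push Not at h2
  obtain ⟨r, hr⟩ := h2
  rw [count_roots] at hr
  exact ⟨r, (le_rootMultiplicity_iff hF.ne_zero).mp hr⟩

theorem map_frob (p : ℕ) [Fact p.Prime] (f : ℤ[X]) :
    (red p f).map (frobenius (AlgebraicClosure (ZMod p)) p) = red p f := by
  rw [red, Polynomial.map_map]
  congr 1
  exact RingHom.ext_int _ _

theorem sq_dvd_int (p : ℕ) [Fact p.Prime] (f : ℤ[X]) (r : ℤ)
    (h : (X - C (r : AlgebraicClosure (ZMod p))) ^ 2 ∣ red p f) :
    (p : ℤ) ∣ f.eval r ∧ (p : ℤ) ∣ f.derivative.eval r := by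
  have : CharP (AlgebraicClosure (ZMod p)) p :=
    charP_of_injective_algebraMap (algebraMap (ZMod p) (AlgebraicClosure (ZMod p))).injective p
  obtain ⟨q, hq⟩ := h
  have h1 : (red p f).eval (r : AlgebraicClosure (ZMod p)) =
      ((f.eval r : ℤ) : AlgebraicClosure (ZMod p)) := by
    rw [red, eval_map, ← eq_intCast (Int.castRingHom (AlgebraicClosure (ZMod p))) (f.eval r),
      ← eval₂_at_apply, eq_intCast]
  have h2 : (red p f).derivative.eval (r : AlgebraicClosure (ZMod p)) =
      ((f.derivative.eval r : ℤ) : AlgebraicClosure (ZMod p)) := by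
    rw [red, derivative_map, eval_map,
      ← eq_intCast (Int.castRingHom (AlgebraicClosure (ZMod p))) (f.derivative.eval r),
      ← eval₂_at_apply, eq_intCast]
  constructor
  · rw [← CharP.intCast_eq_zero_iff (AlgebraicClosure (ZMod p)) p, ← h1, hq]
    simp
  · rw [← CharP.intCast_eq_zero_iff (AlgebraicClosure (ZMod p)) p, ← h2, hq]
    simp [derivative_mul, derivative_pow]

/-- the discriminant of a polynomial vanishing at 0 is divisible by the square of the linear
coefficient -/
theorem discr_of_eval_zero {G : ℤ[X]} (hG : G.Monic) (hn : 2 ≤ G.natDegree)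
    (h0 : G.coeff 0 = 0) : (G.coeff 1) ^ 2 ∣ G.discr := by
  obtain ⟨H, hH⟩ : X ∣ G := X_dvd_iff.mpr h0
  have hHm : H.Monic := by
    rw [hH] at hG
    exact monic_X.of_mul_monic_left hG
  have hd : G.natDegree = 1 + H.natDegree := by
    rw [hH, monic_X.natDegree_mul hHm, natDegree_X]
  have hc : G.coeff 1 = H.coeff 0 := by
    rw [hH, coeff_X_mul]
  have h1 := SzSP.discr_mul monic_X hHm (by simp) (by omega)
  rw [← hH] at h1
  have h2 : resultant (X : ℤ[X]) H = H.coeff 0 := by
    have h3 := resultant_X_sub_C_left H H.natDegree (0 : ℤ) (le_refl H.natDegree)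
    rw [C_0, sub_zero] at h3
    rw [natDegree_X, h3, coeff_zero_eq_eval_zero]
  rw [h1, h2, hc]
  exact Dvd.intro_left _ rfl

/-- the linear coefficient of P mod p -/
theorem coeff_one_ne {K : Type*} [Field K] [IsAlgClosed K] {F : K[X]}
    (h2 : (2 : K) ≠ 0) (hd : X ^ 2 ∣ F) (hF0 : F.derivative ≠ 0)
    (h3 : ¬ X ^ 3 ∣ F) (hs : ∀ s : K, s ≠ 0 → ¬ (X - C s) ^ 2 ∣ F) {c : K} (hc : c ≠ 0) :
    (C c * ((F.derivative.roots.map (fun t => X + C (F.eval t))).prod)).coeff 1 ≠ 0 := by
  obtain ⟨H, hH⟩ := hd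
  have hder : F.derivative = X * (C 2 * H + X * H.derivative) := by
    rw [hH, derivative_mul, derivative_X_pow]
    simp
    ring
  have hH0 : H.eval 0 ≠ 0 := by
    intro h
    apply h3
    rw [← coeff_zero_eq_eval_zero, ← X_dvd_iff] at h
    obtain ⟨Q, rfl⟩ := h
    exact ⟨Q, by rw [hH]; ring⟩
  have hroot : (0 : K) ∈ F.derivative.roots := by
    rw [mem_roots hF0, IsRoot.def, hder]
    simp
  obtain ⟨s, hsr⟩ := Multiset.exists_cons_of_mem hroot
  have h0s : (0 : K) ∉ s := by
    intro h
    obtain ⟨t, rfl⟩ := Multiset.exists_cons_of_mem h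
    have h4 : X ^ 2 ∣ F.derivative := by
      refine dvd_trans ?_ (prod_multiset_X_sub_C_dvd F.derivative)
      rw [hsr]
      simp only [Multiset.map_cons, Multiset.prod_cons, C_0, sub_zero]
      rw [← mul_assoc, ← sq]
      exact dvd_mul_right _ _
    obtain ⟨Q, hQ⟩ := h4
    rw [hder, sq, mul_assoc] at hQ
    have h5 := mul_left_cancel₀ (X_ne_zero) hQ
    have h6 := congrArg (fun q => eval 0 q) h5
    simp [h2, hH0] at h6
  have hne : ∀ t ∈ s, F.eval t ≠ 0 := by
    intro t ht h
    have ht0 : t ≠ 0 := fun h => h0s (h ▸ ht)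
    have htr : t ∈ F.derivative.roots := by
      rw [hsr]; exact Multiset.mem_cons_of_mem ht
    rw [mem_roots hF0, IsRoot.def] at htr
    apply hs t ht0
    have h7 : (X - C t) ∣ F := dvd_iff_isRoot.mpr h
    obtain ⟨Q, hQ⟩ := h7
    have h8 : Q.eval t = 0 := by
      rw [hQ, derivative_mul] at htr
      simpa using htr
    have h9 : (X - C t) ∣ Q := dvd_iff_isRoot.mpr h8
    obtain ⟨R, hR⟩ := h9
    exact ⟨R, by rw [hQ, hR]; ring⟩
  have hF00 : F.eval 0 = 0 := by rw [hH]; simp
  rw [hsr]
  simp only [Multiset.map_cons, Multiset.prod_cons, hF00, C_0, add_zero]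
  rw [coeff_C_mul, coeff_X_mul, coeff_zero_eq_eval_zero, eval_multiset_prod, Multiset.map_map]
  apply mul_ne_zero hc
  apply Multiset.prod_ne_zero
  intro h
  rw [Multiset.mem_map] at h
  obtain ⟨t, ht, h10⟩ := h
  apply hne t ht
  simpa using h10

theorem weak_or_strong {f : ℤ[X]} (hf : f.Monic) (hn : 2 ≤ f.natDegree) (p : ℕ) [Fact p.Prime]
    (hp : f.natDegree < p) (h : (p : ℤ) ^ 2 ∣ f.discr) : Weak p f ∨ Strong p f := by
  by_contra hcon
  push Not at hcon
  obtain ⟨hW, hS⟩ := hcon
  have hpp : p.Prime := Fact.out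
  have hchar : CharP (AlgebraicClosure (ZMod p)) p :=
    charP_of_injective_algebraMap (algebraMap (ZMod p) (AlgebraicClosure (ZMod p))).injective p
  have hrm : (red p f).Monic := hf.map _
  -- the discriminant vanishes modulo p
  have hd0 : (red p f).discr = 0 := by
    rw [red, SzSP.discr_map _ hf, eq_intCast, CharP.intCast_eq_zero_iff _ p]
    exact dvd_trans (dvd_pow_self _ two_ne_zero) h
  obtain ⟨ρ, hρ⟩ := exists_double_root hrm hd0
  -- uniqueness
  have huniq : ∀ s : AlgebraicClosure (ZMod p), (X - C s) ^ 2 ∣ red p f → s = ρ := by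
    intro s hs
    by_contra hne
    exact hS ⟨s, ρ, Or.inl ⟨hne, hs, hρ⟩⟩
  have htrip : ¬ (X - C ρ) ^ 3 ∣ red p f := fun h3 => hS ⟨ρ, ρ, Or.inr h3⟩
  have hfrob : ρ ^ p = ρ := by
    apply huniq
    have h1 := Polynomial.map_dvd (frobenius (AlgebraicClosure (ZMod p)) p) hρ
    rw [map_frob] at h1
    simpa [frobenius_def] using h1
  obtain ⟨r, hr⟩ := (mem_bot_iff_intCast p (AlgebraicClosure (ZMod p))).mp
    ((Subfield.mem_bot_iff_pow_eq_self (AlgebraicClosure (ZMod p)) p).mpr hfrob)
  have hρ' : (X - C (r : AlgebraicClosure (ZMod p))) ^ 2 ∣ red p f := by rw [hr]; exact hρ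
  obtain ⟨hc0, hc1⟩ := sq_dvd_int p f r hρ'
  -- translate
  set g : ℤ[X] := taylor r f with hg
  have hgm : g.Monic := by
    rw [Monic, hg, leadingCoeff_taylor, hf.leadingCoeff]
  have hgd : g.natDegree = f.natDegree := natDegree_taylor f r
  have hg0 : g.coeff 0 = f.eval r := taylor_coeff_zero r f
  have hg1 : g.coeff 1 = f.derivative.eval r := taylor_coeff_one r f
  have hgdisc : g.discr = f.discr := SzSP.discr_taylor hf r
  set G : ℤ[X] := g - C (g.coeff 0) with hG
  have hGd : G.natDegree = g.natDegree := by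
    rw [hG, natDegree_sub_C]
  have hGm : G.Monic := by
    rw [Monic, leadingCoeff, hGd, hG, coeff_sub, coeff_C, if_neg (by omega), sub_zero]
    exact hgm
  have hG0 : G.coeff 0 = 0 := by simp [hG]
  have hG1 : G.coeff 1 = g.coeff 1 := by
    rw [hG, coeff_sub, coeff_C, if_neg one_ne_zero, sub_zero]
  obtain ⟨P, -, -, hPe, hPm⟩ := exists_ypol hGm (by omega)
  have hP0 : (p : ℤ) ^ 2 ∣ P.eval 0 := by
    rw [← hPe 0]
    simp only [C_0, add_zero]
    refine dvd_trans ?_ (discr_of_eval_zero hGm (by omega) hG0)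
    rw [hG1, hg1]
    exact pow_dvd_pow_of_dvd hc1 2
  have hPc : (p : ℤ) ^ 2 ∣ P.eval (f.eval r) := by
    rw [← hPe (f.eval r), ← hg0]
    have : G + C (g.coeff 0) = g := by rw [hG]; ring
    rw [this, hgdisc]
    exact h
  -- Taylor expansion of P at 0
  have hexp : (p : ℤ) ^ 2 ∣ P.coeff 1 * f.eval r := by
    obtain ⟨q, hq⟩ : ∃ q : ℤ[X], P = C (P.coeff 0) + X * C (P.coeff 1) + X ^ 2 * q := by
      refine ⟨P.divX.divX, ?_⟩
      have e1 := P.divX_mul_X_add
      have e2 := P.divX.divX_mul_X_add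
      rw [coeff_divX] at e2
      conv_lhs => rw [← e1, ← e2]
      ring
    have e3 : P.eval (f.eval r) = P.coeff 0 + f.eval r * P.coeff 1 +
        (f.eval r) ^ 2 * q.eval (f.eval r) := by
      conv_lhs => rw [hq]
      simp
    have e4 : P.coeff 1 * f.eval r = P.eval (f.eval r) - P.eval 0 -
        (f.eval r) ^ 2 * q.eval (f.eval r) := by
      rw [e3, ← coeff_zero_eq_eval_zero]
      ring
    rw [e4]
    exact dvd_sub (dvd_sub hPc hP0) (Dvd.dvd.mul_right (pow_dvd_pow_of_dvd hc0 2) _)
  -- the linear coefficient of P is a unit mod p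
  have hcop : ¬ (p : ℤ) ∣ P.coeff 1 := by
    intro hdv
    have hnK : (G.natDegree : AlgebraicClosure (ZMod p)) ≠ 0 := by
      rw [Ne, CharP.cast_eq_zero_iff _ p]
      intro hdv
      have := Nat.le_of_dvd (by omega) hdv
      omega
    have h2K : (2 : AlgebraicClosure (ZMod p)) ≠ 0 := by
      have : ((2 : ℕ) : AlgebraicClosure (ZMod p)) ≠ 0 := by
        rw [Ne, CharP.cast_eq_zero_iff _ p]
        intro hdv
        have := Nat.le_of_dvd (by omega) hdv
        omega
      exact_mod_cast this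
    have hPK := hPm (AlgebraicClosure (ZMod p)) hnK
    have e1 : (P.map (Int.castRingHom (AlgebraicClosure (ZMod p)))).coeff 1 = 0 := by
      rw [coeff_map, eq_intCast, CharP.intCast_eq_zero_iff _ p]
      exact hdv
    rw [hPK] at e1
    -- G mod p
    have hgK : g.map (Int.castRingHom (AlgebraicClosure (ZMod p))) = taylor ρ (red p f) := by
      rw [hg, taylor_apply, taylor_apply, Polynomial.map_comp, red, ← hr]
      simp
    have hGK : G.map (Int.castRingHom (AlgebraicClosure (ZMod p))) = taylor ρ (red p f) := by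
      rw [hG, Polynomial.map_sub, hgK, map_C, eq_intCast, hg0,
        (CharP.intCast_eq_zero_iff (AlgebraicClosure (ZMod p)) p _).mpr hc0]
      simp
    have htay : ∀ (s : AlgebraicClosure (ZMod p)) (k : ℕ),
        (X - C s) ^ k ∣ taylor ρ (red p f) → (X - C (s + ρ)) ^ k ∣ red p f := by
      intro s k hk
      obtain ⟨Q, hQ⟩ := hk
      refine ⟨taylor (-ρ) Q, ?_⟩
      have e2 := congrArg (taylor (-ρ)) hQ
      rw [taylor_taylor] at e2
      simp only [neg_add_cancel, taylor_zero, taylor_mul] at e2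
      rw [e2]
      congr 1
      simp [taylor_apply]
      ring
    refine coeff_one_ne (F := G.map (Int.castRingHom (AlgebraicClosure (ZMod p)))) h2K ?_ ?_ ?_ ?_
      ?_ e1
    · rw [hGK]
      obtain ⟨Q, hQ⟩ := hρ
      refine ⟨taylor ρ Q, ?_⟩
      rw [hQ, taylor_mul]
      congr 1
      simp [taylor_apply]
    · intro h0
      have h1 : (G.map (Int.castRingHom (AlgebraicClosure (ZMod p)))).natDegree = G.natDegree :=
        hGm.natDegree_map _
      have h2 := congrArg (fun q => coeff q (G.natDegree - 1)) h0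
      simp only [coeff_derivative, coeff_zero] at h2
      rw [show G.natDegree - 1 + 1 = G.natDegree by omega, coeff_map, hGm.coeff_natDegree,
        map_one, one_mul] at h2
      apply hnK
      rw [← h2]
      have : ((G.natDegree - 1 + 1 : ℕ) : AlgebraicClosure (ZMod p)) =
        (G.natDegree : AlgebraicClosure (ZMod p)) := by
        congr 1; omega
      rw [← this]
      push_cast
      ring
    · rw [hGK]
      intro h3
      apply htrip
      have := htay 0 3 (by simpa using h3)
      simpa using this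
    · intro s hs0 hs
      rw [hGK] at hs
      have h4 := huniq _ (htay s 2 hs)
      apply hs0
      simpa using h4
    · exact mul_ne_zero (pow_ne_zero _ (by simp)) (pow_ne_zero _ hnK)
  apply hW
  refine ⟨r, ?_, hc1⟩
  have hcop2 : IsCoprime ((p : ℤ) ^ 2) (P.coeff 1) := by
    apply IsCoprime.pow_left
    rw [Int.isCoprime_iff_gcd_eq_one]
    have : Prime (p : ℤ) := Nat.prime_iff_prime_int.mp hpp
    exact (Int.isCoprime_iff_gcd_eq_one).mp ((Prime.coprime_iff_not_dvd this).mpr hcop)
  exact hcop2.dvd_of_dvd_mul_left hexp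

end SzC2
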