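import Pool.Agent.SzC2.Defs

/-!
A squareful divisor of prescribed size.
-/

open scoped Classical

namespace SzC2

lemma squareful_div {d p a : ℕ} (hd : Squareful d) (hp : p.Prime) (hpa : p ^ a ∣ d)
    (h : ¬ p ∣ d / p ^ a ∨ p ^ 2 ∣ d / p ^ a) : Squareful (d / p ^ a) := by
  obtain ⟨hd0, hd1⟩ := hd
  have hpos : 0 < p ^ a := pow_pos hp.pos a
  refine ⟨?_, fun q hq hqd => ?_⟩
  · intro h0
    have := Nat.div_mul_cancel hpa
    rw [h0, zero_mul] at this
    exact hd0 this.symm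
  · by_cases hqp : q = p
    · subst hqp
      rcases h with h | h
      · exact absurd hqd h
      · exact h
    · have h1 : q ^ 2 ∣ d := hd1 q hq (hqd.trans (Nat.div_dvd_of_dvd hpa))
      have h2 : q ^ 2 ∣ (d / p ^ a) * p ^ a := by rwa [Nat.div_mul_cancel hpa]
      have hco : Nat.Coprime (q ^ 2) (p ^ a) :=
        Nat.Coprime.pow _ _ ((Nat.coprime_primes hq hp).2 hqp)
      exact hco.dvd_of_dvd_mul_right h2

/-- a squareful divisor of prescribed size -/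
theorem chain (D : ℕ) (hD : D ≠ 0) (z Y : ℕ) (hz : 2 ≤ z) (hY : 1 ≤ Y)
    (h : Y ≤ ∏ p ∈ D.primeFactors with (p ≤ z ∧ p ^ 2 ∣ D), p ^ (D.factorization p)) :
    ∃ d : ℕ, d ∣ D ∧ Squareful d ∧ Y ≤ d ∧ d ≤ Y * z ^ 2 := by
  set W := ∏ p ∈ D.primeFactors with (p ≤ z ∧ p ^ 2 ∣ D), p ^ (D.factorization p) with hW
  have hWD : W ∣ D := by
    have h1 : W ∣ ∏ p ∈ D.primeFactors, p ^ (D.factorization p) :=
      Finset.prod_dvd_prod_of_subset _ _ _ (Finset.filter_subset _ _)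
    have h2 : ∏ p ∈ D.primeFactors, p ^ (D.factorization p) = D :=
      Nat.factorization_prod_pow_eq_self hD
    rwa [h2] at h1
  have hWq : ∀ q : ℕ, q.Prime → q ∣ W → q ≤ z ∧ q ^ 2 ∣ W := by
    intro q hq hqW
    rw [hW, hq.prime.dvd_finset_prod_iff] at hqW
    obtain ⟨p, hp, hqp⟩ := hqW
    have hp' := Finset.mem_filter.1 hp
    have hpp : p.Prime := Nat.prime_of_mem_primeFactors hp'.1
    have hqp' : q = p := (Nat.prime_dvd_prime_iff_eq hq hpp).1 (hq.dvd_of_dvd_pow hqp)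
    subst hqp'
    refine ⟨hp'.2.1, ?_⟩
    have h2 : 2 ≤ D.factorization q := (hq.pow_dvd_iff_le_factorization hD).1 hp'.2.2
    exact (pow_dvd_pow q h2).trans
      (Finset.dvd_prod_of_mem (fun p => p ^ (D.factorization p)) hp)
  have hW0 : W ≠ 0 := fun h0 => by
    rw [h0] at hWD
    exact hD (Nat.eq_zero_of_zero_dvd hWD)
  have hWs : Squareful W := ⟨hW0, fun q hq hqW => (hWq q hq hqW).2⟩
  have hex : ∃ d : ℕ, d ∣ W ∧ Squareful d ∧ Y ≤ d := ⟨W, dvd_rfl, hWs, h⟩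
  obtain ⟨hdW, hds, hYd⟩ := Nat.find_spec hex
  have hmin := fun m => Nat.find_min hex (m := m)
  set d := Nat.find hex with hd
  refine ⟨d, hdW.trans hWD, hds, hYd, ?_⟩
  by_contra hbig
  push Not at hbig
  have hd1 : d ≠ 1 := by
    intro h1
    rw [h1] at hbig
    have : 1 ≤ Y * z ^ 2 := Nat.mul_pos hY (by positivity)
    omega
  obtain ⟨p, hp, hpd⟩ := Nat.exists_prime_and_dvd hd1
  have hpz : p ≤ z := (hWq p hp (hpd.trans hdW)).1
  have hp2 : p ^ 2 ∣ d := hds.2 p hp hpd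
  have hd0 : 0 < d := Nat.pos_of_ne_zero hds.1
  by_cases hp3 : p ^ 3 ∣ d
  · have hpd1 : p ^ 1 ∣ d := by rwa [pow_one]
    have e : d / p ^ 1 * p ^ 1 = d := Nat.div_mul_cancel hpd1
    have hlt : d / p ^ 1 < d := Nat.div_lt_self hd0 (by rw [pow_one]; exact hp.one_lt)
    apply hmin _ hlt
    refine ⟨(Nat.div_dvd_of_dvd hpd1).trans hdW, squareful_div hds hp hpd1 (Or.inr ?_), ?_⟩
    · obtain ⟨w, hw⟩ := hp3
      rw [hw]
      refine ⟨w, ?_⟩
      rw [pow_one, show p ^ 3 * w = p * (p ^ 2 * w) by ring, Nat.mul_div_cancel_left _ hp.pos]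
    · by_contra hlt2
      push Not at hlt2
      have h1 : d / p ^ 1 * p ^ 1 ≤ Y * z := by
        rw [pow_one]
        rw [pow_one] at hlt2
        exact Nat.mul_le_mul hlt2.le hpz
      rw [e] at h1
      have h2 : Y * z ≤ Y * z ^ 2 := Nat.mul_le_mul_left _ (by nlinarith)
      omega
  · have e : d / p ^ 2 * p ^ 2 = d := Nat.div_mul_cancel hp2
    have hlt : d / p ^ 2 < d := Nat.div_lt_self hd0 (Nat.one_lt_pow (by norm_num) hp.one_lt)
    apply hmin _ hlt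
    refine ⟨(Nat.div_dvd_of_dvd hp2).trans hdW, squareful_div hds hp hp2 (Or.inl ?_), ?_⟩
    · rintro ⟨w, hw⟩
      apply hp3
      refine ⟨w, ?_⟩
      rw [← e, hw]; ring
    · by_contra hlt2
      push Not at hlt2
      have h1 : d / p ^ 2 * p ^ 2 ≤ Y * z ^ 2 :=
        Nat.mul_le_mul hlt2.le (Nat.pow_le_pow_left hpz 2)
      rw [e] at h1
      omega

end SzC2
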