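import Pool.Agent.SzC2.Pp

/-!
Pairs `(x, y)` such that the discriminant of `G + x X + y` is divisible by the square of a prime
of medium size.
-/

open Polynomial
open scoped Classical

namespace SzC2

theorem square_pairs_aux (n : ℕ) (hn : 3 ≤ n) (δ : ℝ) (h0 : 0 < δ) (h1 : δ ≤ 1 / 2) :
    ∃ A δ' : ℝ, 0 < δ' ∧ ∀ G : ℤ[X], G.Monic → G.natDegree = n → ∀ T : ℕ, 1 ≤ T →
      (((Finset.Icc (-((T : ℤ) ^ (n - 1))) ((T : ℤ) ^ (n - 1)) ×ˢ
          Finset.Icc (-((T : ℤ) ^ n)) ((T : ℤ) ^ n)).filter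
        (fun z => ∃ p : ℕ, p.Prime ∧ (T : ℝ) ^ (1 / 16 : ℝ) < p ∧
        (p : ℝ) ≤ (T : ℝ) ^ ((n : ℝ) - δ) ∧ (p : ℤ) ^ 2 ∣ (fxy G z.1 z.2).discr)).card : ℝ)
        ≤ A * (T : ℝ) ^ (-δ') * (Finset.Icc (-((T : ℤ) ^ (n - 1))) ((T : ℤ) ^ (n - 1)) ×ˢ
          Finset.Icc (-((T : ℤ) ^ n)) ((T : ℤ) ^ n)).card := by
  set C0 : ℝ := ∑' k : ℕ, (k : ℝ) ^ (-(3 / 2) : ℝ) with hC0def
  have hsum : Summable (fun k : ℕ => (k : ℝ) ^ (-(3 / 2) : ℝ)) :=
    Real.summable_nat_rpow.2 (by norm_num)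
  have hC0 : 0 ≤ C0 := tsum_nonneg (fun k => by positivity)
  have hn3 : (3 : ℝ) ≤ n := by exact_mod_cast hn
  refine ⟨(n + 4 * n ^ 2) * C0 + (n + 4 * n ^ 2) + 8 * n ^ 2 * C0, min δ (1 / 32),
    lt_min h0 (by norm_num), ?_⟩
  intro G hG hGn T hT
  have hT1 : (1 : ℝ) ≤ T := by exact_mod_cast hT
  have hT0 : (0 : ℝ) < T := by linarith
  set D : ℝ := min δ (1 / 32) with hD
  have hDδ : D ≤ δ := min_le_left _ _
  have hD32 : D ≤ 1 / 32 := min_le_right _ _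
  have hA1 : (n : ℝ) ≤ (n + 4 * n ^ 2) * C0 + (n + 4 * n ^ 2) + 8 * n ^ 2 * C0 := by
    have : 0 ≤ (n + 4 * (n : ℝ) ^ 2) * C0 := by positivity
    have : 0 ≤ 8 * (n : ℝ) ^ 2 * C0 := by positivity
    have : 0 ≤ 4 * (n : ℝ) ^ 2 := by positivity
    linarith
  set X : ℝ := 2 * (T : ℝ) ^ (n - 1) + 1 with hX
  set Y : ℝ := 2 * (T : ℝ) ^ n + 1 with hY
  have hcardA : ((Finset.Icc (-((T : ℤ) ^ (n - 1))) ((T : ℤ) ^ (n - 1))).card : ℝ) = X := by
    rw [Int.card_Icc]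
    have h1 : ((T : ℤ) ^ (n - 1) + 1 - -((T : ℤ) ^ (n - 1))).toNat = 2 * T ^ (n - 1) + 1 := by
      have h2 : ((T : ℤ) ^ (n - 1) + 1 - -((T : ℤ) ^ (n - 1))) =
          ((2 * T ^ (n - 1) + 1 : ℕ) : ℤ) := by push_cast; ring
      rw [h2, Int.toNat_natCast]
    rw [h1, hX]
    push_cast
    ring
  have hcardB : ((Finset.Icc (-((T : ℤ) ^ n)) ((T : ℤ) ^ n)).card : ℝ) = Y := by
    rw [Int.card_Icc]
    have h1 : ((T : ℤ) ^ n + 1 - -((T : ℤ) ^ n)).toNat = 2 * T ^ n + 1 := by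
      have h2 : ((T : ℤ) ^ n + 1 - -((T : ℤ) ^ n)) =
          ((2 * T ^ n + 1 : ℕ) : ℤ) := by push_cast; ring
      rw [h2, Int.toNat_natCast]
    rw [h1, hY]
    push_cast
    ring
  have hcard : ((Finset.Icc (-((T : ℤ) ^ (n - 1))) ((T : ℤ) ^ (n - 1)) ×ˢ
          Finset.Icc (-((T : ℤ) ^ n)) ((T : ℤ) ^ n)).card : ℝ) = X * Y := by
    rw [Finset.card_product, Nat.cast_mul, hcardA, hcardB]
  rw [hcard]
  have hX0 : 0 < X := by rw [hX]; positivity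
  have hY0 : 0 < Y := by rw [hY]; positivity
  have hTD : 0 < (T : ℝ) ^ (-D) := Real.rpow_pos_of_pos hT0 _
  by_cases hsmall : (T : ℝ) ^ (1 / 16 : ℝ) ≤ n
  · have h2 : ((((Finset.Icc (-((T : ℤ) ^ (n - 1))) ((T : ℤ) ^ (n - 1)) ×ˢ
          Finset.Icc (-((T : ℤ) ^ n)) ((T : ℤ) ^ n)).filter
        (fun z => ∃ p : ℕ, p.Prime ∧ (T : ℝ) ^ (1 / 16 : ℝ) < p ∧
        (p : ℝ) ≤ (T : ℝ) ^ ((n : ℝ) - δ) ∧ (p : ℤ) ^ 2 ∣ (fxy G z.1 z.2).discr)).card : ℕ) : ℝ)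
        ≤ X * Y := by
      rw [← hcard]
      exact_mod_cast Finset.card_filter_le _ _
    refine h2.trans ?_
    have h3 : (T : ℝ) ^ D ≤ n := by
      refine le_trans (Real.rpow_le_rpow_of_exponent_le hT1 ?_) hsmall
      linarith
    have h4 : 1 ≤ ((n + 4 * n ^ 2) * C0 + (n + 4 * n ^ 2) + 8 * n ^ 2 * C0) * (T : ℝ) ^ (-D) := by
      have h5 : (T : ℝ) ^ D * (T : ℝ) ^ (-D) = 1 := by
        rw [← Real.rpow_add hT0, add_neg_cancel, Real.rpow_zero]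
      rw [← h5]
      exact mul_le_mul_of_nonneg_right (h3.trans hA1) hTD.le
    calc X * Y = 1 * (X * Y) := (one_mul _).symm
      _ ≤ _ := mul_le_mul_of_nonneg_right h4 (by positivity)
  · have hbig : (n : ℝ) < (T : ℝ) ^ (1 / 16 : ℝ) := lt_of_not_ge hsmall
    set P : Finset ℕ := (Finset.Icc 1 ⌊(T : ℝ) ^ ((n : ℝ) - δ)⌋₊).filter
      (fun p => p.Prime ∧ (T : ℝ) ^ (1 / 16 : ℝ) < p) with hP
    have hsub : ((Finset.Icc (-((T : ℤ) ^ (n - 1))) ((T : ℤ) ^ (n - 1)) ×ˢ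
          Finset.Icc (-((T : ℤ) ^ n)) ((T : ℤ) ^ n)).filter
        (fun z => ∃ p : ℕ, p.Prime ∧ (T : ℝ) ^ (1 / 16 : ℝ) < p ∧
        (p : ℝ) ≤ (T : ℝ) ^ ((n : ℝ) - δ) ∧ (p : ℤ) ^ 2 ∣ (fxy G z.1 z.2).discr)) ⊆
        P.biUnion (fun p => (Finset.Icc (-(((T ^ (n - 1) : ℕ) : ℤ))) ((T ^ (n - 1) : ℕ) : ℤ) ×ˢ
          Finset.Icc (-(((T ^ n : ℕ) : ℤ))) ((T ^ n : ℕ) : ℤ)).filter
          (fun z => (p : ℤ) ^ 2 ∣ (fxy G z.1 z.2).discr)) := by
      intro z hz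
      rw [Finset.mem_filter] at hz
      obtain ⟨hz1, p, hp, hp1, hp2, hp3⟩ := hz
      rw [Finset.mem_biUnion]
      refine ⟨p, ?_, ?_⟩
      · rw [hP, Finset.mem_filter, Finset.mem_Icc]
        exact ⟨⟨hp.one_lt.le, Nat.le_floor hp2⟩, hp, hp1⟩
      · rw [Finset.mem_filter]
        refine ⟨?_, hp3⟩
        rw [Nat.cast_pow, Nat.cast_pow]
        exact hz1
    have hcardP : (P.card : ℝ) ≤ Y * (T : ℝ) ^ (-D) := by
      have h2 : P.card ≤ ⌊(T : ℝ) ^ ((n : ℝ) - δ)⌋₊ := by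
        refine (Finset.card_filter_le _ _).trans ?_
        rw [Nat.card_Icc, Nat.add_sub_cancel]
      have h3 : (P.card : ℝ) ≤ (T : ℝ) ^ ((n : ℝ) - δ) := by
        refine le_trans ?_ (Nat.floor_le (Real.rpow_nonneg hT0.le _))
        exact_mod_cast h2
      refine h3.trans ?_
      have h4 : (T : ℝ) ^ ((n : ℝ) - δ) = (T : ℝ) ^ n * (T : ℝ) ^ (-δ) := by
        rw [sub_eq_add_neg, Real.rpow_add hT0, Real.rpow_natCast]
      rw [h4]
      apply mul_le_mul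
      · rw [hY]
        have : 0 < (T : ℝ) ^ n := by positivity
        linarith
      · exact Real.rpow_le_rpow_of_exponent_le hT1 (by linarith)
      · positivity
      · exact hY0.le
    have hterm : ∀ p ∈ P, (((Finset.Icc (-(((T ^ (n - 1) : ℕ) : ℤ))) ((T ^ (n - 1) : ℕ) : ℤ) ×ˢ
          Finset.Icc (-(((T ^ n : ℕ) : ℤ))) ((T ^ n : ℕ) : ℤ)).filter
          (fun z => (p : ℤ) ^ 2 ∣ (fxy G z.1 z.2).discr)).card : ℝ) ≤
        ((n + 4 * n ^ 2) + 8 * n ^ 2) * (X * Y * (T : ℝ) ^ (-D)) * (p : ℝ) ^ (-(3 / 2) : ℝ)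
          + (n + 4 * n ^ 2) * X := by
      intro p hp
      rw [hP, Finset.mem_filter, Finset.mem_Icc] at hp
      obtain ⟨⟨hp1, hp2⟩, hpp, hp3⟩ := hp
      have hp0 : (0 : ℝ) < p := by exact_mod_cast hpp.pos
      have hpT : (p : ℝ) ≤ (T : ℝ) ^ (n : ℝ) := by
        have h2 : (p : ℝ) ≤ (T : ℝ) ^ ((n : ℝ) - δ) := by
          refine le_trans ?_ (Nat.floor_le (Real.rpow_nonneg hT0.le _))
          exact_mod_cast hp2
        refine h2.trans (Real.rpow_le_rpow_of_exponent_le hT1 (by linarith))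
      have hnp : G.natDegree < p := by
        rw [hGn]
        have : (n : ℝ) < p := hbig.trans hp3
        exact_mod_cast this
      have hbox := square_box hG (by rw [hGn]; exact hn) p hpp hnp (T ^ (n - 1)) (T ^ n)
      rw [hGn] at hbox
      refine hbox.trans ?_
      have e1 : (2 * ((T ^ (n - 1) : ℕ) : ℝ) + 1) = X := by rw [hX]; push_cast; ring
      have e2 : (2 * ((T ^ n : ℕ) : ℝ) + 1) = Y := by rw [hY]; push_cast; ring
      rw [e1, e2]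
      set q : ℝ := (p : ℝ) ^ (-(3 / 2) : ℝ) with hq
      have hq0 : 0 < q := Real.rpow_pos_of_pos hp0 _
      -- `1/p^2 ≤ q T^(-D)`
      have hinv2 : 1 / (p : ℝ) ^ 2 ≤ q * (T : ℝ) ^ (-D) := by
        have h2 : 1 / (p : ℝ) ^ 2 = q * (p : ℝ) ^ (-(1 / 2) : ℝ) := by
          rw [hq, ← Real.rpow_add hp0]
          have : (-(3 / 2) + -(1 / 2) : ℝ) = -2 := by norm_num
          rw [this, Real.rpow_neg hp0.le, one_div]
          congr 1
          norm_num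
        rw [h2]
        apply mul_le_mul_of_nonneg_left _ hq0.le
        calc (p : ℝ) ^ (-(1 / 2) : ℝ) ≤ ((T : ℝ) ^ (1 / 16 : ℝ)) ^ (-(1 / 2) : ℝ) :=
              Real.rpow_le_rpow_of_nonpos (Real.rpow_pos_of_pos hT0 _) hp3.le (by norm_num)
          _ = (T : ℝ) ^ (-(1 / 32) : ℝ) := by
              rw [← Real.rpow_mul hT0.le]
              congr 1
              norm_num
          _ ≤ (T : ℝ) ^ (-D) := Real.rpow_le_rpow_of_exponent_le hT1 (by linarith)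
      -- `1/p ≤ q T^(n/2)`
      have hinv1 : 1 / (p : ℝ) ≤ q * (T : ℝ) ^ ((n : ℝ) / 2) := by
        have h2 : 1 / (p : ℝ) = q * (p : ℝ) ^ (1 / 2 : ℝ) := by
          rw [hq, ← Real.rpow_add hp0]
          have : (-(3 / 2) + 1 / 2 : ℝ) = -1 := by norm_num
          rw [this, Real.rpow_neg hp0.le, one_div, Real.rpow_one]
        rw [h2]
        apply mul_le_mul_of_nonneg_left _ hq0.le
        calc (p : ℝ) ^ (1 / 2 : ℝ) ≤ ((T : ℝ) ^ (n : ℝ)) ^ (1 / 2 : ℝ) :=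
              Real.rpow_le_rpow hp0.le hpT (by norm_num)
          _ = (T : ℝ) ^ ((n : ℝ) / 2) := by
              rw [← Real.rpow_mul hT0.le]
              congr 1
              ring
      have hXT : (T : ℝ) ^ ((n : ℝ) / 2) ≤ X * (T : ℝ) ^ (-D) := by
        have h2 : (T : ℝ) ^ ((n : ℝ) / 2) ≤ (T : ℝ) ^ (n - 1) * (T : ℝ) ^ (-D) := by
          rw [← Real.rpow_natCast, ← Real.rpow_add hT0]
          apply Real.rpow_le_rpow_of_exponent_le hT1
          rw [Nat.cast_sub (by omega), Nat.cast_one]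
          linarith
        refine h2.trans (mul_le_mul_of_nonneg_right ?_ hTD.le)
        rw [hX]
        have : 0 < (T : ℝ) ^ (n - 1) := by positivity
        linarith
      have hYT : (T : ℝ) ^ ((n : ℝ) / 2) ≤ Y * (T : ℝ) ^ (-D) := by
        have h2 : (T : ℝ) ^ ((n : ℝ) / 2) ≤ (T : ℝ) ^ n * (T : ℝ) ^ (-D) := by
          rw [← Real.rpow_natCast, ← Real.rpow_add hT0]
          apply Real.rpow_le_rpow_of_exponent_le hT1
          linarith
        refine h2.trans (mul_le_mul_of_nonneg_right ?_ hTD.le)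
        rw [hY]
        have : 0 < (T : ℝ) ^ n := by positivity
        linarith
      have hX1 : 1 ≤ X := by
        rw [hX]
        have : 0 < (T : ℝ) ^ (n - 1) := by positivity
        linarith
      set t : ℝ := (T : ℝ) ^ (-D) with ht
      set s : ℝ := (T : ℝ) ^ ((n : ℝ) / 2) with hs
      -- the four pieces
      have a1 : X * Y * (1 / (p : ℝ) ^ 2) ≤ X * Y * t * q := by
        calc X * Y * (1 / (p : ℝ) ^ 2) ≤ X * Y * (q * t) :=
              mul_le_mul_of_nonneg_left hinv2 (by positivity)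
          _ = X * Y * t * q := by ring
      have a2 : X * (1 / (p : ℝ)) ≤ X * Y * t * q := by
        calc X * (1 / (p : ℝ)) ≤ X * (q * s) := mul_le_mul_of_nonneg_left hinv1 hX0.le
          _ ≤ X * (q * (Y * t)) := by
              apply mul_le_mul_of_nonneg_left _ hX0.le
              exact mul_le_mul_of_nonneg_left hYT hq0.le
          _ = X * Y * t * q := by ring
      have a3 : Y * (1 / (p : ℝ)) ≤ X * Y * t * q := by
        calc Y * (1 / (p : ℝ)) ≤ Y * (q * s) := mul_le_mul_of_nonneg_left hinv1 hY0.le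
          _ ≤ Y * (q * (X * t)) := by
              apply mul_le_mul_of_nonneg_left _ hY0.le
              exact mul_le_mul_of_nonneg_left hXT hq0.le
          _ = X * Y * t * q := by ring
      have hn0 : (0 : ℝ) ≤ n := by linarith
      have b1 : (n : ℝ) * X * (Y / (p : ℝ) ^ 2 + 1) = n * (X * Y * (1 / (p : ℝ) ^ 2)) + n * X := by
        ring
      have b2 : 4 * (n : ℝ) ^ 2 * (X / (p : ℝ) + 1) * (Y / (p : ℝ) + 1) =
          4 * (n : ℝ) ^ 2 * (X * Y * (1 / (p : ℝ) ^ 2) + X * (1 / (p : ℝ)) + Y * (1 / (p : ℝ)) + 1)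
          := by
        field_simp
        ring
      rw [b1, b2]
      have c1 : (n : ℝ) * (X * Y * (1 / (p : ℝ) ^ 2)) ≤ n * (X * Y * t * q) :=
        mul_le_mul_of_nonneg_left a1 hn0
      have c2 : 4 * (n : ℝ) ^ 2 * (X * Y * (1 / (p : ℝ) ^ 2) + X * (1 / (p : ℝ)) +
          Y * (1 / (p : ℝ)) + 1) ≤ 4 * (n : ℝ) ^ 2 * (X * Y * t * q + X * Y * t * q +
          X * Y * t * q + X) :=
        mul_le_mul_of_nonneg_left (by linarith) (by positivity)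
      refine (add_le_add (add_le_add c1 le_rfl) c2).trans (le_of_eq ?_)
      ring
    calc ((((Finset.Icc (-((T : ℤ) ^ (n - 1))) ((T : ℤ) ^ (n - 1)) ×ˢ
          Finset.Icc (-((T : ℤ) ^ n)) ((T : ℤ) ^ n)).filter
        (fun z => ∃ p : ℕ, p.Prime ∧ (T : ℝ) ^ (1 / 16 : ℝ) < p ∧
        (p : ℝ) ≤ (T : ℝ) ^ ((n : ℝ) - δ) ∧ (p : ℤ) ^ 2 ∣ (fxy G z.1 z.2).discr)).card : ℕ) : ℝ)
        ≤ ((P.biUnion (fun p =>
          (Finset.Icc (-(((T ^ (n - 1) : ℕ) : ℤ))) ((T ^ (n - 1) : ℕ) : ℤ) ×ˢ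
          Finset.Icc (-(((T ^ n : ℕ) : ℤ))) ((T ^ n : ℕ) : ℤ)).filter
          (fun z => (p : ℤ) ^ 2 ∣ (fxy G z.1 z.2).discr))).card : ℝ) := by
          exact_mod_cast Finset.card_le_card hsub
      _ ≤ ∑ p ∈ P, (((Finset.Icc (-(((T ^ (n - 1) : ℕ) : ℤ))) ((T ^ (n - 1) : ℕ) : ℤ) ×ˢ
          Finset.Icc (-(((T ^ n : ℕ) : ℤ))) ((T ^ n : ℕ) : ℤ)).filter
          (fun z => (p : ℤ) ^ 2 ∣ (fxy G z.1 z.2).discr)).card : ℝ) := by
          exact_mod_cast Finset.card_biUnion_le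
      _ ≤ ∑ p ∈ P, (((n + 4 * n ^ 2) + 8 * n ^ 2) * (X * Y * (T : ℝ) ^ (-D)) *
            (p : ℝ) ^ (-(3 / 2) : ℝ) + (n + 4 * n ^ 2) * X) := Finset.sum_le_sum hterm
      _ = ((n + 4 * n ^ 2) + 8 * n ^ 2) * (X * Y * (T : ℝ) ^ (-D)) *
            (∑ p ∈ P, (p : ℝ) ^ (-(3 / 2) : ℝ)) + P.card * ((n + 4 * n ^ 2) * X) := by
          rw [Finset.sum_add_distrib, ← Finset.mul_sum, Finset.sum_const, nsmul_eq_mul]
      _ ≤ ((n + 4 * n ^ 2) + 8 * n ^ 2) * (X * Y * (T : ℝ) ^ (-D)) * C0 +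
            (Y * (T : ℝ) ^ (-D)) * ((n + 4 * n ^ 2) * X) := by
          apply add_le_add
          · apply mul_le_mul_of_nonneg_left _ (by positivity)
            exact hsum.sum_le_tsum P (fun k _ => by positivity)
          · exact mul_le_mul_of_nonneg_right hcardP (by positivity)
      _ = ((n + 4 * n ^ 2) * C0 + (n + 4 * n ^ 2) + 8 * n ^ 2 * C0) * (T : ℝ) ^ (-D) *
            (X * Y) := by ring

end SzC2
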