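import Pool.Agent.SzC2.EulerA
import Pool.Agent.SzC2.ChainA

/-!
Sums over squareful smooth numbers, and squareful divisors of prescribed size.
-/
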