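import Pool.Agent.SzC2.Pp
import Pool.Agent.SzC2.Euler

/-!
Pairs `(x, y)` such that the discriminant of `G + x X + y` has a squareful divisor of medium size.
-/

open Polynomial
open scoped Classical

namespace SzC2

theorem squareful_pairs_aux (n : ℕ) (hn : 3 ≤ n) :
    ∃ A δ' : ℝ, 0 < δ' ∧ ∀ G : ℤ[X], G.Monic → G.natDegree = n → ∀ T : ℕ, 1 ≤ T →
      (((Finset.Icc (-((T : ℤ) ^ (n - 1))) ((T : ℤ) ^ (n - 1)) ×ˢ
          Finset.Icc (-((T : ℤ) ^ n)) ((T : ℤ) ^ n)).filter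
        (fun z => ∃ d : ℕ, Squareful d ∧ (T : ℝ) ^ (1 / 4 : ℝ) ≤ d ∧
        (d : ℝ) ≤ (T : ℝ) ^ (1 / 2 : ℝ) ∧ (d : ℤ) ∣ (fxy G z.1 z.2).discr)).card : ℝ)
        ≤ A * (T : ℝ) ^ (-δ') * (Finset.Icc (-((T : ℤ) ^ (n - 1))) ((T : ℤ) ^ (n - 1)) ×ˢ
          Finset.Icc (-((T : ℤ) ^ n)) ((T : ℤ) ^ n)).card := by
  set c : ℝ := max (5 * (n : ℝ) ^ 2) ((n : ℝ) ^ (n + 1)) with hcdef
  have hn1 : (1 : ℝ) ≤ n := by
    have : (3 : ℝ) ≤ n := by exact_mod_cast hn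
    linarith
  have hc : 1 ≤ c := le_trans (one_le_pow₀ hn1) (le_max_right _ _)
  obtain ⟨A₀, hA₀, hE⟩ := euler_sum c hc (n - 1) (by omega)
  have hcast : ((n - 1 : ℕ) : ℝ) = (n : ℝ) - 1 := by
    rw [Nat.cast_sub (by omega), Nat.cast_one]
  have hn1' : (0 : ℝ) < (n : ℝ) - 1 := by
    have : (3 : ℝ) ≤ n := by exact_mod_cast hn
    linarith
  refine ⟨4 * A₀, 1 / (64 * ((n : ℝ) - 1)), by positivity, ?_⟩
  intro G hG hGn T hT
  have hT1 : (1 : ℝ) ≤ T := by exact_mod_cast hT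
  have hG2 : 2 ≤ G.natDegree := by omega
  have hG3 : 3 ≤ G.natDegree := by omega
  set F : ℕ → ℝ := fun d => (rho G d : ℝ) / (d : ℝ) ^ 2 with hF
  set S : Finset ℕ := (Finset.range (T + 1)).filter
    (fun d => Squareful d ∧ (T : ℝ) ^ (1 / 4 : ℝ) ≤ d ∧ (d : ℝ) ≤ (T : ℝ) ^ (1 / 2 : ℝ)) with hS
  have hsqT : (T : ℝ) ^ (1 / 2 : ℝ) ≤ T := by
    calc (T : ℝ) ^ (1 / 2 : ℝ) ≤ (T : ℝ) ^ (1 : ℝ) :=
          Real.rpow_le_rpow_of_exponent_le hT1 (by norm_num)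
      _ = T := Real.rpow_one _
  have hY : 1 ≤ (T : ℝ) ^ (1 / 4 : ℝ) := Real.one_le_rpow hT1 (by norm_num)
  have hsum := hE F (by
      rw [hF]; simp [rho_one]) (fun d => by rw [hF]; positivity)
    (fun a b ha hb hab => by
      rw [hF]
      simp only
      rw [rho_mul G hG hG2 ha hb hab]
      push_cast
      rw [mul_pow, mul_div_mul_comm])
    (fun p k hp hk => by
      have h1 := rho_sq hG hG3 p hp k hk
      have hp0 : (0 : ℝ) < p := by exact_mod_cast hp.pos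
      rw [hF]
      simp only
      rw [Nat.cast_pow, div_le_iff₀ (by positivity)]
      refine h1.trans ?_
      gcongr
      rw [hGn]
      exact le_max_left _ _)
    (fun p k hp => by
      have h1 := rho_pow hG hG3 p hp k
      have hp0 : (0 : ℝ) < p := by exact_mod_cast hp.pos
      rw [hF]
      simp only
      rw [Nat.cast_pow, div_le_iff₀ (by positivity), hcast]
      rw [hGn] at h1
      refine h1.trans ?_
      gcongr
      exact le_max_right _ _)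
    S ((T : ℝ) ^ (1 / 4 : ℝ)) hY (by
      intro d hd
      rw [hS, Finset.mem_filter] at hd
      exact ⟨hd.2.1, hd.2.2.1⟩)
  have hexp : ((T : ℝ) ^ (1 / 4 : ℝ)) ^ (-(1 / (16 * ((n - 1 : ℕ) : ℝ)))) =
      (T : ℝ) ^ (-(1 / (64 * ((n : ℝ) - 1)))) := by
    rw [← Real.rpow_mul (by positivity), hcast]
    congr 1
    field_simp
    norm_num
  rw [hexp] at hsum
  have hcardA : ((Finset.Icc (-((T : ℤ) ^ (n - 1))) ((T : ℤ) ^ (n - 1))).card : ℝ) =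
      2 * ((T : ℝ) ^ (n - 1)) + 1 := by
    rw [Int.card_Icc]
    have h1 : ((T : ℤ) ^ (n - 1) + 1 - -((T : ℤ) ^ (n - 1))).toNat = 2 * T ^ (n - 1) + 1 := by
      have h2 : ((T : ℤ) ^ (n - 1) + 1 - -((T : ℤ) ^ (n - 1))) =
          ((2 * T ^ (n - 1) + 1 : ℕ) : ℤ) := by push_cast; ring
      rw [h2, Int.toNat_natCast]
    rw [h1]; push_cast; ring
  have hcardB : ((Finset.Icc (-((T : ℤ) ^ n)) ((T : ℤ) ^ n)).card : ℝ) =
      2 * ((T : ℝ) ^ n) + 1 := by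
    rw [Int.card_Icc]
    have h1 : ((T : ℤ) ^ n + 1 - -((T : ℤ) ^ n)).toNat = 2 * T ^ n + 1 := by
      have h2 : ((T : ℤ) ^ n + 1 - -((T : ℤ) ^ n)) =
          ((2 * T ^ n + 1 : ℕ) : ℤ) := by push_cast; ring
      rw [h2, Int.toNat_natCast]
    rw [h1]; push_cast; ring
  rw [Finset.card_product, Nat.cast_mul, hcardA, hcardB]
  set a : ℝ := 2 * ((T : ℝ) ^ (n - 1)) + 1 with ha
  set b : ℝ := 2 * ((T : ℝ) ^ n) + 1 with hb
  -- union bound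
  have hsub : ((Finset.Icc (-((T : ℤ) ^ (n - 1))) ((T : ℤ) ^ (n - 1)) ×ˢ
          Finset.Icc (-((T : ℤ) ^ n)) ((T : ℤ) ^ n)).filter
        (fun z => ∃ d : ℕ, Squareful d ∧ (T : ℝ) ^ (1 / 4 : ℝ) ≤ d ∧
        (d : ℝ) ≤ (T : ℝ) ^ (1 / 2 : ℝ) ∧ (d : ℤ) ∣ (fxy G z.1 z.2).discr)) ⊆
      S.biUnion (fun d => (Finset.Icc (-(((T ^ (n - 1) : ℕ) : ℤ))) ((T ^ (n - 1) : ℕ) : ℤ) ×ˢ
        Finset.Icc (-((T ^ n : ℕ) : ℤ)) ((T ^ n : ℕ) : ℤ)).filter
          (fun z => (d : ℤ) ∣ (fxy G z.1 z.2).discr)) := by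
    intro z hz
    rw [Finset.mem_filter] at hz
    obtain ⟨hz1, d, hd1, hd2, hd3, hd4⟩ := hz
    rw [Finset.mem_biUnion]
    refine ⟨d, ?_, ?_⟩
    · rw [hS, Finset.mem_filter, Finset.mem_range]
      refine ⟨?_, hd1, hd2, hd3⟩
      have : (d : ℝ) ≤ T := hd3.trans hsqT
      have : d ≤ T := by exact_mod_cast this
      omega
    · rw [Finset.mem_filter]
      refine ⟨?_, hd4⟩
      push_cast
      exact hz1
  have hle : ∀ d ∈ S, (((Finset.Icc (-(((T ^ (n - 1) : ℕ) : ℤ))) ((T ^ (n - 1) : ℕ) : ℤ) ×ˢ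
        Finset.Icc (-((T ^ n : ℕ) : ℤ)) ((T ^ n : ℕ) : ℤ)).filter
          (fun z => (d : ℤ) ∣ (fxy G z.1 z.2).discr)).card : ℝ) ≤ 4 * a * b * F d := by
    intro d hd
    rw [hS, Finset.mem_filter] at hd
    obtain ⟨_, hsq, hd2, hd3⟩ := hd
    have hd0 : 0 < d := Nat.pos_of_ne_zero hsq.1
    have hd0' : (0 : ℝ) < d := by exact_mod_cast hd0
    have h1 := box_count G hG hG2 d hd0 (T ^ (n - 1)) (T ^ n)
    refine h1.trans ?_
    have hTn1 : (T : ℝ) ≤ (T : ℝ) ^ (n - 1) := by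
      calc (T : ℝ) = (T : ℝ) ^ 1 := (pow_one _).symm
        _ ≤ (T : ℝ) ^ (n - 1) := pow_le_pow_right₀ hT1 (by omega)
    have hTn : (T : ℝ) ≤ (T : ℝ) ^ n := by
      calc (T : ℝ) = (T : ℝ) ^ 1 := (pow_one _).symm
        _ ≤ (T : ℝ) ^ n := pow_le_pow_right₀ hT1 (by omega)
    have hdT : (d : ℝ) ≤ T := hd3.trans hsqT
    have hA1 : (2 * ((T ^ (n - 1) : ℕ) : ℝ) + 1) / d + 1 ≤ 2 * a / d := by
      push_cast
      rw [← ha]
      have : (1 : ℝ) ≤ a / d := by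
        rw [one_le_div hd0', ha]
        nlinarith
      have h2 : 2 * a / d = a / d + a / d := by ring
      rw [h2]
      linarith
    have hB1 : (2 * ((T ^ n : ℕ) : ℝ) + 1) / d + 1 ≤ 2 * b / d := by
      push_cast
      rw [← hb]
      have : (1 : ℝ) ≤ b / d := by
        rw [one_le_div hd0', hb]
        nlinarith
      have h2 : 2 * b / d = b / d + b / d := by ring
      rw [h2]
      linarith
    calc (rho G d : ℝ) * ((2 * ((T ^ (n - 1) : ℕ) : ℝ) + 1) / d + 1) *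
          ((2 * ((T ^ n : ℕ) : ℝ) + 1) / d + 1)
        ≤ (rho G d : ℝ) * (2 * a / d) * (2 * b / d) := by gcongr
      _ = 4 * a * b * F d := by
          rw [hF]
          simp only
          field_simp
          ring
  have hfin : (((Finset.Icc (-((T : ℤ) ^ (n - 1))) ((T : ℤ) ^ (n - 1)) ×ˢ
          Finset.Icc (-((T : ℤ) ^ n)) ((T : ℤ) ^ n)).filter
        (fun z => ∃ d : ℕ, Squareful d ∧ (T : ℝ) ^ (1 / 4 : ℝ) ≤ d ∧
        (d : ℝ) ≤ (T : ℝ) ^ (1 / 2 : ℝ) ∧ (d : ℤ) ∣ (fxy G z.1 z.2).discr)).card : ℝ) ≤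
      ∑ d ∈ S, 4 * a * b * F d := by
    refine le_trans ?_ (Finset.sum_le_sum hle)
    rw [← Nat.cast_sum]
    exact_mod_cast (Finset.card_le_card hsub).trans Finset.card_biUnion_le
  refine hfin.trans ?_
  rw [← Finset.mul_sum]
  have hab : 0 ≤ 4 * a * b := by rw [ha, hb]; positivity
  calc 4 * a * b * ∑ d ∈ S, F d ≤ 4 * a * b * (A₀ * (T : ℝ) ^ (-(1 / (64 * ((n : ℝ) - 1))))) :=
        mul_le_mul_of_nonneg_left hsum hab
    _ = 4 * A₀ * (T : ℝ) ^ (-(1 / (64 * ((n : ℝ) - 1)))) * (a * b) := by ring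

end SzC2
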