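import Pool.Agent.SzC2.CntA
import Pool.Agent.SzC2.CntB
import Pool.Agent.SzC2.CntC

/-!
The exceptional pairs `(x, y)` for a fixed `G`.
-/
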