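import Pool.Agent.SzC2.Defs

/-!
The discriminant of `G + y` as a polynomial in `y`.
-/

open Polynomial
open scoped Classical

namespace SzC2

/-- Over an algebraically closed field: disc (G + y) = (-1)^(n(n-1)/2) n^n prod (G(t) + y) over the
roots t of the derivative of G. -/
theorem discr_add_C {K : Type*} [Field K] [IsAlgClosed K] {G : K[X]} (hG : G.Monic)
    (hn : 2 ≤ G.natDegree) (hK : (G.natDegree : K) ≠ 0) (y : K) :
    (G + C y).discr = (-1) ^ (G.natDegree * (G.natDegree - 1) / 2) * (G.natDegree : K) ^ G.natDegree *
      (G.derivative.roots.map (fun t => G.eval t + y)).prod := by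
  have hd : (G + C y).natDegree = G.natDegree := natDegree_add_C
  have hm : (G + C y).Monic := by
    rw [Monic, leadingCoeff, hd, coeff_add, coeff_C, if_neg (by omega), add_zero]
    exact hG
  have hder : (G + C y).derivative = G.derivative := by simp
  have hcast : (((G.natDegree - 1 : ℕ) : K) + 1) = (G.natDegree : K) := by
    rw [← Nat.cast_succ]
    congr 1
    omega
  have hco : G.derivative.coeff (G.natDegree - 1) = (G.natDegree : K) := by
    rw [coeff_derivative, show G.natDegree - 1 + 1 = G.natDegree by omega, hG.coeff_natDegree,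
      one_mul, hcast]
  have hdd : G.derivative.natDegree = G.natDegree - 1 := by
    apply le_antisymm (natDegree_derivative_le G)
    apply le_natDegree_of_ne_zero
    rw [hco]
    exact hK
  have hlc : G.derivative.leadingCoeff = (G.natDegree : K) := by
    rw [leadingCoeff, hdd, hco]
  rw [SzSP.discr_eq hm (by omega), hder, resultant_comm,
    resultant_eq_prod_eval G.derivative (G + C y) _ le_rfl (IsAlgClosed.splits _), hd, hdd, hlc]
  have hev : Even (G.natDegree * (G.natDegree - 1)) := Nat.even_mul_pred_self _
  rw [hev.neg_one_pow, one_mul, mul_assoc]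
  congr 3
  simp

/-- The polynomial in `y` over the integers. -/
theorem exists_ypol {G : ℤ[X]} (hG : G.Monic) (hn : 2 ≤ G.natDegree) :
    ∃ P : ℤ[X], P.natDegree = G.natDegree - 1 ∧
      P.leadingCoeff = (-1) ^ (G.natDegree * (G.natDegree - 1) / 2) * (G.natDegree : ℤ) ^ G.natDegree ∧
      (∀ y : ℤ, (G + C y).discr = P.eval y) ∧
      ∀ (K : Type) [Field K] [IsAlgClosed K], (G.natDegree : K) ≠ 0 →
        P.map (Int.castRingHom K) =
          C ((-1) ^ (G.natDegree * (G.natDegree - 1) / 2) * (G.natDegree : K) ^ G.natDegree) *
            (((G.map (Int.castRingHom K)).derivative.roots.map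
              (fun t => X + C ((G.map (Int.castRingHom K)).eval t))).prod) := by
  set F : ℤ[X][X] := G.map C + C X with hF
  have hGm : (G.map (C : ℤ →+* ℤ[X])).Monic := hG.map _
  have hGd : (G.map (C : ℤ →+* ℤ[X])).natDegree = G.natDegree := hG.natDegree_map _
  have hFd : F.natDegree = G.natDegree := by rw [hF, natDegree_add_C, hGd]
  have hFm : F.Monic := by
    rw [Monic, leadingCoeff, hFd, hF, coeff_add, coeff_C, if_neg (by omega), add_zero, ← hGd]
    exact hGm
  have key : ∀ (K : Type) [Field K] [IsAlgClosed K], (G.natDegree : K) ≠ 0 →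
      F.discr.map (Int.castRingHom K) =
        C ((-1) ^ (G.natDegree * (G.natDegree - 1) / 2) * (G.natDegree : K) ^ G.natDegree) *
          (((G.map (Int.castRingHom K)).derivative.roots.map
            (fun t => X + C ((G.map (Int.castRingHom K)).eval t))).prod) := by
    intro K _ _ hK
    have : Infinite K := IsAlgClosed.instInfinite
    apply Polynomial.funext
    intro y
    have e1 : (F.discr.map (Int.castRingHom K)).eval y =
        (eval₂RingHom (Int.castRingHom K) y) F.discr := by
      rw [eval_map]
      rfl
    have e2 : F.map (eval₂RingHom (Int.castRingHom K) y) = G.map (Int.castRingHom K) + C y := by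
      rw [hF, Polynomial.map_add, Polynomial.map_map, map_C]
      congr 2
      · exact RingHom.ext_int _ _
      · exact eval₂_X (Int.castRingHom K) y
    have hmd : (G.map (Int.castRingHom K)).natDegree = G.natDegree := hG.natDegree_map _
    rw [e1, ← SzSP.discr_map _ hFm, e2, discr_add_C (hG.map _) (by rw [hmd]; exact hn)
      (by rw [hmd]; exact hK), hmd, eval_mul, eval_C, eval_multiset_prod, Multiset.map_map]
    congr 2
    apply Multiset.map_congr rfl
    intro t _
    simp [add_comm]
  refine ⟨F.discr, ?_, ?_, ?_, key⟩
  · have hK : (G.natDegree : AlgebraicClosure ℚ) ≠ 0 := by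
      rw [Nat.cast_ne_zero]
      omega
    have h1 := key (AlgebraicClosure ℚ) hK
    have hinj : Function.Injective (Int.castRingHom (AlgebraicClosure ℚ)) :=
      RingHom.injective_int _
    have hmd : (G.map (Int.castRingHom (AlgebraicClosure ℚ))).natDegree = G.natDegree :=
      hG.natDegree_map _
    have hc : ((-1) ^ (G.natDegree * (G.natDegree - 1) / 2) *
        (G.natDegree : AlgebraicClosure ℚ) ^ G.natDegree) ≠ 0 :=
      mul_ne_zero (pow_ne_zero _ (by simp)) (pow_ne_zero _ hK)
    have hcard : Multiset.card (G.map (Int.castRingHom (AlgebraicClosure ℚ))).derivative.roots =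
        G.natDegree - 1 := by
      have h2 := (IsAlgClosed.splits (G.map (Int.castRingHom
        (AlgebraicClosure ℚ))).derivative).natDegree_eq_card_roots
      rw [← h2, natDegree_derivative, hmd]
    rw [← natDegree_map_eq_of_injective hinj, h1, natDegree_C_mul hc,
      natDegree_multiset_prod_of_monic, Multiset.map_map]
    · rw [← hcard]
      simp
    · intro f hf
      rw [Multiset.mem_map] at hf
      obtain ⟨t, _, rfl⟩ := hf
      exact monic_X_add_C _
  · have hK : (G.natDegree : AlgebraicClosure ℚ) ≠ 0 := by
      rw [Nat.cast_ne_zero]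
      omega
    have h1 := key (AlgebraicClosure ℚ) hK
    have hinj : Function.Injective (Int.castRingHom (AlgebraicClosure ℚ)) :=
      RingHom.injective_int _
    apply hinj
    rw [← leadingCoeff_map_of_injective hinj, h1, leadingCoeff_mul, leadingCoeff_C,
      (monic_multiset_prod_of_monic _ _ (fun t _ => monic_X_add_C _)).leadingCoeff, mul_one]
    simp
  · intro y
    have e1 : F.discr.eval y = (evalRingHom y) F.discr := rfl
    have e2 : F.map (evalRingHom y) = G + C y := by
      rw [hF, Polynomial.map_add, Polynomial.map_map, map_C]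
      congr 2
      · have : (evalRingHom y).comp (C : ℤ →+* ℤ[X]) = RingHom.id ℤ := by
          exact RingHom.ext_int _ _
        rw [this, Polynomial.map_id]
      · simp
    rw [e1, ← SzSP.discr_map _ hFm, e2]

end SzC2
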