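import Pool.Agent.SzC2.Cls
import Pool.Agent.SzC2.Ypol

/-!
Pairs `(x, y)` such that the discriminant of `G + x X + y` is small.
-/

open Polynomial
open scoped Classical

namespace SzC2

theorem monic_add_CX {G : ℤ[X]} (hG : G.Monic) (hn : 3 ≤ G.natDegree) (x : ℤ) :
    (G + C x * X).Monic ∧ (G + C x * X).natDegree = G.natDegree := by
  have hd : (C x * X : ℤ[X]).degree < G.degree := by
    refine lt_of_le_of_lt (Polynomial.degree_C_mul_X_le x) ?_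
    rw [Polynomial.degree_eq_natDegree hG.ne_zero]
    exact_mod_cast (by omega : 1 < G.natDegree)
  exact ⟨hG.add_of_left hd, Polynomial.natDegree_add_eq_left_of_degree_lt hd⟩

/-- for fixed `x` -/
theorem low_fixed {G : ℤ[X]} (hG : G.Monic) {n : ℕ} (hn : 3 ≤ n) (hGn : G.natDegree = n) (x : ℤ)
    (η : ℝ) (hη : 0 ≤ η) (I : Finset ℤ) :
    ((I.filter (fun y => |(((fxy G x y).discr : ℤ) : ℝ)| ≤ η ^ (n - 1))).card : ℝ)
      ≤ n * (2 * η + 1) := by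
  obtain ⟨h1, h2⟩ := monic_add_CX hG (by omega) x
  obtain ⟨P, hP1, hP2, hP3, -⟩ := exists_ypol h1 (by omega)
  rw [h2, hGn] at hP1 hP2
  have hP0 : P ≠ 0 := by
    rintro rfl
    rw [Polynomial.natDegree_zero] at hP1
    omega
  have h3 := low_count P hP0 η hη I
  rw [hP1] at h3
  have h4 : I.filter (fun y => |(((fxy G x y).discr : ℤ) : ℝ)| ≤ η ^ (n - 1)) =
      I.filter (fun y => |((P.eval y : ℤ) : ℝ)| ≤ η ^ (n - 1) ∧ 1 ≤ n - 1) := by
    refine Finset.filter_congr fun y _ => ?_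
    rw [← hP3 y]
    exact ⟨fun h => ⟨h, by omega⟩, fun h => h.1⟩
  rw [h4]
  refine h3.trans ?_
  have h5 : ((n - 1 : ℕ) : ℝ) ≤ n := by exact_mod_cast Nat.sub_le n 1
  exact mul_le_mul_of_nonneg_right h5 (by positivity)

theorem low_pairs_aux (n : ℕ) (hn : 3 ≤ n) : ∃ A : ℝ, ∀ G : ℤ[X], G.Monic → G.natDegree = n →
    ∀ T : ℕ, 1 ≤ T →
      (((Finset.Icc (-((T : ℤ) ^ (n - 1))) ((T : ℤ) ^ (n - 1)) ×ˢ
          Finset.Icc (-((T : ℤ) ^ n)) ((T : ℤ) ^ n)).filter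
            (fun z => |(((fxy G z.1 z.2).discr : ℤ) : ℝ)| ≤
        (T : ℝ) ^ ((n : ℝ) * (n - 1) - 1 / 2))).card : ℝ)
        ≤ A * (T : ℝ) ^ (-(1 / (2 * ((n : ℝ) - 1)))) *
          (Finset.Icc (-((T : ℤ) ^ (n - 1))) ((T : ℤ) ^ (n - 1)) ×ˢ
          Finset.Icc (-((T : ℤ) ^ n)) ((T : ℤ) ^ n)).card := by
  have hn3 : (3 : ℝ) ≤ n := by exact_mod_cast hn
  have hn1 : (0 : ℝ) < (n : ℝ) - 1 := by linarith
  refine ⟨2 * n, fun G hG hGn T hT => ?_⟩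
  have hT1 : (1 : ℝ) ≤ T := by exact_mod_cast hT
  have hT0 : (0 : ℝ) < T := by linarith
  set θ : ℝ := 1 / (2 * ((n : ℝ) - 1)) with hθ
  have hθ0 : 0 < θ := by positivity
  have hθ1 : θ ≤ 1 := by
    rw [hθ, div_le_one (by positivity)]
    linarith
  set η : ℝ := (T : ℝ) ^ ((n : ℝ) - θ) with hη
  have hη1 : 1 ≤ η := Real.one_le_rpow hT1 (by linarith)
  have hpow : η ^ (n - 1) = (T : ℝ) ^ ((n : ℝ) * (n - 1) - 1 / 2) := by
    rw [hη, ← Real.rpow_natCast, ← Real.rpow_mul hT0.le]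
    congr 1
    rw [Nat.cast_sub (by omega), Nat.cast_one, sub_mul, hθ]
    field_simp
  have hηT : η = (T : ℝ) ^ n * (T : ℝ) ^ (-θ) := by
    rw [hη, sub_eq_add_neg, Real.rpow_add hT0, Real.rpow_natCast]
  set X1 : Finset ℤ := Finset.Icc (-((T : ℤ) ^ (n - 1))) ((T : ℤ) ^ (n - 1)) with hX1
  set Y1 : Finset ℤ := Finset.Icc (-((T : ℤ) ^ n)) ((T : ℤ) ^ n) with hY1
  have hYc : 2 * (T : ℝ) ^ n ≤ (Y1.card : ℝ) := by
    rw [hY1, Int.card_Icc]
    have h1 : (0 : ℤ) ≤ (T : ℤ) ^ n := by positivity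
    have h2 : (((T : ℤ) ^ n + 1 - -(T : ℤ) ^ n).toNat : ℤ) = (T : ℤ) ^ n + 1 - -(T : ℤ) ^ n :=
      Int.toNat_of_nonneg (by linarith)
    have h3 : (((T : ℤ) ^ n + 1 - -(T : ℤ) ^ n).toNat : ℝ) = (T : ℝ) ^ n + 1 + (T : ℝ) ^ n := by
      have := congrArg (Int.cast : ℤ → ℝ) h2
      push_cast at this
      rw [this]
      ring
    rw [h3]
    linarith
  have hsum : (((X1 ×ˢ Y1).filter (fun z => |(((fxy G z.1 z.2).discr : ℤ) : ℝ)| ≤
        (T : ℝ) ^ ((n : ℝ) * (n - 1) - 1 / 2))).card : ℝ) =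
      ∑ x ∈ X1, ((Y1.filter (fun y => |(((fxy G x y).discr : ℤ) : ℝ)| ≤ η ^ (n - 1))).card : ℝ) := by
    rw [Finset.card_filter, Finset.sum_product, Nat.cast_sum]
    refine Finset.sum_congr rfl fun x _ => ?_
    rw [Finset.card_filter, hpow]
  rw [hsum]
  calc ∑ x ∈ X1, ((Y1.filter (fun y => |(((fxy G x y).discr : ℤ) : ℝ)| ≤ η ^ (n - 1))).card : ℝ)
      ≤ ∑ _x ∈ X1, (n : ℝ) * (2 * η + 1) :=
        Finset.sum_le_sum fun x _ => low_fixed hG hn hGn x η (by linarith) Y1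
    _ = (X1.card : ℝ) * (n * (2 * η + 1)) := by rw [Finset.sum_const, nsmul_eq_mul]
    _ ≤ (X1.card : ℝ) * (n * (3 * η)) := by
        refine mul_le_mul_of_nonneg_left ?_ (by positivity)
        refine mul_le_mul_of_nonneg_left ?_ (by positivity)
        linarith
    _ ≤ 2 * n * (T : ℝ) ^ (-θ) * ((X1 ×ˢ Y1).card : ℝ) := by
        rw [Finset.card_product, Nat.cast_mul, hηT]
        have h6 : 0 ≤ (T : ℝ) ^ (-θ) := by positivity
        have h7 : (X1.card : ℝ) * (n * (3 * ((T : ℝ) ^ n * (T : ℝ) ^ (-θ)))) =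
            (X1.card : ℝ) * n * (T : ℝ) ^ (-θ) * (3 * (T : ℝ) ^ n) := by ring
        have h8 : 2 * (n : ℝ) * (T : ℝ) ^ (-θ) * ((X1.card : ℝ) * (Y1.card : ℝ)) =
            (X1.card : ℝ) * n * (T : ℝ) ^ (-θ) * (2 * (Y1.card : ℝ)) := by ring
        rw [h7, h8]
        refine mul_le_mul_of_nonneg_left ?_ (by positivity)
        have h9 : (0 : ℝ) ≤ (T : ℝ) ^ n := by positivity
        linarith

end SzC2
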