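import Pool.Agent.SzSP.Disc

/-!
Discriminants with a square factor: definitions.

`G` is a monic polynomial with integral coefficients, `fxy G x y = G + x X + y`.
-/

open Polynomial
open scoped Classical

namespace SzC2

/-- `G + x X + y` -/
noncomputable def fxy (G : ℤ[X]) (x y : ℤ) : ℤ[X] := G + C x * X + C y

/-- a double root modulo `p` which is a root modulo `p^2` -/
def Weak (p : ℕ) (f : ℤ[X]) : Prop :=
  ∃ r : ℤ, (p : ℤ) ^ 2 ∣ f.eval r ∧ (p : ℤ) ∣ f.derivative.eval r

/-- reduction modulo `p`, over an algebraic closure of the prime field -/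
noncomputable def red (p : ℕ) [Fact p.Prime] (f : ℤ[X]) : (AlgebraicClosure (ZMod p))[X] :=
  f.map (Int.castRingHom (AlgebraicClosure (ZMod p)))

/-- two double roots or a triple root modulo `p` -/
def Strong (p : ℕ) [Fact p.Prime] (f : ℤ[X]) : Prop :=
  ∃ r s : AlgebraicClosure (ZMod p),
    (r ≠ s ∧ (X - C r) ^ 2 ∣ red p f ∧ (X - C s) ^ 2 ∣ red p f) ∨ (X - C r) ^ 3 ∣ red p f

/-- number of the pairs `(x, y)` modulo `d` such that `d` divides the discriminant of
`G + x X + y` -/
noncomputable def rho (G : ℤ[X]) (d : ℕ) : ℕ :=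
  Nat.card {z : ZMod d × ZMod d //
    (G.map (Int.castRingHom (ZMod d)) + C z.1 * X + C z.2).discr = 0}

/-- all prime factors have exponent at least two -/
def Squareful (d : ℕ) : Prop := d ≠ 0 ∧ ∀ p : ℕ, p.Prime → p ∣ d → p ^ 2 ∣ d

/-- The product of the primes `p` not dividing `m` whose exponent in the discriminant of `f` is
not a multiple of `n (n - 1)`, `n = deg f`. -/
noncomputable def badPart (m : ℕ) (f : ℤ[X]) : ℕ :=
  ∏ p ∈ f.discr.natAbs.primeFactors with
    (¬ p ∣ m ∧ ¬ (f.natDegree * (f.natDegree - 1)) ∣ f.discr.natAbs.factorization p), p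

end SzC2
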