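import Pool.Agent.SzC2.Euler

/-!
Deterministic part: a large discriminant without large square factors has a large bad part.
-/

open Polynomial
open scoped Classical

namespace SzC2

/-- the squareful part is small -/
theorem squareful_small (D T : ℕ) (hD : D ≠ 0) (hT : 2 ^ 16 ≤ T)
    (h3 : ∀ p : ℕ, p.Prime → p ∣ D → p ^ 2 ∣ D → (p : ℝ) ≤ (T : ℝ) ^ (1 / 16 : ℝ))
    (h4 : ¬ ∃ d : ℕ, Squareful d ∧ (T : ℝ) ^ (1 / 4 : ℝ) ≤ d ∧ (d : ℝ) ≤ (T : ℝ) ^ (1 / 2 : ℝ) ∧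
        d ∣ D) :
    ((∏ p ∈ D.primeFactors with (p ^ 2 ∣ D), p ^ (D.factorization p) : ℕ) : ℝ)
      < (T : ℝ) ^ (1 / 4 : ℝ) := by
  have hT1 : (1 : ℝ) ≤ T := by
    have : 1 ≤ T := le_trans (by norm_num) hT
    exact_mod_cast this
  have hT0 : (0 : ℝ) < T := by linarith
  set z : ℕ := ⌊(T : ℝ) ^ (1 / 16 : ℝ)⌋₊ with hz
  set Y : ℕ := ⌈(T : ℝ) ^ (1 / 4 : ℝ)⌉₊ with hY
  have hT16 : (2 : ℝ) ^ (16 : ℕ) ≤ T := by exact_mod_cast hT
  have hz2 : 2 ≤ z := by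
    rw [hz, Nat.le_floor_iff (by positivity)]
    have h : ((2 : ℝ) ^ (16 : ℕ)) ^ (1 / 16 : ℝ) ≤ (T : ℝ) ^ (1 / 16 : ℝ) :=
      Real.rpow_le_rpow (by positivity) hT16 (by norm_num)
    rw [← Real.rpow_natCast, ← Real.rpow_mul (by norm_num)] at h
    norm_num at h
    exact_mod_cast h
  have h8 : (2 : ℝ) ≤ (T : ℝ) ^ (1 / 8 : ℝ) := by
    have h : ((2 : ℝ) ^ (8 : ℕ)) ^ (1 / 8 : ℝ) ≤ (T : ℝ) ^ (1 / 8 : ℝ) :=
      Real.rpow_le_rpow (by positivity) (le_trans (by norm_num) hT16) (by norm_num)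
    rw [← Real.rpow_natCast, ← Real.rpow_mul (by norm_num)] at h
    norm_num at h
    exact_mod_cast h
  have h14 : (1 : ℝ) ≤ (T : ℝ) ^ (1 / 4 : ℝ) := Real.one_le_rpow hT1 (by norm_num)
  have hY1 : 1 ≤ Y := by
    rw [hY, Nat.one_le_ceil_iff]; linarith
  have hYle : (Y : ℝ) ≤ 2 * (T : ℝ) ^ (1 / 4 : ℝ) := by
    have := Nat.ceil_lt_add_one (show (0 : ℝ) ≤ (T : ℝ) ^ (1 / 4 : ℝ) by positivity)
    rw [← hY] at this; linarith
  have hzle : (z : ℝ) ≤ (T : ℝ) ^ (1 / 16 : ℝ) := Nat.floor_le (by positivity)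
  have hset : (D.primeFactors.filter (fun p => p ^ 2 ∣ D)) =
      (D.primeFactors.filter (fun p => p ≤ z ∧ p ^ 2 ∣ D)) := by
    apply Finset.filter_congr
    intro p hp
    constructor
    · intro h
      refine ⟨?_, h⟩
      exact Nat.le_floor (h3 p (Nat.prime_of_mem_primeFactors hp)
        (Nat.dvd_of_mem_primeFactors hp) h)
    · exact fun h => h.2
  rw [hset]
  by_contra hcon
  push Not at hcon
  have hYW : Y ≤ ∏ p ∈ D.primeFactors with (p ≤ z ∧ p ^ 2 ∣ D), p ^ (D.factorization p) := by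
    rw [hY]; exact Nat.ceil_le.2 hcon
  obtain ⟨d, hdD, hsq, hd1, hd2⟩ := chain D hD z Y hz2 hY1 hYW
  apply h4
  refine ⟨d, hsq, ?_, ?_, hdD⟩
  · exact le_trans (Nat.le_ceil _) (by exact_mod_cast hd1)
  · have h : (d : ℝ) ≤ Y * (z : ℝ) ^ 2 := by exact_mod_cast hd2
    have hz' : (z : ℝ) ^ 2 ≤ (T : ℝ) ^ (1 / 8 : ℝ) := by
      calc (z : ℝ) ^ 2 ≤ ((T : ℝ) ^ (1 / 16 : ℝ)) ^ 2 := by gcongr
        _ = (T : ℝ) ^ (1 / 8 : ℝ) := by
            rw [← Real.rpow_natCast, ← Real.rpow_mul hT0.le]; norm_num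
    calc (d : ℝ) ≤ Y * (z : ℝ) ^ 2 := h
      _ ≤ (2 * (T : ℝ) ^ (1 / 4 : ℝ)) * (T : ℝ) ^ (1 / 8 : ℝ) := by gcongr
      _ ≤ ((T : ℝ) ^ (1 / 8 : ℝ) * (T : ℝ) ^ (1 / 4 : ℝ)) * (T : ℝ) ^ (1 / 8 : ℝ) := by gcongr
      _ = (T : ℝ) ^ (1 / 2 : ℝ) := by
          rw [← Real.rpow_add hT0, ← Real.rpow_add hT0]; norm_num

/-- splitting of the factorization -/
theorem split_le (m D N : ℕ) (hm : 1 ≤ m) (hN : 2 ≤ N) (hD : D ≠ 0) :
    D ≤ (∏ p ∈ D.primeFactors with (p ^ 2 ∣ D), p ^ (D.factorization p)) *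
      (m * ∏ p ∈ D.primeFactors with (¬ p ∣ m ∧ ¬ N ∣ D.factorization p), p) := by
  have h1 : D = (∏ p ∈ D.primeFactors with (p ^ 2 ∣ D), p ^ (D.factorization p)) *
      (∏ p ∈ D.primeFactors with (¬ p ^ 2 ∣ D), p ^ (D.factorization p)) := by
    rw [Finset.prod_filter_mul_prod_filter_not]
    exact Nat.prod_primeFactors_pow_factorization hD
  have hone : ∀ p ∈ D.primeFactors.filter (fun p => ¬ p ^ 2 ∣ D), D.factorization p = 1 := by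
    intro p hp
    rw [Finset.mem_filter] at hp
    have hpp := Nat.prime_of_mem_primeFactors hp.1
    have h1 : 1 ≤ D.factorization p :=
      (hpp.dvd_iff_one_le_factorization hD).1 (Nat.dvd_of_mem_primeFactors hp.1)
    have h2 : ¬ 2 ≤ D.factorization p := by
      intro h
      exact hp.2 ((hpp.pow_dvd_iff_le_factorization hD).2 h)
    omega
  have h2 : (∏ p ∈ D.primeFactors with (¬ p ^ 2 ∣ D), p ^ (D.factorization p)) =
      ∏ p ∈ D.primeFactors with (¬ p ^ 2 ∣ D), p := by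
    apply Finset.prod_congr rfl
    intro p hp
    rw [hone p hp, pow_one]
  have h3 : (∏ p ∈ D.primeFactors with (¬ p ^ 2 ∣ D), p) =
      (∏ p ∈ (D.primeFactors.filter (fun p => ¬ p ^ 2 ∣ D)).filter (fun p => p ∣ m), p) *
      (∏ p ∈ (D.primeFactors.filter (fun p => ¬ p ^ 2 ∣ D)).filter (fun p => ¬ p ∣ m), p) := by
    rw [Finset.prod_filter_mul_prod_filter_not]
  have h4 : (∏ p ∈ (D.primeFactors.filter (fun p => ¬ p ^ 2 ∣ D)).filter (fun p => p ∣ m), p)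
      ≤ m := by
    apply Nat.le_of_dvd (by omega)
    have h5 : (∏ p ∈ (D.primeFactors.filter (fun p => ¬ p ^ 2 ∣ D)).filter (fun p => p ∣ m), p) ∣
        ∏ p ∈ m.primeFactors, p := by
      apply Finset.prod_dvd_prod_of_subset
      intro p hp
      rw [Finset.mem_filter, Finset.mem_filter] at hp
      exact Nat.mem_primeFactors.2 ⟨Nat.prime_of_mem_primeFactors hp.1.1, hp.2, by omega⟩
    exact h5.trans (Nat.prod_primeFactors_dvd m)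
  have h6 : (∏ p ∈ (D.primeFactors.filter (fun p => ¬ p ^ 2 ∣ D)).filter (fun p => ¬ p ∣ m), p)
      ≤ ∏ p ∈ D.primeFactors with (¬ p ∣ m ∧ ¬ N ∣ D.factorization p), p := by
    apply Finset.prod_le_prod_of_subset_of_one_le'
    · intro p hp
      have hp' := hp
      rw [Finset.mem_filter] at hp
      have h7 := hone p hp.1
      rw [Finset.mem_filter] at hp
      rw [Finset.mem_filter]
      refine ⟨hp.1.1, hp.2, ?_⟩
      rw [h7]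
      intro h
      have := Nat.le_of_dvd one_pos h
      omega
    · intro p hp _
      rw [Finset.mem_filter] at hp
      exact (Nat.prime_of_mem_primeFactors hp.1).one_le
  calc D = (∏ p ∈ D.primeFactors with (p ^ 2 ∣ D), p ^ (D.factorization p)) *
      (∏ p ∈ D.primeFactors with (¬ p ^ 2 ∣ D), p ^ (D.factorization p)) := h1
    _ ≤ _ := by
      rw [h2, h3]
      gcongr

/-- case of a very large prime factor -/
theorem big_prime (m n : ℕ) (hm : 1 ≤ m) (hn : 3 ≤ n) (δ : ℝ) (h0 : 0 < δ) (h1 : δ ≤ 1 / 2)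
    (D T : ℕ) (hD : D ≠ 0) (hTm : m ≤ T) (hT4 : 4 ^ (n * n) ≤ T)
    (hup : (D : ℝ) ≤ (4 * (T : ℝ)) ^ (n * n)) (p : ℕ) (hp : p.Prime) (hpD : p ∣ D)
    (hpT : (T : ℝ) ^ ((n : ℝ) - δ) < p) :
    p ∣ ∏ p ∈ D.primeFactors with (¬ p ∣ m ∧ ¬ (n * (n - 1)) ∣ D.factorization p), p := by
  have hT1' : 1 ≤ T := le_trans hm hTm
  have hT1 : (1 : ℝ) ≤ T := by exact_mod_cast hT1'
  have hT0 : (0 : ℝ) < T := by linarith
  have hn' : (3 : ℝ) ≤ n := by exact_mod_cast hn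
  apply Finset.dvd_prod_of_mem (fun p => p)
  rw [Finset.mem_filter]
  refine ⟨Nat.mem_primeFactors.2 ⟨hp, hpD, hD⟩, ?_, ?_⟩
  · intro h
    have h2 : p ≤ m := Nat.le_of_dvd (by omega) h
    have h3 : (T : ℝ) ^ (1 : ℝ) ≤ (T : ℝ) ^ ((n : ℝ) - δ) :=
      Real.rpow_le_rpow_of_exponent_le hT1 (by linarith)
    rw [Real.rpow_one] at h3
    have h4 : (p : ℝ) ≤ m := by exact_mod_cast h2
    have h5 : (m : ℝ) ≤ T := by exact_mod_cast hTm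
    linarith
  · intro h
    have h2 : 1 ≤ D.factorization p := (hp.dvd_iff_one_le_factorization hD).1 hpD
    have h3 : n * (n - 1) ≤ D.factorization p := Nat.le_of_dvd (by omega) h
    have h4 : n + 1 ≤ n * (n - 1) := by
      obtain ⟨k, rfl⟩ : ∃ k, n = k + 3 := ⟨n - 3, by omega⟩
      have : k + 3 - 1 = k + 2 := by omega
      rw [this]; nlinarith
    have h5 : p ^ (n + 1) ∣ D := (hp.pow_dvd_iff_le_factorization hD).2 (h4.trans h3)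
    have h6 : p ^ (n + 1) ≤ D := Nat.le_of_dvd (Nat.pos_of_ne_zero hD) h5
    have h7 : (p : ℝ) ^ (n + 1) ≤ (4 * (T : ℝ)) ^ (n * n) := le_trans (by exact_mod_cast h6) hup
    have h8 : ((T : ℝ) ^ ((n : ℝ) - δ)) ^ (n + 1) < (p : ℝ) ^ (n + 1) := by
      gcongr
    have h9 : ((T : ℝ) ^ ((n : ℝ) - δ)) ^ (n + 1) = (T : ℝ) ^ (((n : ℝ) - δ) * ((n : ℝ) + 1)) := by
      rw [← Real.rpow_natCast, ← Real.rpow_mul hT0.le]
      push_cast
      rfl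
    have h10 : (4 * (T : ℝ)) ^ (n * n) ≤ (T : ℝ) ^ ((n : ℝ) * n + 1) := by
      rw [mul_pow, Real.rpow_add hT0, Real.rpow_one, mul_comm]
      have h11 : (T : ℝ) ^ ((n : ℝ) * n) = (T : ℝ) ^ (n * n) := by
        rw [← Real.rpow_natCast]; push_cast; rfl
      rw [h11]
      gcongr
      exact_mod_cast hT4
    have h12 : (T : ℝ) ^ ((n : ℝ) * n + 1) ≤ (T : ℝ) ^ (((n : ℝ) - δ) * ((n : ℝ) + 1)) := by
      apply Real.rpow_le_rpow_of_exponent_le hT1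
      nlinarith
    linarith

theorem det_nat (m n : ℕ) (hm : 1 ≤ m) (hn : 3 ≤ n) (δ : ℝ) (h0 : 0 < δ) (h1 : δ ≤ 1 / 2)
    (D T : ℕ) (hD : D ≠ 0) (hTm : m ≤ T) (hT4 : 4 ^ (n * n) ≤ T) (hT16 : 2 ^ 16 ≤ T)
    (hup : (D : ℝ) ≤ (4 * (T : ℝ)) ^ (n * n))
    (hlow : (T : ℝ) ^ ((n : ℝ) * (n - 1) - 1 / 2) < D)
    (h3 : ¬ ∃ p : ℕ, p.Prime ∧ (T : ℝ) ^ (1 / 16 : ℝ) < p ∧ (p : ℝ) ≤ (T : ℝ) ^ ((n : ℝ) - δ) ∧
        p ^ 2 ∣ D)
    (h4 : ¬ ∃ d : ℕ, Squareful d ∧ (T : ℝ) ^ (1 / 4 : ℝ) ≤ d ∧ (d : ℝ) ≤ (T : ℝ) ^ (1 / 2 : ℝ) ∧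
        d ∣ D) :
    (T : ℝ) ^ ((n : ℝ) - δ) ≤
      m * (∏ p ∈ D.primeFactors with (¬ p ∣ m ∧ ¬ (n * (n - 1)) ∣ D.factorization p), p : ℕ) := by
  have hT1' : 1 ≤ T := le_trans hm hTm
  have hT1 : (1 : ℝ) ≤ T := by exact_mod_cast hT1'
  have hT0 : (0 : ℝ) < T := by linarith
  have hn' : (3 : ℝ) ≤ n := by exact_mod_cast hn
  have hm' : (1 : ℝ) ≤ m := by exact_mod_cast hm
  have hBpos : 0 < ∏ p ∈ D.primeFactors with
      (¬ p ∣ m ∧ ¬ (n * (n - 1)) ∣ D.factorization p), p := by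
    apply Finset.prod_pos
    intro p hp
    rw [Finset.mem_filter] at hp
    exact (Nat.prime_of_mem_primeFactors hp.1).pos
  set B : ℕ := ∏ p ∈ D.primeFactors with
      (¬ p ∣ m ∧ ¬ (n * (n - 1)) ∣ D.factorization p), p with hB
  by_cases hbig : ∃ p : ℕ, p.Prime ∧ p ∣ D ∧ (T : ℝ) ^ ((n : ℝ) - δ) < p
  · obtain ⟨p, hp, hpD, hpT⟩ := hbig
    have h := big_prime m n hm hn δ h0 h1 D T hD hTm hT4 hup p hp hpD hpT
    rw [← hB] at h
    have h2 : (p : ℝ) ≤ B := by exact_mod_cast Nat.le_of_dvd hBpos h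
    nlinarith
  · push Not at hbig
    have hW := squareful_small D T hD hT16 (fun p hp hpD hp2 => by
      by_contra hcon
      push Not at hcon
      exact h3 ⟨p, hp, hcon, hbig p hp hpD, hp2⟩) h4
    have hN : 2 ≤ n * (n - 1) := by
      obtain ⟨k, rfl⟩ : ∃ k, n = k + 3 := ⟨n - 3, by omega⟩
      have : k + 3 - 1 = k + 2 := by omega
      rw [this]; nlinarith
    have hs := split_le m D (n * (n - 1)) hm hN hD
    rw [← hB] at hs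
    set W : ℕ := ∏ p ∈ D.primeFactors with (p ^ 2 ∣ D), p ^ (D.factorization p) with hWdef
    have hs' : (D : ℝ) ≤ W * (m * B) := by exact_mod_cast hs
    have hmB : (0 : ℝ) < m * B := by
      have : (0 : ℝ) < B := by exact_mod_cast hBpos
      positivity
    have h5 : (T : ℝ) ^ ((n : ℝ) * (n - 1) - 1 / 2) < (T : ℝ) ^ (1 / 4 : ℝ) * (m * B) := by
      calc (T : ℝ) ^ ((n : ℝ) * (n - 1) - 1 / 2) < D := hlow
        _ ≤ W * (m * B) := hs'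
        _ ≤ (T : ℝ) ^ (1 / 4 : ℝ) * (m * B) := by gcongr
    have h6 : (T : ℝ) ^ (1 / 4 : ℝ) * (T : ℝ) ^ ((n : ℝ) - δ) ≤
        (T : ℝ) ^ ((n : ℝ) * (n - 1) - 1 / 2) := by
      rw [← Real.rpow_add hT0]
      apply Real.rpow_le_rpow_of_exponent_le hT1
      nlinarith
    have h7 : (T : ℝ) ^ (1 / 4 : ℝ) * (T : ℝ) ^ ((n : ℝ) - δ) <
        (T : ℝ) ^ (1 / 4 : ℝ) * (m * B) := lt_of_le_of_lt h6 h5
    exact (lt_of_mul_lt_mul_left h7 (by positivity)).le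

theorem det_part (m n : ℕ) (hm : 1 ≤ m) (hn : 3 ≤ n) (δ : ℝ) (h0 : 0 < δ) (h1 : δ ≤ 1 / 2) :
    ∃ T0 : ℕ, ∀ (f : ℤ[X]) (T : ℕ), f.natDegree = n → T0 ≤ T →
      |((f.discr : ℤ) : ℝ)| ≤ (4 * (T : ℝ)) ^ (n * n) →
      (T : ℝ) ^ ((n : ℝ) * (n - 1) - 1 / 2) < |((f.discr : ℤ) : ℝ)| →
      (¬ ∃ p : ℕ, p.Prime ∧ (T : ℝ) ^ (1 / 16 : ℝ) < p ∧ (p : ℝ) ≤ (T : ℝ) ^ ((n : ℝ) - δ) ∧
        (p : ℤ) ^ 2 ∣ f.discr) →
      (¬ ∃ d : ℕ, Squareful d ∧ (T : ℝ) ^ (1 / 4 : ℝ) ≤ d ∧ (d : ℝ) ≤ (T : ℝ) ^ (1 / 2 : ℝ) ∧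
        (d : ℤ) ∣ f.discr) →
      (T : ℝ) ^ ((n : ℝ) - δ) ≤ m * badPart m f := by
  refine ⟨max (max m (4 ^ (n * n))) (2 ^ 16), ?_⟩
  intro f T hf hT hup hlow h3 h4
  have hTm : m ≤ T := le_trans (le_trans (le_max_left _ _) (le_max_left _ _)) hT
  have hT4 : 4 ^ (n * n) ≤ T := le_trans (le_trans (le_max_right _ _) (le_max_left _ _)) hT
  have hT16 : 2 ^ 16 ≤ T := le_trans (le_max_right _ _) hT
  have habs : |((f.discr : ℤ) : ℝ)| = ((f.discr.natAbs : ℕ) : ℝ) := by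
    rw [Nat.cast_natAbs]; push_cast; rfl
  rw [habs] at hup hlow
  have hD : f.discr.natAbs ≠ 0 := by
    intro h
    rw [h] at hlow
    have h5 : (0 : ℝ) ≤ (T : ℝ) ^ ((n : ℝ) * (n - 1) - 1 / 2) := by positivity
    simp only [Nat.cast_zero] at hlow
    linarith
  have h := det_nat m n hm hn δ h0 h1 f.discr.natAbs T hD hTm hT4 hT16 hup hlow
    (by
      rintro ⟨p, hp, ha, hb, hc⟩
      refine h3 ⟨p, hp, ha, hb, ?_⟩
      have h5 : ((p ^ 2 : ℕ) : ℤ) ∣ f.discr := Int.natCast_dvd.2 hc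
      push_cast at h5
      exact h5)
    (by
      rintro ⟨d, hd, ha, hb, hc⟩
      exact h4 ⟨d, hd, ha, hb, Int.natCast_dvd.2 hc⟩)
  unfold badPart
  rw [hf]
  exact h

end SzC2
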