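import Pool.Agent.SzC2.Defs

/-!
Rankin's method with an Euler product for sums over squareful numbers.
-/

open scoped Classical

namespace SzC2

theorem mult_fact (F : ℕ → ℝ) (h1 : F 1 = 1)
    (hm : ∀ a b : ℕ, 0 < a → 0 < b → a.Coprime b → F (a * b) = F a * F b) {d : ℕ} (hd : d ≠ 0) :
    F d = d.factorization.prod fun p k => F (p ^ k) := by
  apply Nat.multiplicative_factorization F _ h1 hd
  intro a b hab
  rcases Nat.eq_zero_or_pos a with rfl | ha
  · have : b = 1 := by simpa using hab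
    subst this; simp [h1]
  rcases Nat.eq_zero_or_pos b with rfl | hb
  · have : a = 1 := by simpa using hab
    subst this; simp [h1]
  exact hm a b ha hb hab

theorem local_bound (c : ℝ) (hc : 1 ≤ c) (h : ℕ) (hh : 1 ≤ h) (F : ℕ → ℝ) (p : ℕ)
    (hp : p.Prime)
    (h2 : ∀ k, 2 ≤ k → F (p ^ k) ≤ c / (p : ℝ) ^ 2)
    (h3 : ∀ k : ℕ, F (p ^ k) ≤ c * (p : ℝ) ^ (-(k : ℝ) / h)) (K : ℕ) :
    ∑ k ∈ Finset.Ico 2 K, F (p ^ k) * ((p : ℝ) ^ k) ^ (1 / (16 * (h : ℝ))) ≤
      (4 * h * c + c / (1 - (2 : ℝ) ^ (-(15 / (16 * (h : ℝ)))))) * (p : ℝ) ^ (-(7 / 4) : ℝ) := by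
  have hh' : (1 : ℝ) ≤ h := by exact_mod_cast hh
  have hh0 : (0 : ℝ) < h := by linarith
  have hp2 : (2 : ℝ) ≤ p := by exact_mod_cast hp.two_le
  have hp1 : (1 : ℝ) ≤ p := by linarith
  have hp0 : (0 : ℝ) < p := by linarith
  set x : ℝ := (p : ℝ) ^ (-(15 / (16 * (h : ℝ)))) with hx
  have hx0 : 0 < x := Real.rpow_pos_of_pos hp0 _
  set q : ℝ := (2 : ℝ) ^ (-(15 / (16 * (h : ℝ)))) with hq
  have he : -(15 / (16 * (h : ℝ))) < 0 := by
    have : 0 < 15 / (16 * (h : ℝ)) := by positivity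
    linarith
  have hxq : x ≤ q := Real.rpow_le_rpow_of_nonpos (by norm_num) hp2 he.le
  have hq1 : q < 1 := Real.rpow_lt_one_of_one_lt_of_neg (by norm_num) he
  have hx1 : x < 1 := lt_of_le_of_lt hxq hq1
  have hterm : ∀ k ∈ Finset.Ico 2 K,
      F (p ^ k) * ((p : ℝ) ^ k) ^ (1 / (16 * (h : ℝ))) ≤
        (if k ∈ Finset.Icc 1 (4 * h) then c * (p : ℝ) ^ (-(7 / 4) : ℝ) else 0) +
          (if k ∈ Finset.Ico (4 * h) K then c * x ^ k else 0) := by
    intro k hk
    rw [Finset.mem_Ico] at hk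
    have hpk : ((p : ℝ) ^ k) ^ (1 / (16 * (h : ℝ))) = (p : ℝ) ^ ((k : ℝ) / (16 * h)) := by
      rw [← Real.rpow_natCast, ← Real.rpow_mul hp0.le]
      congr 1; ring
    rw [hpk]
    by_cases hk4 : k ≤ 4 * h
    · rw [if_pos (by rw [Finset.mem_Icc]; omega)]
      have h4 : (k : ℝ) / (16 * h) ≤ 1 / 4 := by
        rw [div_le_iff₀ (by positivity)]
        have : (k : ℝ) ≤ 4 * h := by exact_mod_cast hk4
        linarith
      have h5 : F (p ^ k) * (p : ℝ) ^ ((k : ℝ) / (16 * h)) ≤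
          c / (p : ℝ) ^ 2 * (p : ℝ) ^ (1 / 4 : ℝ) := by
        apply mul_le_mul (h2 k hk.1) (Real.rpow_le_rpow_of_exponent_le hp1 h4)
          (Real.rpow_nonneg hp0.le _) (by positivity)
      have h6 : c / (p : ℝ) ^ 2 * (p : ℝ) ^ (1 / 4 : ℝ) = c * (p : ℝ) ^ (-(7 / 4) : ℝ) := by
        have : (p : ℝ) ^ (-(7 / 4) : ℝ) = (p : ℝ) ^ (1 / 4 : ℝ) / (p : ℝ) ^ 2 := by
          rw [show (-(7 / 4) : ℝ) = 1 / 4 - (2 : ℕ) by norm_num, Real.rpow_sub_natCast hp0.ne']
        rw [this]; ring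
      have h7 : (0 : ℝ) ≤ (if k ∈ Finset.Ico (4 * h) K then c * x ^ k else 0) := by
        split_ifs
        · positivity
        · exact le_refl _
      linarith
    · push Not at hk4
      rw [if_pos (show k ∈ Finset.Ico (4 * h) K by rw [Finset.mem_Ico]; omega)]
      have h8 : F (p ^ k) * (p : ℝ) ^ ((k : ℝ) / (16 * h)) ≤
          c * (p : ℝ) ^ (-(k : ℝ) / h) * (p : ℝ) ^ ((k : ℝ) / (16 * h)) :=
        mul_le_mul_of_nonneg_right (h3 k) (Real.rpow_nonneg hp0.le _)
      have h9 : c * (p : ℝ) ^ (-(k : ℝ) / h) * (p : ℝ) ^ ((k : ℝ) / (16 * h)) = c * x ^ k := by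
        rw [mul_assoc, ← Real.rpow_add hp0, hx, ← Real.rpow_natCast, ← Real.rpow_mul hp0.le]
        congr 2
        field_simp
        ring
      have h10 : (0 : ℝ) ≤
          (if k ∈ Finset.Icc 1 (4 * h) then c * (p : ℝ) ^ (-(7 / 4) : ℝ) else 0) := by
        split_ifs
        · positivity
        · exact le_refl _
      linarith
  refine (Finset.sum_le_sum hterm).trans ?_
  rw [Finset.sum_add_distrib]
  have hA : ∑ k ∈ Finset.Ico 2 K,
      (if k ∈ Finset.Icc 1 (4 * h) then c * (p : ℝ) ^ (-(7 / 4) : ℝ) else 0) ≤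
        4 * h * c * (p : ℝ) ^ (-(7 / 4) : ℝ) := by
    rw [← Finset.sum_filter, Finset.sum_const, nsmul_eq_mul]
    have hcard : ((Finset.Ico 2 K).filter (fun k => k ∈ Finset.Icc 1 (4 * h))).card ≤ 4 * h := by
      calc ((Finset.Ico 2 K).filter (fun k => k ∈ Finset.Icc 1 (4 * h))).card
          ≤ (Finset.Icc 1 (4 * h)).card := by
            apply Finset.card_le_card
            intro k hk
            exact (Finset.mem_filter.mp hk).2
        _ = 4 * h := by simp
    have hcard' : (((Finset.Ico 2 K).filter (fun k => k ∈ Finset.Icc 1 (4 * h))).card : ℝ) ≤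
        4 * h := by exact_mod_cast hcard
    have h0 : 0 ≤ c * (p : ℝ) ^ (-(7 / 4) : ℝ) := by positivity
    calc _ ≤ (4 * h : ℝ) * (c * (p : ℝ) ^ (-(7 / 4) : ℝ)) := mul_le_mul_of_nonneg_right hcard' h0
      _ = _ := by ring
  have hB : ∑ k ∈ Finset.Ico 2 K, (if k ∈ Finset.Ico (4 * h) K then c * x ^ k else 0) ≤
      c / (1 - q) * (p : ℝ) ^ (-(7 / 4) : ℝ) := by
    rw [← Finset.sum_filter]
    have hsub : (Finset.Ico 2 K).filter (fun k => k ∈ Finset.Ico (4 * h) K) ⊆
        Finset.Ico (4 * h) K := by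
      intro k hk
      exact (Finset.mem_filter.mp hk).2
    have h11 : ∑ k ∈ (Finset.Ico 2 K).filter (fun k => k ∈ Finset.Ico (4 * h) K), c * x ^ k ≤
        ∑ k ∈ Finset.Ico (4 * h) K, c * x ^ k :=
      Finset.sum_le_sum_of_subset_of_nonneg hsub (fun k _ _ => by positivity)
    have h12 : ∑ k ∈ Finset.Ico (4 * h) K, c * x ^ k ≤ c * (x ^ (4 * h) / (1 - x)) := by
      rw [← Finset.mul_sum]
      exact mul_le_mul_of_nonneg_left (geom_sum_Ico_le_of_lt_one hx0.le hx1) (by linarith)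
    have h13 : x ^ (4 * h) ≤ (p : ℝ) ^ (-(7 / 4) : ℝ) := by
      rw [hx, ← Real.rpow_natCast, ← Real.rpow_mul hp0.le]
      apply Real.rpow_le_rpow_of_exponent_le hp1
      push_cast
      have : -(15 / (16 * (h : ℝ))) * (4 * h) = -(15 / 4) := by
        field_simp
        ring
      rw [this]; norm_num
    have h14 : x ^ (4 * h) / (1 - x) ≤ (p : ℝ) ^ (-(7 / 4) : ℝ) / (1 - q) := by
      apply div_le_div₀ (Real.rpow_nonneg hp0.le _) h13 (by linarith) (by linarith)
    calc _ ≤ c * (x ^ (4 * h) / (1 - x)) := h11.trans h12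
      _ ≤ c * ((p : ℝ) ^ (-(7 / 4) : ℝ) / (1 - q)) := mul_le_mul_of_nonneg_left h14 (by linarith)
      _ = _ := by ring
  calc _ ≤ 4 * h * c * (p : ℝ) ^ (-(7 / 4) : ℝ) + c / (1 - q) * (p : ℝ) ^ (-(7 / 4) : ℝ) :=
        add_le_add hA hB
    _ = _ := by ring

/-- Rankin's method with an Euler product over smooth numbers. -/
theorem euler_sum (c : ℝ) (hc : 1 ≤ c) (h : ℕ) (hh : 1 ≤ h) :
    ∃ A : ℝ, 0 < A ∧ ∀ F : ℕ → ℝ, F 1 = 1 → (∀ d, 0 ≤ F d) →
      (∀ a b : ℕ, 0 < a → 0 < b → a.Coprime b → F (a * b) = F a * F b) →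
      (∀ p k : ℕ, p.Prime → 2 ≤ k → F (p ^ k) ≤ c / (p : ℝ) ^ 2) →
      (∀ p k : ℕ, p.Prime → F (p ^ k) ≤ c * (p : ℝ) ^ (-(k : ℝ) / h)) →
      ∀ (S : Finset ℕ) (Y : ℝ), 1 ≤ Y → (∀ d ∈ S, Squareful d ∧ Y ≤ d) →
        ∑ d ∈ S, F d ≤ A * Y ^ (-(1 / (16 * (h : ℝ)))) := by
  have hh' : (1 : ℝ) ≤ h := by exact_mod_cast hh
  have hh0 : (0 : ℝ) < h := by linarith
  set C : ℝ := 4 * h * c + c / (1 - (2 : ℝ) ^ (-(15 / (16 * (h : ℝ))))) with hC
  have he : -(15 / (16 * (h : ℝ))) < 0 := by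
    have : 0 < 15 / (16 * (h : ℝ)) := by positivity
    linarith
  have hq1 : (2 : ℝ) ^ (-(15 / (16 * (h : ℝ)))) < 1 :=
    Real.rpow_lt_one_of_one_lt_of_neg (by norm_num) he
  have hC0 : 0 ≤ C := by
    have : 0 ≤ c / (1 - (2 : ℝ) ^ (-(15 / (16 * (h : ℝ))))) :=
      div_nonneg (by linarith) (by linarith)
    positivity
  have hsum : Summable (fun n : ℕ => (n : ℝ) ^ (-(7 / 4) : ℝ)) :=
    Real.summable_nat_rpow.mpr (by norm_num)
  refine ⟨Real.exp (C * ∑' n : ℕ, (n : ℝ) ^ (-(7 / 4) : ℝ)), Real.exp_pos _, ?_⟩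
  intro F h1 hF0 hm h2 h3 S Y hY hS
  set σ : ℝ := 1 / (16 * (h : ℝ)) with hσ
  have hσ0 : 0 < σ := by positivity
  have hY0 : 0 < Y := by linarith
  -- the local factors
  set g : ℕ → ℕ → ℝ := fun p k =>
    (if k = 0 then 1 else 0) + (if 2 ≤ k then F (p ^ k) * ((p : ℝ) ^ k) ^ σ else 0) with hg
  have hg0 : ∀ p k, 0 ≤ g p k := by
    intro p k
    simp only [hg]
    apply add_nonneg
    · split_ifs <;> norm_num
    · split_ifs
      · exact mul_nonneg (hF0 _) (Real.rpow_nonneg (by positivity) _)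
      · exact le_refl _
  set s : Finset ℕ := S.biUnion Nat.primeFactors with hs
  set K : ℕ := S.sup id + 1 with hK
  have hsp : ∀ p ∈ s, p.Prime := by
    intro p hp
    rw [hs, Finset.mem_biUnion] at hp
    obtain ⟨d, _, hd⟩ := hp
    exact Nat.prime_of_mem_primeFactors hd
  have hfact : ∀ d ∈ S, F d * (d : ℝ) ^ σ = ∏ p ∈ s, g p (d.factorization p) := by
    intro d hd
    obtain ⟨⟨hd0, hsq⟩, _⟩ := hS d hd
    have hsub : d.primeFactors ⊆ s := Finset.subset_biUnion_of_mem Nat.primeFactors hd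
    rw [← Finset.prod_subset hsub]
    · have e1 : F d = ∏ p ∈ d.primeFactors, F (p ^ d.factorization p) := by
        rw [mult_fact F h1 hm hd0, Finsupp.prod, Nat.support_factorization]
      have e2 : (d : ℝ) ^ σ = ∏ p ∈ d.primeFactors, ((p : ℝ) ^ d.factorization p) ^ σ := by
        rw [Real.finsetProd_rpow _ _ (fun i _ => by positivity)]
        congr 1
        conv_lhs => rw [← Nat.prod_factorization_pow_eq_self hd0]
        rw [Finsupp.prod, Nat.support_factorization]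
        push_cast
        rfl
      rw [e1, e2, ← Finset.prod_mul_distrib]
      apply Finset.prod_congr rfl
      intro p hp
      have hpp := Nat.prime_of_mem_primeFactors hp
      have hpd := Nat.dvd_of_mem_primeFactors hp
      have h2v : 2 ≤ d.factorization p := (hpp.pow_dvd_iff_le_factorization hd0).mp (hsq p hpp hpd)
      simp only [hg]
      rw [if_neg (by omega), if_pos h2v, zero_add]
    · intro p _ hp
      have : d.factorization p = 0 := by
        rw [← Nat.support_factorization, Finsupp.notMem_support_iff] at hp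
        exact hp
      simp [hg, this]
  have hstep1 : ∑ d ∈ S, F d ≤ Y ^ (-σ) * ∑ d ∈ S, F d * (d : ℝ) ^ σ := by
    rw [Finset.mul_sum]
    apply Finset.sum_le_sum
    intro d hd
    have hYd := (hS d hd).2
    have h5 : 1 ≤ Y ^ (-σ) * (d : ℝ) ^ σ := by
      rw [Real.rpow_neg hY0.le, ← div_eq_inv_mul, le_div_iff₀ (Real.rpow_pos_of_pos hY0 _), one_mul]
      exact Real.rpow_le_rpow hY0.le hYd hσ0.le
    calc F d = F d * 1 := (mul_one _).symm
      _ ≤ F d * (Y ^ (-σ) * (d : ℝ) ^ σ) := mul_le_mul_of_nonneg_left h5 (hF0 d)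
      _ = _ := by ring
  have hstep2 : ∑ d ∈ S, F d * (d : ℝ) ^ σ ≤ ∏ p ∈ s, ∑ k ∈ Finset.range K, g p k := by
    rw [Finset.prod_sum]
    set ι : ℕ → ((a : ℕ) → a ∈ s → ℕ) := fun d p _ => d.factorization p with hι
    have hinj : Set.InjOn ι S := by
      intro d hd d' hd' hdd
      have hd0 := (hS d hd).1.1
      have hd0' := (hS d' hd').1.1
      apply Nat.eq_of_factorization_eq hd0 hd0'
      intro p
      by_cases hp : p ∈ s
      · exact congrFun (congrFun hdd p) hp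
      · have a1 : d.factorization p = 0 := by
          rw [← Finsupp.notMem_support_iff, Nat.support_factorization]
          exact fun hc => hp (Finset.subset_biUnion_of_mem Nat.primeFactors hd hc)
        have a2 : d'.factorization p = 0 := by
          rw [← Finsupp.notMem_support_iff, Nat.support_factorization]
          exact fun hc => hp (Finset.subset_biUnion_of_mem Nat.primeFactors hd' hc)
        rw [a1, a2]
    have e3 : ∑ d ∈ S, F d * (d : ℝ) ^ σ =
        ∑ e ∈ S.image ι, ∏ x ∈ s.attach, g x.1 (e x.1 x.2) := by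
      rw [Finset.sum_image hinj]
      apply Finset.sum_congr rfl
      intro d hd
      rw [hfact d hd, ← Finset.prod_attach]
    rw [e3]
    apply Finset.sum_le_sum_of_subset_of_nonneg
    · intro e he
      rw [Finset.mem_image] at he
      obtain ⟨d, hd, rfl⟩ := he
      rw [Finset.mem_pi]
      intro p _
      rw [Finset.mem_range, hι, hK]
      have hlt : d.factorization p < d := Nat.factorization_lt p (hS d hd).1.1
      have hle : d ≤ S.sup id := Finset.le_sup (f := id) hd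
      show d.factorization p < _
      omega
    · intro e _ _
      exact Finset.prod_nonneg (fun x _ => hg0 _ _)
  have hstep3 : ∏ p ∈ s, ∑ k ∈ Finset.range K, g p k ≤
      Real.exp (C * ∑' n : ℕ, (n : ℝ) ^ (-(7 / 4) : ℝ)) := by
    have h6 : ∏ p ∈ s, ∑ k ∈ Finset.range K, g p k ≤
        ∏ p ∈ s, Real.exp (C * (p : ℝ) ^ (-(7 / 4) : ℝ)) := by
      apply Finset.prod_le_prod
      · intro p _
        exact Finset.sum_nonneg (fun k _ => hg0 _ _)
      · intro p hp
        have hpp := hsp p hp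
        have h7 : ∑ k ∈ Finset.range K, g p k ≤
            1 + ∑ k ∈ Finset.Ico 2 K, F (p ^ k) * ((p : ℝ) ^ k) ^ σ := by
          simp only [hg]
          rw [Finset.sum_add_distrib]
          apply add_le_add
          · rw [Finset.sum_ite_eq' (Finset.range K) 0 (fun _ => (1 : ℝ))]
            split_ifs <;> norm_num
          · rw [← Finset.sum_filter]
            apply le_of_eq
            apply Finset.sum_congr _ (fun _ _ => rfl)
            ext k
            simp only [Finset.mem_filter, Finset.mem_range, Finset.mem_Ico]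
            tauto
        have h8 := local_bound c hc h hh F p hpp (fun k hk => h2 p k hpp hk)
          (fun k => h3 p k hpp) K
        calc _ ≤ 1 + C * (p : ℝ) ^ (-(7 / 4) : ℝ) := h7.trans (add_le_add_right h8 1)
          _ = C * (p : ℝ) ^ (-(7 / 4) : ℝ) + 1 := by ring
          _ ≤ _ := Real.add_one_le_exp _
    refine h6.trans ?_
    rw [← Real.exp_sum]
    apply Real.exp_le_exp.mpr
    rw [← Finset.mul_sum]
    apply mul_le_mul_of_nonneg_left _ hC0
    exact hsum.sum_le_tsum s (fun i _ => Real.rpow_nonneg (by positivity) _)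
  calc ∑ d ∈ S, F d ≤ Y ^ (-σ) * ∑ d ∈ S, F d * (d : ℝ) ^ σ := hstep1
    _ ≤ Y ^ (-σ) * Real.exp (C * ∑' n : ℕ, (n : ℝ) ^ (-(7 / 4) : ℝ)) :=
        mul_le_mul_of_nonneg_left (hstep2.trans hstep3) (Real.rpow_nonneg hY0.le _)
    _ = _ := by ring

end SzC2
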