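import Pool.Agent.SzC2.Defs

/-!
The box of polynomials as a union of rectangles.
-/

open Polynomial
open scoped Classical

namespace SzC2

theorem fib_deg (n : ℕ) (hn : 1 ≤ n) (a : Fin (n - 1) → ℤ) :
    (∑ i : Fin (n - 1), C (a i) * X ^ (i : ℕ) : ℤ[X]).degree < n :=
  (degree_sum_fin_lt a).trans (by exact_mod_cast Nat.sub_lt hn Nat.one_pos)

theorem fib_monic (n : ℕ) (hn : 1 ≤ n) (a : Fin (n - 1) → ℤ) : (SzSP.poly n a).Monic := by
  unfold SzSP.poly
  exact monic_X_pow_add (fib_deg n hn a)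

theorem fib_natDegree (n : ℕ) (hn : 1 ≤ n) (a : Fin (n - 1) → ℤ) :
    (SzSP.poly n a).natDegree = n := by
  unfold SzSP.poly
  rw [natDegree_add_eq_left_of_degree_lt, natDegree_X_pow]
  rw [degree_X_pow]
  exact fib_deg n hn a

/-- the vector with prescribed coordinates `0` and `1` -/
def vec (n : ℕ) (c : Fin (n - 1) → ℤ) (z : ℤ × ℤ) (i : Fin (n - 1)) : ℤ :=
  if (i : ℕ) = 0 then z.2 else if (i : ℕ) = 1 then z.1 else c i

theorem vec_poly (n : ℕ) (hn : 3 ≤ n) (c : Fin (n - 1) → ℤ) (z : ℤ × ℤ) :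
    SzSP.poly n (vec n c z) = fxy (SzSP.poly n (vec n c (0, 0))) z.1 z.2 := by
  obtain ⟨k, rfl⟩ : ∃ k, n = k + 3 := ⟨n - 3, by omega⟩
  unfold SzSP.poly fxy
  have e : ∀ z : ℤ × ℤ, (∑ i : Fin (k + 3 - 1), C (vec (k + 3) c z i) * X ^ (i : ℕ) : ℤ[X])
      = C z.2 + C z.1 * X + ∑ i : Fin k, C (c ⟨i + 2, by omega⟩) * X ^ ((i : ℕ) + 2) := by
    intro z
    change (∑ i : Fin (k + 2), C (vec (k + 3) c z i) * X ^ (i : ℕ) : ℤ[X]) = _
    rw [Fin.sum_univ_succ, Fin.sum_univ_succ, ← add_assoc]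
    congr 1
    · congr 1
      · simp [vec]
      · simp [vec]
  rw [e z, e (0, 0)]
  simp only [map_zero]
  ring

theorem vec_inj (n : ℕ) (hn : 3 ≤ n) (c : Fin (n - 1) → ℤ) : Function.Injective (vec n c) := by
  intro z w h
  have h0 := congrFun h ⟨0, by omega⟩
  have h1 := congrFun h ⟨1, by omega⟩
  simp [vec] at h0 h1
  exact Prod.ext h1 h0

theorem vec_mem (n : ℕ) (hn : 3 ≤ n) (T : ℕ) (c : Fin (n - 1) → ℤ) (hc : c ∈ SzSP.box n T)
    (z : ℤ × ℤ) : vec n c z ∈ SzSP.box n T ↔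
      z ∈ (Finset.Icc (-((T : ℤ) ^ (n - 1))) ((T : ℤ) ^ (n - 1)) ×ˢ
        Finset.Icc (-((T : ℤ) ^ n)) ((T : ℤ) ^ n)) := by
  unfold SzSP.box at *
  rw [Fintype.mem_piFinset] at *
  rw [Finset.mem_product]
  constructor
  · intro h
    have h0 := h ⟨0, by omega⟩
    have h1 := h ⟨1, by omega⟩
    simp only [vec] at h0 h1
    simp at h0 h1
    simp
    exact ⟨h1, h0⟩
  · rintro ⟨h1, h0⟩ i
    unfold vec
    split_ifs with hi hi
    · rw [hi]; simpa using h0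
    · rw [hi]; exact h1
    · exact hc i

theorem fiber_eq (n : ℕ) (hn : 3 ≤ n) (T : ℕ) (R : (Fin (n - 1) → ℤ) → Prop)
    (c : Fin (n - 1) → ℤ) (hc : c ∈ SzSP.box n T) (h0 : vec n c (0, 0) = c) :
    ((SzSP.box n T).filter R).filter (fun a => vec n a (0, 0) = c) =
      ((Finset.Icc (-((T : ℤ) ^ (n - 1))) ((T : ℤ) ^ (n - 1)) ×ˢ
        Finset.Icc (-((T : ℤ) ^ n)) ((T : ℤ) ^ n)).filter (fun z => R (vec n c z))).image
          (vec n c) := by
  ext a
  rw [Finset.mem_filter, Finset.mem_filter, Finset.mem_image]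
  constructor
  · rintro ⟨⟨h1, h2⟩, h3⟩
    have h4 : vec n c (a ⟨1, by omega⟩, a ⟨0, by omega⟩) = a := by
      funext i
      have h5 := congrFun h3 i
      unfold vec at h5 ⊢
      split_ifs with hi hi
      · exact congrArg a (Fin.ext hi.symm)
      · exact congrArg a (Fin.ext hi.symm)
      · simp [hi] at h5
        rw [if_neg (by assumption)] at h5
        exact h5.symm
    refine ⟨_, ?_, h4⟩
    rw [Finset.mem_filter, h4]
    refine ⟨?_, h2⟩
    rw [← vec_mem n hn T c hc, h4]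
    exact h1
  · rintro ⟨z, hz, rfl⟩
    rw [Finset.mem_filter] at hz
    refine ⟨⟨(vec_mem n hn T c hc z).2 hz.1, hz.2⟩, ?_⟩
    rw [← h0]
    funext i
    unfold vec
    split_ifs <;> rfl

theorem fiber (n : ℕ) (hn : 3 ≤ n) (T : ℕ) (Q : ℤ[X] → Prop) (B : ℝ)
    (h : ∀ G : ℤ[X], G.Monic → G.natDegree = n →
      (((Finset.Icc (-((T : ℤ) ^ (n - 1))) ((T : ℤ) ^ (n - 1)) ×ˢ
        Finset.Icc (-((T : ℤ) ^ n)) ((T : ℤ) ^ n)).filter (fun z => Q (fxy G z.1 z.2))).card : ℝ)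
        ≤ B * ((Finset.Icc (-((T : ℤ) ^ (n - 1))) ((T : ℤ) ^ (n - 1)) ×ˢ
          Finset.Icc (-((T : ℤ) ^ n)) ((T : ℤ) ^ n)).card : ℝ)) :
    (((SzSP.box n T).filter (fun a => Q (SzSP.poly n a))).card : ℝ)
      ≤ B * ((SzSP.box n T).card : ℝ) := by
  have hz : ((0 : ℤ), (0 : ℤ)) ∈ (Finset.Icc (-((T : ℤ) ^ (n - 1))) ((T : ℤ) ^ (n - 1)) ×ˢ
        Finset.Icc (-((T : ℤ) ^ n)) ((T : ℤ) ^ n)) := by
    rw [Finset.mem_product, Finset.mem_Icc, Finset.mem_Icc]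
    refine ⟨⟨?_, ?_⟩, ⟨?_, ?_⟩⟩ <;> simp
  have key : ∀ R : (Fin (n - 1) → ℤ) → Prop,
      (((SzSP.box n T).filter R).card : ℝ) = ∑ c ∈ (SzSP.box n T).image (fun a => vec n a (0, 0)),
        (((Finset.Icc (-((T : ℤ) ^ (n - 1))) ((T : ℤ) ^ (n - 1)) ×ˢ
        Finset.Icc (-((T : ℤ) ^ n)) ((T : ℤ) ^ n)).filter (fun z => R (vec n c z))).card : ℝ) := by
    intro R
    rw [Finset.card_eq_sum_card_fiberwise (f := fun a => vec n a (0, 0))
      (t := (SzSP.box n T).image (fun a => vec n a (0, 0)))]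
    · push_cast
      apply Finset.sum_congr rfl
      intro c hc
      rw [Finset.mem_image] at hc
      obtain ⟨a, ha, rfl⟩ := hc
      have h1 : vec n (vec n a (0, 0)) (0, 0) = vec n a (0, 0) := by
        funext i
        unfold vec
        split_ifs <;> rfl
      rw [fiber_eq n hn T R _ ((vec_mem n hn T a ha _).2 hz) h1,
        Finset.card_image_of_injective _ (vec_inj n hn _)]
    · intro a ha
      have ha' : a ∈ (SzSP.box n T).filter R := ha
      rw [Finset.mem_filter] at ha'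
      exact Finset.mem_coe.2 (Finset.mem_image_of_mem _ ha'.1)
  have k1 := key (fun a => Q (SzSP.poly n a))
  have k2 : ((SzSP.box n T).card : ℝ) = ∑ c ∈ (SzSP.box n T).image (fun a => vec n a (0, 0)),
        ((Finset.Icc (-((T : ℤ) ^ (n - 1))) ((T : ℤ) ^ (n - 1)) ×ˢ
        Finset.Icc (-((T : ℤ) ^ n)) ((T : ℤ) ^ n)).card : ℝ) := by
    have h3 := key (fun _ => True)
    simp only [Finset.filter_true] at h3
    exact h3
  rw [k1, k2, Finset.mul_sum]
  apply Finset.sum_le_sum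
  intro c hc
  have h1 := h (SzSP.poly n (vec n c (0, 0))) (fib_monic n (by omega) _)
    (fib_natDegree n (by omega) _)
  refine le_trans (le_of_eq ?_) h1
  congr 2
  ext z
  rw [Finset.mem_filter, Finset.mem_filter, vec_poly n hn c z]

end SzC2
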