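import Pool.Agent.SzC2.Det
import Pool.Agent.SzC2.Cnt
import Pool.Agent.SzC2.Fiber
import Pool.Agent.SzSP.Sieve

/-!
For almost all polynomials the bad part of the discriminant is at least `T^(n - eps)`.
-/

open Polynomial
open scoped Classical

namespace SzC2

theorem fin_step (A δ δ' T c : ℝ) (hT : 1 ≤ T) (hc : 0 ≤ c) (h : δ' ≤ δ) :
    A * T ^ (-δ) * c ≤ |A| * T ^ (-δ') * c := by
  have h1 : A * T ^ (-δ) ≤ |A| * T ^ (-δ') := by
    have h2 : T ^ (-δ) ≤ T ^ (-δ') := Real.rpow_le_rpow_of_exponent_le hT (by linarith)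
    have h3 : 0 ≤ T ^ (-δ) := by positivity
    calc A * T ^ (-δ) ≤ |A| * T ^ (-δ) := mul_le_mul_of_nonneg_right (le_abs_self A) h3
      _ ≤ |A| * T ^ (-δ') := mul_le_mul_of_nonneg_left h2 (abs_nonneg A)
  exact mul_le_mul_of_nonneg_right h1 hc

theorem count2 (m n : ℕ) (hm : 1 ≤ m) (hn : 3 ≤ n) (κ : ℝ) (hκ : 1 / (n : ℝ) < κ) :
    ∃ A δ : ℝ, 0 < δ ∧ ∀ T : ℕ, 1 ≤ T →
      (((SzSP.box n T).filter (fun a => (SzSP.poly n a).discr = 0 ∨
        κ * Real.log (m * badPart m (SzSP.poly n a)) < Real.log T)).card : ℝ)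
        ≤ A * (T : ℝ) ^ (-δ) * (SzSP.box n T).card := by
  have hn3 : (3 : ℝ) ≤ n := by exact_mod_cast hn
  have hn0 : (0 : ℝ) < n := by linarith
  have hκ0 : 0 < κ := lt_trans (by positivity) hκ
  have hκn : 1 < κ * n := by
    rw [div_lt_iff₀ hn0] at hκ
    exact hκ
  set δ : ℝ := min (1 / 2) ((κ * n - 1) / (2 * κ)) with hδ
  have hδ0 : 0 < δ := lt_min (by norm_num) (div_pos (by linarith) (by linarith))
  have hδ1 : δ ≤ 1 / 2 := min_le_left _ _
  have hδκ : 1 ≤ κ * ((n : ℝ) - δ) := by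
    have h1 : δ ≤ (κ * n - 1) / (2 * κ) := min_le_right _ _
    have h2 : κ * δ ≤ κ * ((κ * n - 1) / (2 * κ)) := mul_le_mul_of_nonneg_left h1 hκ0.le
    have h3 : κ * ((κ * n - 1) / (2 * κ)) = (κ * n - 1) / 2 := by field_simp
    have h4 : κ * ((n : ℝ) - δ) = κ * n - κ * δ := by ring
    rw [h4]
    linarith
  obtain ⟨A1, hA1⟩ := low_pairs_aux n hn
  obtain ⟨A2, δ2, hδ2, hA2⟩ := square_pairs_aux n hn δ hδ0 hδ1
  obtain ⟨A3, δ3, hδ3, hA3⟩ := squareful_pairs_aux n hn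
  obtain ⟨T0, hT0⟩ := det_part m n hm hn δ hδ0 hδ1
  set δ' : ℝ := min (1 / (2 * ((n : ℝ) - 1))) (min δ2 δ3) with hδ'
  have hd1 : δ' ≤ 1 / (2 * ((n : ℝ) - 1)) := min_le_left _ _
  have hd2 : δ' ≤ δ2 := le_trans (min_le_right _ _) (min_le_left _ _)
  have hd3 : δ' ≤ δ3 := le_trans (min_le_right _ _) (min_le_right _ _)
  have hδ'0 : 0 < δ' := lt_min (by
    have : (0 : ℝ) < 2 * ((n : ℝ) - 1) := by linarith
    positivity) (lt_min hδ2 hδ3)
  refine ⟨|A1| + |A2| + |A3| + ((T0 : ℝ) + 1) ^ δ', δ', hδ'0, fun T hT => ?_⟩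
  have hT1 : (1 : ℝ) ≤ T := by exact_mod_cast hT
  have hTp : (0 : ℝ) < T := by linarith
  set c : ℝ := ((SzSP.box n T).card : ℝ) with hc
  have hc0 : 0 ≤ c := by positivity
  have hpos : 0 ≤ (T : ℝ) ^ (-δ') := by positivity
  by_cases hTT : T < T0
  · have h1 : (((SzSP.box n T).filter (fun a => (SzSP.poly n a).discr = 0 ∨
        κ * Real.log (m * badPart m (SzSP.poly n a)) < Real.log T)).card : ℝ) ≤ c := by
      rw [hc]
      exact_mod_cast Finset.card_filter_le _ _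
    have h2 : 1 ≤ ((T0 : ℝ) + 1) ^ δ' * (T : ℝ) ^ (-δ') := by
      have h3 : (T : ℝ) ^ δ' ≤ ((T0 : ℝ) + 1) ^ δ' := by
        apply Real.rpow_le_rpow hTp.le _ hδ'0.le
        have : (T : ℝ) < T0 := by exact_mod_cast hTT
        linarith
      calc (1 : ℝ) = (T : ℝ) ^ δ' * (T : ℝ) ^ (-δ') := by
            rw [← Real.rpow_add hTp]; simp
        _ ≤ ((T0 : ℝ) + 1) ^ δ' * (T : ℝ) ^ (-δ') := mul_le_mul_of_nonneg_right h3 hpos
    have h4 : 1 ≤ (|A1| + |A2| + |A3| + ((T0 : ℝ) + 1) ^ δ') * (T : ℝ) ^ (-δ') := by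
      have h5 : 0 ≤ (|A1| + |A2| + |A3|) * (T : ℝ) ^ (-δ') := by positivity
      nlinarith
    calc _ ≤ c := h1
      _ = 1 * c := (one_mul c).symm
      _ ≤ _ := mul_le_mul_of_nonneg_right h4 hc0
  · push Not at hTT
    have e1 := fiber n hn T (fun f => |((f.discr : ℤ) : ℝ)| ≤
        (T : ℝ) ^ ((n : ℝ) * (n - 1) - 1 / 2)) (A1 * (T : ℝ) ^ (-(1 / (2 * ((n : ℝ) - 1)))))
        (fun G hG hGn => hA1 G hG hGn T hT)
    have e2 := fiber n hn T (fun f => ∃ p : ℕ, p.Prime ∧ (T : ℝ) ^ (1 / 16 : ℝ) < p ∧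
        (p : ℝ) ≤ (T : ℝ) ^ ((n : ℝ) - δ) ∧ (p : ℤ) ^ 2 ∣ f.discr) (A2 * (T : ℝ) ^ (-δ2))
        (fun G hG hGn => hA2 G hG hGn T hT)
    have e3 := fiber n hn T (fun f => ∃ d : ℕ, Squareful d ∧ (T : ℝ) ^ (1 / 4 : ℝ) ≤ d ∧
        (d : ℝ) ≤ (T : ℝ) ^ (1 / 2 : ℝ) ∧ (d : ℤ) ∣ f.discr) (A3 * (T : ℝ) ^ (-δ3))
        (fun G hG hGn => hA3 G hG hGn T hT)
    have f1 := e1.trans (fin_step A1 (1 / (2 * ((n : ℝ) - 1))) δ' T c hT1 hc0 hd1)
    have f2 := e2.trans (fin_step A2 δ2 δ' T c hT1 hc0 hd2)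
    have f3 := e3.trans (fin_step A3 δ3 δ' T c hT1 hc0 hd3)
    have hsub : (SzSP.box n T).filter (fun a => (SzSP.poly n a).discr = 0 ∨
        κ * Real.log (m * badPart m (SzSP.poly n a)) < Real.log T) ⊆
        ((SzSP.box n T).filter (fun a => (fun f : ℤ[X] => |((f.discr : ℤ) : ℝ)| ≤
          (T : ℝ) ^ ((n : ℝ) * (n - 1) - 1 / 2)) (SzSP.poly n a))) ∪
        (((SzSP.box n T).filter (fun a => (fun f : ℤ[X] => ∃ p : ℕ, p.Prime ∧
          (T : ℝ) ^ (1 / 16 : ℝ) < p ∧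
          (p : ℝ) ≤ (T : ℝ) ^ ((n : ℝ) - δ) ∧ (p : ℤ) ^ 2 ∣ f.discr) (SzSP.poly n a))) ∪
        ((SzSP.box n T).filter (fun a => (fun f : ℤ[X] => ∃ d : ℕ, Squareful d ∧
          (T : ℝ) ^ (1 / 4 : ℝ) ≤ d ∧
          (d : ℝ) ≤ (T : ℝ) ^ (1 / 2 : ℝ) ∧ (d : ℤ) ∣ f.discr) (SzSP.poly n a)))) := by
      intro a ha
      rw [Finset.mem_filter] at ha
      by_contra hcon
      rw [Finset.mem_union, Finset.mem_union, Finset.mem_filter, Finset.mem_filter,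
        Finset.mem_filter] at hcon
      push Not at hcon
      obtain ⟨g1, g2, g3⟩ := hcon
      have k1 := g1 ha.1
      have k2 := g2 ha.1
      have k3 := g3 ha.1
      have hup := SzSP.discr_le n (by omega) T hT a ha.1
      have habs : |(((SzSP.poly n a).discr : ℤ) : ℝ)| = (((SzSP.poly n a).discr.natAbs : ℕ) : ℝ) := by
        rw [Nat.cast_natAbs]; push_cast; rfl
      have key := hT0 (SzSP.poly n a) T (fib_natDegree n (by omega) a) hTT (by rw [habs]; exact hup)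
        k1 (by
          rintro ⟨p, hp, q1, q2, q3⟩
          exact k2 p hp q1 q2 q3) (by
          rintro ⟨d, hd, q1, q2, q3⟩
          exact k3 d hd q1 q2 q3)
      rcases ha.2 with h | h
      · rw [h] at k1
        have : (0 : ℝ) ≤ (T : ℝ) ^ ((n : ℝ) * (n - 1) - 1 / 2) := by positivity
        simp at k1
        linarith
      · have h5 : Real.log ((T : ℝ) ^ ((n : ℝ) - δ)) ≤
            Real.log (m * badPart m (SzSP.poly n a)) := Real.log_le_log (by positivity) key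
        rw [Real.log_rpow hTp] at h5
        have h6 : 0 ≤ Real.log T := Real.log_nonneg hT1
        have h7 : κ * (((n : ℝ) - δ) * Real.log T) ≤
            κ * Real.log (m * badPart m (SzSP.poly n a)) := mul_le_mul_of_nonneg_left h5 hκ0.le
        have h8 : Real.log T ≤ κ * (((n : ℝ) - δ) * Real.log T) := by
          rw [← mul_assoc]
          nlinarith
        linarith
    have hcard := (Finset.card_le_card hsub).trans ((Finset.card_union_le _ _).trans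
      (Nat.add_le_add_left (Finset.card_union_le _ _) _))
    have hcard' : (((SzSP.box n T).filter (fun a => (SzSP.poly n a).discr = 0 ∨
        κ * Real.log (m * badPart m (SzSP.poly n a)) < Real.log T)).card : ℝ) ≤
        |A1| * (T : ℝ) ^ (-δ') * c + (|A2| * (T : ℝ) ^ (-δ') * c + |A3| * (T : ℝ) ^ (-δ') * c) := by
      refine le_trans (by exact_mod_cast hcard) (add_le_add f1 (add_le_add f2 f3))
    refine hcard'.trans ?_
    have h9 : 0 ≤ ((T0 : ℝ) + 1) ^ δ' * (T : ℝ) ^ (-δ') * c := by positivity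
    have h10 : (|A1| + |A2| + |A3| + ((T0 : ℝ) + 1) ^ δ') * (T : ℝ) ^ (-δ') * c =
      |A1| * (T : ℝ) ^ (-δ') * c + (|A2| * (T : ℝ) ^ (-δ') * c + |A3| * (T : ℝ) ^ (-δ') * c) +
      ((T0 : ℝ) + 1) ^ δ' * (T : ℝ) ^ (-δ') * c := by ring
    rw [h10]
    linarith

end SzC2
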