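import Pool.Agent.SzC2.StrongA

/-!
Strong squares in the discriminant: boundedly many classes of `(x, y)` modulo `p`.
-/

open Polynomial
open scoped Classical

namespace SzC2

lemma eval_of_sq_dvd {K : Type*} [Field K] {f : K[X]} {r : K} (h : (X - C r) ^ 2 ∣ f) :
    f.eval r = 0 ∧ f.derivative.eval r = 0 := by
  obtain ⟨q, rfl⟩ := h
  constructor
  · simp
  · simp [derivative_mul, derivative_pow]

lemma eval_of_cube_dvd {K : Type*} [Field K] {f : K[X]} {r : K} (h : (X - C r) ^ 3 ∣ f) :
    f.derivative.derivative.eval r = 0 := by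
  obtain ⟨q, rfl⟩ := h
  simp [derivative_mul, derivative_pow]

theorem strong_count {G : ℤ[X]} (hG : G.Monic) (hn : 3 ≤ G.natDegree) (p : ℕ) [Fact p.Prime]
    (hp : G.natDegree < p) :
    ∃ S : Finset (ZMod p × ZMod p), S.card ≤ 4 * G.natDegree ^ 2 ∧
      ∀ x y : ℤ, Strong p (fxy G x y) → ((x : ZMod p), (y : ZMod p)) ∈ S := by
  set K := AlgebraicClosure (ZMod p) with hK
  have : CharP K p := charP_of_injective_algebraMap (algebraMap (ZMod p) K).injective p
  set n := G.natDegree with hnn
  set g : K[X] := G.map (Int.castRingHom K) with hg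
  have hgm : g.Monic := hG.map _
  have hgn : g.natDegree = n := hG.natDegree_map _
  have hcast : ∀ m : ℕ, 0 < m → m < p → (m : K) ≠ 0 := by
    intro m hm hmp h0
    rw [CharP.cast_eq_zero_iff K p] at h0
    exact absurd (Nat.le_of_dvd hm h0) (by omega)
  obtain ⟨R, hRc, hR⟩ := double_points hgm (by rw [hgn]; exact hn)
    (by rw [hgn]; exact hcast n (by omega) hp) (by rw [hgn]; exact hcast (n-1) (by omega) (by omega))
  rw [hgn] at hRc
  set T : Finset K := g.derivative.derivative.roots.toFinset with hT
  have hg2 : g.derivative.derivative ≠ 0 := by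
    intro h0
    obtain ⟨k, hk⟩ : ∃ k, n = k + 2 := ⟨n - 2, by omega⟩
    have h1 : g.derivative.derivative.coeff k = 0 := by rw [h0]; simp
    rw [coeff_derivative, coeff_derivative] at h1
    have h2 : g.coeff (k + 1 + 1) = 1 := by
      have := hgm.coeff_natDegree
      rw [hgn, hk] at this
      exact this
    rw [h2, one_mul] at h1
    rcases mul_eq_zero.1 h1 with h | h
    · apply hcast (k+2) (by omega) (by omega)
      rw [← h]; push_cast; ring
    · apply hcast (k+1) (by omega) (by omega)
      rw [← h]; push_cast; ring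
  have hTc : T.card ≤ n - 2 := by
    calc T.card ≤ Multiset.card g.derivative.derivative.roots := Multiset.toFinset_card_le _
      _ ≤ g.derivative.derivative.natDegree := card_roots' _
      _ ≤ g.derivative.natDegree - 1 := natDegree_derivative_le _
      _ ≤ (g.natDegree - 1) - 1 := Nat.sub_le_sub_right (natDegree_derivative_le _) 1
      _ = n - 2 := by rw [hgn]; omega
  let ψ : K → K × K := fun r => (- g.derivative.eval r, - g.eval r + g.derivative.eval r * r)
  let ι : ZMod p × ZMod p → K × K := fun z => (algebraMap (ZMod p) K z.1, algebraMap (ZMod p) K z.2)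
  have hι : Function.Injective ι := by
    rintro ⟨a, b⟩ ⟨c, d⟩ h
    simp only [ι, Prod.mk.injEq] at h
    rw [Prod.mk.injEq]
    exact ⟨(algebraMap (ZMod p) K).injective h.1, (algebraMap (ZMod p) K).injective h.2⟩
  refine ⟨Finset.univ.filter (fun z => ι z ∈ (R ∪ T).image ψ), ?_, ?_⟩
  · have h1 : (Finset.univ.filter (fun z => ι z ∈ (R ∪ T).image ψ)).card
        ≤ ((R ∪ T).image ψ).card :=
      Finset.card_le_card_of_injOn ι (fun z hz => (Finset.mem_filter.1 hz).2) hι.injOn
    have h2 : ((R ∪ T).image ψ).card ≤ R.card + T.card :=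
      Finset.card_image_le.trans (Finset.card_union_le _ _)
    refine h1.trans (h2.trans ?_)
    obtain ⟨k, hk⟩ : ∃ k, n = k + 3 := ⟨n - 3, by omega⟩
    rw [hk] at hRc hTc ⊢
    have e : k + 3 - 2 = k + 1 := by omega
    rw [e] at hRc hTc
    nlinarith
  · intro x y hs
    have hred : red p (fxy G x y) = g + C (x : K) * X + C (y : K) := by
      rw [red, fxy, Polynomial.map_add, Polynomial.map_add, Polynomial.map_mul,
        Polynomial.map_X, Polynomial.map_C, Polynomial.map_C, ← hg]
      rfl
    have hd1 : (red p (fxy G x y)).derivative = g.derivative + C (x : K) := by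
      rw [hred]; simp
    have hd2 : (red p (fxy G x y)).derivative.derivative = g.derivative.derivative := by
      rw [hd1]; simp
    have key : ∀ r : K, (X - C r)^2 ∣ red p (fxy G x y) →
        g.eval r + x * r + y = 0 ∧ g.derivative.eval r + x = 0 := by
      intro r hr
      obtain ⟨h1, h2⟩ := eval_of_sq_dvd hr
      rw [hd1] at h2
      rw [hred] at h1
      simp only [eval_add, eval_mul, eval_C, eval_X] at h1 h2
      exact ⟨h1, h2⟩
    have fin : ∀ r : K, r ∈ R ∪ T → g.eval r + x * r + y = 0 → g.derivative.eval r + x = 0 →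
        ((x : ZMod p), (y : ZMod p)) ∈ Finset.univ.filter (fun z => ι z ∈ (R ∪ T).image ψ) := by
      intro r hr h1 h2
      rw [Finset.mem_filter]
      refine ⟨Finset.mem_univ _, Finset.mem_image.2 ⟨r, hr, ?_⟩⟩
      have e1 : algebraMap (ZMod p) K (x : ZMod p) = (x : K) := by simp
      have e2 : algebraMap (ZMod p) K (y : ZMod p) = (y : K) := by simp
      simp only [ψ, ι, e1, e2, Prod.mk.injEq]
      constructor
      · linear_combination -h2
      · linear_combination -h1 + r * h2
    obtain ⟨r, s, h | h⟩ := hs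
    · obtain ⟨hrs, h1, h2⟩ := h
      obtain ⟨a1, a2⟩ := key r h1
      obtain ⟨b1, b2⟩ := key s h2
      refine fin r (Finset.mem_union_left _ (hR r s hrs ?_ ?_)) a1 a2
      · linear_combination b2 - a2
      · linear_combination b1 - a1 - (s - r) * a2
    · obtain ⟨a1, a2⟩ := key r ((pow_dvd_pow _ (by norm_num)).trans h)
      refine fin r (Finset.mem_union_right _ ?_) a1 a2
      have h3 := eval_of_cube_dvd h
      rw [hd2] at h3
      rw [hT, Multiset.mem_toFinset, mem_roots hg2]
      exact h3

end SzC2
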