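import Pool.Agent.SzC2.Defs

/-!
Weak squares in the discriminant.
-/

open Polynomial
open scoped Classical

namespace SzC2

theorem weak_count {G : ℤ[X]} (hG : G.Monic) (p : ℕ) (hp : p.Prime) (hpn : ¬ p ∣ G.natDegree) :
    ∃ S : Finset ℤ, S.card ≤ G.natDegree ∧
      ∀ y : ℤ, Weak p (G + C y) → ∃ s ∈ S, (p : ℤ) ^ 2 ∣ y - s := by
  have := Fact.mk hp
  have hn0 : G.natDegree ≠ 0 := by
    intro h0; exact hpn (h0 ▸ dvd_zero p)
  set Q : (ZMod p)[X] := G.derivative.map (Int.castRingHom (ZMod p)) with hQ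
  have hQ0 : Q ≠ 0 := by
    intro h
    have hc : Q.coeff (G.natDegree - 1) = 0 := by rw [h, coeff_zero]
    rw [hQ, coeff_map, coeff_derivative] at hc
    have h1 : G.natDegree - 1 + 1 = G.natDegree := by omega
    rw [h1, hG.coeff_natDegree, one_mul] at hc
    have h2 : ((G.natDegree - 1 : ℕ) : ℤ) + 1 = (G.natDegree : ℤ) := by omega
    rw [h2] at hc
    simp only [Int.coe_castRingHom, Int.cast_natCast] at hc
    rw [ZMod.natCast_eq_zero_iff] at hc
    exact hpn hc
  have hQd : Q.natDegree ≤ G.natDegree := by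
    calc Q.natDegree ≤ G.derivative.natDegree := natDegree_map_le
      _ ≤ G.natDegree - 1 := natDegree_derivative_le G
      _ ≤ G.natDegree := Nat.sub_le _ _
  refine ⟨Q.roots.toFinset.image (fun r : ZMod p => - G.eval ((r.val : ℕ) : ℤ)), ?_, ?_⟩
  · calc (Q.roots.toFinset.image (fun r : ZMod p => - G.eval ((r.val : ℕ) : ℤ))).card
        ≤ Q.roots.toFinset.card := Finset.card_image_le
      _ ≤ Multiset.card Q.roots := Multiset.toFinset_card_le _
      _ ≤ Q.natDegree := card_roots' Q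
      _ ≤ G.natDegree := hQd
  · rintro y ⟨r, h1, h2⟩
    rw [eval_add, eval_C] at h1
    rw [derivative_add, derivative_C, add_zero] at h2
    have hroot : Q.eval ((r : ℤ) : ZMod p) = 0 := by
      rw [hQ, eval_intCast_map]
      simp only [Int.coe_castRingHom]
      rw [ZMod.intCast_zmod_eq_zero_iff_dvd]
      exact h2
    refine ⟨_, Finset.mem_image_of_mem _
      (Multiset.mem_toFinset.mpr ((mem_roots hQ0).mpr hroot)), ?_⟩
    set r1 : ℤ := (((((r : ℤ) : ZMod p).val : ℕ)) : ℤ) with hr1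
    have hd : (p : ℤ) ∣ r1 - r := by
      rw [← ZMod.intCast_zmod_eq_zero_iff_dvd, Int.cast_sub, hr1, Int.cast_natCast,
        ZMod.natCast_zmod_val, sub_self]
    obtain ⟨k, hk⟩ := Polynomial.binomExpansion G r (r1 - r)
    have e1 : r + (r1 - r) = r1 := by ring
    rw [e1] at hk
    have e2 : y - -G.eval r1 = (G.eval r + y) + G.derivative.eval r * (r1 - r)
        + k * (r1 - r) ^ 2 := by rw [hk]; ring
    rw [e2]
    refine dvd_add (dvd_add h1 ?_) ?_
    · rw [sq]; exact mul_dvd_mul h2 hd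
    · exact Dvd.dvd.mul_left (pow_dvd_pow_of_dvd hd 2) k

end SzC2
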