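import Pool.Agent.SzC2.Rho
import Pool.Agent.SzC2.Cls
import Pool.Agent.SzC2.Weak
import Pool.Agent.SzC2.Strong
import Pool.Agent.SzC2.Alg

/-!
Prime powers dividing the discriminant.
-/

open Polynomial
open scoped Classical

namespace SzC2

theorem lin_deg_lt {G : ℤ[X]} (hG : G.Monic) (hn : 2 ≤ G.natDegree) (x : ℤ) :
    (C x * X : ℤ[X]).degree < G.degree := by
  have h1 : G.degree = (G.natDegree : WithBot ℕ) := degree_eq_natDegree hG.ne_zero
  rw [h1]
  refine lt_of_le_of_lt (degree_C_mul_X_le x) ?_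
  exact_mod_cast (by omega : 1 < G.natDegree)

theorem lin_monic {G : ℤ[X]} (hG : G.Monic) (hn : 2 ≤ G.natDegree) (x : ℤ) :
    (G + C x * X).Monic := hG.add_of_left (lin_deg_lt hG hn x)

theorem lin_natDegree {G : ℤ[X]} (hG : G.Monic) (hn : 2 ≤ G.natDegree) (x : ℤ) :
    (G + C x * X).natDegree = G.natDegree := by
  apply natDegree_eq_of_degree_eq
  exact degree_add_eq_left_of_degree_lt (lin_deg_lt hG hn x)

theorem fxy_monic {G : ℤ[X]} (hG : G.Monic) (hn : 2 ≤ G.natDegree) (x y : ℤ) :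
    (fxy G x y).Monic := by
  unfold fxy
  apply (lin_monic hG hn x).add_of_left
  rw [degree_eq_natDegree (lin_monic hG hn x).ne_zero, lin_natDegree hG hn]
  refine lt_of_le_of_lt degree_C_le ?_
  exact_mod_cast (by omega : 0 < G.natDegree)

theorem fxy_natDegree {G : ℤ[X]} (hG : G.Monic) (hn : 2 ≤ G.natDegree) (x y : ℤ) :
    (fxy G x y).natDegree = G.natDegree := by
  unfold fxy
  rw [natDegree_add_C, lin_natDegree hG hn]

/-- weak pairs in a box of the second coordinate -/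
theorem wos {G : ℤ[X]} (hG : G.Monic) (hn : 3 ≤ G.natDegree) (p : ℕ) [Fact p.Prime]
    (hp : G.natDegree < p) (x y : ℤ) (h : (p : ℤ) ^ 2 ∣ (fxy G x y).discr) :
    Weak p (fxy G x y) ∨ Strong p (fxy G x y) := by
  apply weak_or_strong (fxy_monic hG (by omega) x y) _ p _ h
  · rw [fxy_natDegree hG (by omega)]; omega
  · rw [fxy_natDegree hG (by omega)]; omega

theorem weak_x {G : ℤ[X]} (hG : G.Monic) (hn : 3 ≤ G.natDegree) (p : ℕ) (hpp : p.Prime)
    (hp : G.natDegree < p) (x : ℤ) :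
    ∃ S : Finset ℤ, S.card ≤ G.natDegree ∧
      ∀ y : ℤ, Weak p (fxy G x y) → ∃ s ∈ S, (p : ℤ) ^ 2 ∣ y - s := by
  have hd := lin_natDegree hG (by omega) x
  have hpn : ¬ p ∣ (G + C x * X).natDegree := by
    rw [hd]
    intro hc
    have := Nat.le_of_dvd (by omega) hc
    omega
  obtain ⟨S, h1, h2⟩ := weak_count (lin_monic hG (by omega) x) p hpp hpn
  rw [hd] at h1
  exact ⟨S, h1, fun y hy => h2 y hy⟩

/-- `p^2 | disc` in a box -/
theorem square_box {G : ℤ[X]} (hG : G.Monic) (hn : 3 ≤ G.natDegree) (p : ℕ) (hpp : p.Prime)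
    (hp : G.natDegree < p) (A B : ℕ) :
    (((Finset.Icc (-(A : ℤ)) A ×ˢ Finset.Icc (-(B : ℤ)) B).filter
      (fun z => (p : ℤ) ^ 2 ∣ (fxy G z.1 z.2).discr)).card : ℝ)
      ≤ G.natDegree * (2 * A + 1) * ((2 * B + 1) / p ^ 2 + 1) +
        4 * G.natDegree ^ 2 * ((2 * A + 1) / p + 1) * ((2 * B + 1) / p + 1) := by
  have : Fact p.Prime := ⟨hpp⟩
  set IA := Finset.Icc (-(A : ℤ)) A with hIA
  set IB := Finset.Icc (-(B : ℤ)) B with hIB
  have hp0 : (0 : ℝ) < p := by exact_mod_cast hpp.pos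
  obtain ⟨S, hS1, hS2⟩ := strong_count hG hn p hp
  have hsub : (IA ×ˢ IB).filter (fun z => (p : ℤ) ^ 2 ∣ (fxy G z.1 z.2).discr) ⊆
      (IA ×ˢ IB).filter (fun z => Weak p (fxy G z.1 z.2)) ∪
        (IA ×ˢ IB).filter (fun z => ((z.1 : ZMod p), (z.2 : ZMod p)) ∈ S) := by
    intro z hz
    rw [Finset.mem_filter] at hz
    rw [Finset.mem_union, Finset.mem_filter, Finset.mem_filter]
    rcases wos hG hn p hp z.1 z.2 hz.2 with h | h
    · exact Or.inl ⟨hz.1, h⟩
    · exact Or.inr ⟨hz.1, hS2 _ _ h⟩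
  have hcard : (((IA ×ˢ IB).filter
      (fun z => (p : ℤ) ^ 2 ∣ (fxy G z.1 z.2).discr)).card : ℝ) ≤
      ((IA ×ˢ IB).filter (fun z => Weak p (fxy G z.1 z.2))).card +
        ((IA ×ˢ IB).filter (fun z => ((z.1 : ZMod p), (z.2 : ZMod p)) ∈ S)).card := by
    exact_mod_cast (Finset.card_le_card hsub).trans (Finset.card_union_le _ _)
  have hIAc : (IA.card : ℝ) = 2 * A + 1 := by
    rw [hIA, Int.card_Icc]
    have : ((A : ℤ) + 1 - -(A : ℤ)).toNat = 2 * A + 1 := by omega
    rw [this]; push_cast; ring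
  have hW : (((IA ×ˢ IB).filter (fun z => Weak p (fxy G z.1 z.2))).card : ℝ) ≤
      G.natDegree * (2 * A + 1) * ((2 * B + 1) / p ^ 2 + 1) := by
    have e1 : ((IA ×ˢ IB).filter (fun z => Weak p (fxy G z.1 z.2))).card =
        ∑ x ∈ IA, (IB.filter (fun y => Weak p (fxy G x y))).card := by
      rw [Finset.card_filter, Finset.sum_product]
      apply Finset.sum_congr rfl
      intro x _
      rw [Finset.card_filter]
    rw [e1]
    push_cast
    have e2 : ∀ x ∈ IA, ((IB.filter (fun y => Weak p (fxy G x y))).card : ℝ) ≤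
        G.natDegree * ((2 * B + 1) / p ^ 2 + 1) := by
      intro x _
      obtain ⟨T, hT1, hT2⟩ := weak_x hG hn p hpp hp x
      have h3 : (IB.filter (fun y => Weak p (fxy G x y))).card ≤
          (IB.filter (fun y => ∃ s ∈ T, ((p ^ 2 : ℕ) : ℤ) ∣ y - s)).card := by
        apply Finset.card_le_card
        intro y hy
        rw [Finset.mem_filter] at hy ⊢
        refine ⟨hy.1, ?_⟩
        push_cast
        exact hT2 y hy.2
      have h4 := int_set (p ^ 2) (pow_pos hpp.pos 2) T B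
      have h5 : (T.card : ℝ) ≤ G.natDegree := by exact_mod_cast hT1
      calc ((IB.filter (fun y => Weak p (fxy G x y))).card : ℝ) ≤
            ((IB.filter (fun y => ∃ s ∈ T, ((p ^ 2 : ℕ) : ℤ) ∣ y - s)).card : ℝ) := by
              exact_mod_cast h3
        _ ≤ T.card * ((2 * B + 1) / ((p ^ 2 : ℕ) : ℝ) + 1) := h4
        _ ≤ G.natDegree * ((2 * B + 1) / ((p ^ 2 : ℕ) : ℝ) + 1) :=
            mul_le_mul_of_nonneg_right h5 (by positivity)
        _ = _ := by push_cast; ring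
    calc _ ≤ ∑ _x ∈ IA, (G.natDegree * ((2 * B + 1) / p ^ 2 + 1) : ℝ) := Finset.sum_le_sum e2
      _ = _ := by rw [Finset.sum_const, nsmul_eq_mul, hIAc]; ring
  have hT : (((IA ×ˢ IB).filter (fun z => ((z.1 : ZMod p), (z.2 : ZMod p)) ∈ S)).card : ℝ) ≤
      4 * G.natDegree ^ 2 * ((2 * A + 1) / p + 1) * ((2 * B + 1) / p + 1) := by
    refine (box_set p hpp.pos S A B).trans ?_
    have h5 : (S.card : ℝ) ≤ 4 * G.natDegree ^ 2 := by exact_mod_cast hS1
    gcongr
  linarith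

/-- residues modulo `b` in one class modulo `a` -/
theorem card_class (a b : ℕ) [NeZero b] (h : a ∣ b) (s : ℤ) :
    ((Finset.univ : Finset (ZMod b)).filter (fun y => (a : ℤ) ∣ (y.val : ℤ) - s)).card
      ≤ b / a := by
  rw [← Finset.card_range (b / a)]
  apply Finset.card_le_card_of_injOn (fun y => y.val / a)
  · intro y _
    rw [Finset.coe_range, Set.mem_Iio]
    exact Nat.div_lt_div_of_lt_of_dvd h (ZMod.val_lt y)
  · intro y hy y' hy' he
    rw [Finset.coe_filter, Set.mem_ofPred_eq] at hy hy'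
    apply ZMod.val_injective
    have h1 : (a : ℤ) ∣ (y.val : ℤ) - (y'.val : ℤ) := by
      have := dvd_sub hy.2 hy'.2
      have e : (y.val : ℤ) - s - ((y'.val : ℤ) - s) = (y.val : ℤ) - (y'.val : ℤ) := by ring
      rwa [e] at this
    have h2 : y'.val % a = y.val % a := by
      have := (Int.emod_emod_of_dvd (y.val : ℤ) (dvd_refl (a : ℤ)))
      have h3 : (y'.val : ℤ) ≡ (y.val : ℤ) [ZMOD a] := (Int.modEq_iff_dvd).mpr h1
      exact_mod_cast h3
    have h3 : y.val / a = y'.val / a := he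
    rw [← Nat.div_add_mod y.val a, ← Nat.div_add_mod y'.val a, h3, h2]

theorem rho_eq (G : ℤ[X]) (d : ℕ) [NeZero d] :
    rho G d = ((Finset.univ : Finset (ZMod d × ZMod d)).filter (fun z =>
      (G.map (Int.castRingHom (ZMod d)) + C z.1 * X + C z.2).discr = 0)).card := by
  unfold rho
  rw [Nat.card_eq_fintype_card, Fintype.card_subtype]

theorem disc_val {G : ℤ[X]} (hG : G.Monic) (hn : 2 ≤ G.natDegree) (d : ℕ) [NeZero d]
    (z : ZMod d × ZMod d)
    (h : (G.map (Int.castRingHom (ZMod d)) + C z.1 * X + C z.2).discr = 0) :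
    (d : ℤ) ∣ (fxy G z.1.val z.2.val).discr := by
  have h1 : (fxy G z.1.val z.2.val).map (Int.castRingHom (ZMod d)) =
      G.map (Int.castRingHom (ZMod d)) + C z.1 * X + C z.2 := by
    have h0 : ∀ x : ZMod d, Int.castRingHom (ZMod d) (x.val : ℤ) = x := by
      intro x; simp
    unfold fxy
    rw [Polynomial.map_add, Polynomial.map_add, Polynomial.map_mul, map_C, map_C, map_X, h0, h0]
  rw [← h1, SzSP.discr_map _ (fxy_monic hG hn _ _)] at h
  rw [← ZMod.intCast_zmod_eq_zero_iff_dvd]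
  simpa using h

theorem rho_le_sq (G : ℤ[X]) (d : ℕ) [NeZero d] : rho G d ≤ d ^ 2 := by
  rw [rho_eq]
  refine (Finset.card_filter_le _ _).trans ?_
  rw [Finset.card_univ, Fintype.card_prod, ZMod.card]
  exact (sq d).symm.le

theorem rho_sq {G : ℤ[X]} (hG : G.Monic) (hn : 3 ≤ G.natDegree) (p : ℕ) (hp : p.Prime) (k : ℕ)
    (hk : 2 ≤ k) :
    (rho G (p ^ k) : ℝ) ≤ 5 * G.natDegree ^ 2 / (p : ℝ) ^ 2 * ((p : ℝ) ^ k) ^ 2 := by
  have : Fact p.Prime := ⟨hp⟩
  have : NeZero (p ^ k) := ⟨pow_ne_zero _ hp.ne_zero⟩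
  have hp0 : (0 : ℝ) < p := by exact_mod_cast hp.pos
  set n := G.natDegree with hnn
  have hnR : (3 : ℝ) ≤ n := by exact_mod_cast hn
  rcases Nat.lt_or_ge n p with hnp | hnp
  · -- many primes
    obtain ⟨S, hS1, hS2⟩ := strong_count hG hn p hnp
    have hp1 : p ∣ p ^ k := dvd_pow_self p (by omega)
    have hp2 : p ^ 2 ∣ p ^ k := pow_dvd_pow p hk
    have hsub : (Finset.univ : Finset (ZMod (p ^ k) × ZMod (p ^ k))).filter (fun z =>
        (G.map (Int.castRingHom (ZMod (p ^ k))) + C z.1 * X + C z.2).discr = 0) ⊆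
        (Finset.univ : Finset (ZMod (p ^ k) × ZMod (p ^ k))).filter
          (fun z => Weak p (fxy G z.1.val z.2.val)) ∪
        S.biUnion (fun s => (Finset.univ.filter (fun x : ZMod (p ^ k) =>
            (p : ℤ) ∣ (x.val : ℤ) - (s.1.val : ℤ))) ×ˢ
          (Finset.univ.filter (fun y : ZMod (p ^ k) =>
            (p : ℤ) ∣ (y.val : ℤ) - (s.2.val : ℤ)))) := by
      intro z hz
      rw [Finset.mem_filter] at hz
      have h1 := disc_val hG (by omega) (p ^ k) z hz.2
      have h2 : (p : ℤ) ^ 2 ∣ (fxy G z.1.val z.2.val).discr :=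
        dvd_trans (by exact_mod_cast hp2) h1
      rw [Finset.mem_union]
      rcases wos hG hn p hnp _ _ h2 with h | h
      · left
        rw [Finset.mem_filter]
        exact ⟨Finset.mem_univ _, h⟩
      · right
        rw [Finset.mem_biUnion]
        refine ⟨_, hS2 _ _ h, ?_⟩
        have key : ∀ x : ZMod (p ^ k),
            (p : ℤ) ∣ (x.val : ℤ) - ((((x.val : ℤ) : ZMod p)).val : ℤ) := by
          intro x
          rw [← ZMod.intCast_zmod_eq_zero_iff_dvd]
          simp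
        rw [Finset.mem_product, Finset.mem_filter, Finset.mem_filter]
        exact ⟨⟨Finset.mem_univ _, key _⟩, ⟨Finset.mem_univ _, key _⟩⟩
    have hW : ((Finset.univ : Finset (ZMod (p ^ k) × ZMod (p ^ k))).filter
          (fun z => Weak p (fxy G z.1.val z.2.val))).card ≤ p ^ k * (n * (p ^ k / p ^ 2)) := by
      have e1 : ((Finset.univ : Finset (ZMod (p ^ k) × ZMod (p ^ k))).filter
          (fun z => Weak p (fxy G z.1.val z.2.val))).card =
          ∑ x : ZMod (p ^ k), ((Finset.univ : Finset (ZMod (p ^ k))).filter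
            (fun y => Weak p (fxy G x.val y.val))).card := by
        rw [Finset.card_filter, ← Finset.univ_product_univ, Finset.sum_product]
        apply Finset.sum_congr rfl
        intro x _
        rw [Finset.card_filter]
      rw [e1]
      have e2 : ∀ x ∈ (Finset.univ : Finset (ZMod (p ^ k))),
          ((Finset.univ : Finset (ZMod (p ^ k))).filter
            (fun y => Weak p (fxy G x.val y.val))).card ≤ n * (p ^ k / p ^ 2) := by
        intro x _
        obtain ⟨T, hT1, hT2⟩ := weak_x hG hn p hp hnp x.val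
        have h3 : (Finset.univ : Finset (ZMod (p ^ k))).filter
            (fun y => Weak p (fxy G x.val y.val)) ⊆
            T.biUnion (fun s => Finset.univ.filter (fun y : ZMod (p ^ k) =>
              ((p ^ 2 : ℕ) : ℤ) ∣ (y.val : ℤ) - s)) := by
          intro y hy
          rw [Finset.mem_filter] at hy
          obtain ⟨s, hs, hsy⟩ := hT2 _ hy.2
          rw [Finset.mem_biUnion]
          refine ⟨s, hs, ?_⟩
          rw [Finset.mem_filter]
          refine ⟨Finset.mem_univ _, ?_⟩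
          push_cast
          exact hsy
        refine (Finset.card_le_card h3).trans (Finset.card_biUnion_le.trans ?_)
        calc _ ≤ ∑ _s ∈ T, p ^ k / p ^ 2 :=
              Finset.sum_le_sum (fun s _ => card_class (p ^ 2) (p ^ k) hp2 s)
          _ = T.card * (p ^ k / p ^ 2) := by rw [Finset.sum_const, smul_eq_mul]
          _ ≤ _ := Nat.mul_le_mul_right _ hT1
      refine (Finset.sum_le_sum e2).trans ?_
      rw [Finset.sum_const, Finset.card_univ, ZMod.card, smul_eq_mul]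
    have hT : (S.biUnion (fun s => (Finset.univ.filter (fun x : ZMod (p ^ k) =>
            (p : ℤ) ∣ (x.val : ℤ) - (s.1.val : ℤ))) ×ˢ
          (Finset.univ.filter (fun y : ZMod (p ^ k) =>
            (p : ℤ) ∣ (y.val : ℤ) - (s.2.val : ℤ))))).card ≤
          4 * n ^ 2 * ((p ^ k / p) * (p ^ k / p)) := by
      refine Finset.card_biUnion_le.trans ?_
      calc _ ≤ ∑ _s ∈ S, (p ^ k / p) * (p ^ k / p) := by
            apply Finset.sum_le_sum
            intro s _
            rw [Finset.card_product]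
            exact Nat.mul_le_mul (card_class p (p ^ k) hp1 _)
              (card_class p (p ^ k) hp1 _)
        _ = S.card * ((p ^ k / p) * (p ^ k / p)) := by rw [Finset.sum_const, smul_eq_mul]
        _ ≤ _ := Nat.mul_le_mul_right _ hS1
    have htot : rho G (p ^ k) ≤ p ^ k * (n * (p ^ k / p ^ 2)) +
        4 * n ^ 2 * ((p ^ k / p) * (p ^ k / p)) := by
      rw [rho_eq]
      exact (Finset.card_le_card hsub).trans ((Finset.card_union_le _ _).trans
        (Nat.add_le_add hW hT))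
    have hc1 : ((p ^ k / p ^ 2 : ℕ) : ℝ) = (p : ℝ) ^ k / (p : ℝ) ^ 2 := by
      rw [Nat.cast_div hp2 (by exact_mod_cast (pow_pos hp.pos 2).ne')]
      push_cast
      rfl
    have hc2 : ((p ^ k / p : ℕ) : ℝ) = (p : ℝ) ^ k / (p : ℝ) := by
      rw [Nat.cast_div hp1 (by exact_mod_cast hp.ne_zero)]
      push_cast
      rfl
    have htot' : (rho G (p ^ k) : ℝ) ≤ (p : ℝ) ^ k * (n * ((p : ℝ) ^ k / (p : ℝ) ^ 2)) +
        4 * (n : ℝ) ^ 2 * (((p : ℝ) ^ k / p) * ((p : ℝ) ^ k / p)) := by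
      rw [← hc1, ← hc2]
      exact_mod_cast htot
    refine htot'.trans ?_
    have e5 : (p : ℝ) ^ k * (n * ((p : ℝ) ^ k / (p : ℝ) ^ 2)) +
        4 * (n : ℝ) ^ 2 * (((p : ℝ) ^ k / p) * ((p : ℝ) ^ k / p)) =
        (n + 4 * (n : ℝ) ^ 2) / (p : ℝ) ^ 2 * ((p : ℝ) ^ k) ^ 2 := by
      field_simp
    rw [e5]
    apply mul_le_mul_of_nonneg_right _ (by positivity)
    apply div_le_div_of_nonneg_right _ (by positivity)
    nlinarith
  · have h1 : (rho G (p ^ k) : ℝ) ≤ ((p : ℝ) ^ k) ^ 2 := by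
      exact_mod_cast rho_le_sq G (p ^ k)
    refine h1.trans ?_
    have h2 : 1 ≤ 5 * (n : ℝ) ^ 2 / (p : ℝ) ^ 2 := by
      rw [le_div_iff₀ (by positivity), one_mul]
      have h3 : (p : ℝ) ≤ n := by exact_mod_cast hnp
      nlinarith
    calc ((p : ℝ) ^ k) ^ 2 = 1 * ((p : ℝ) ^ k) ^ 2 := (one_mul _).symm
      _ ≤ _ := mul_le_mul_of_nonneg_right h2 (by positivity)

/-- the number of residues `y` modulo `p^k` with `p^k | P(y)` -/
theorem count_y (P : ℤ[X]) (p : ℕ) (hp : p.Prime) (k e : ℕ) (he : 1 ≤ e) (hek : e ≤ k)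
    (hk : ¬ (p : ℤ) ^ k ∣ P.leadingCoeff * (p : ℤ) ^ (P.natDegree * (e - 1))) [NeZero (p ^ k)] :
    ((Finset.univ : Finset (ZMod (p ^ k))).filter
      (fun y => (p : ℤ) ^ k ∣ P.eval (y.val : ℤ))).card ≤ P.natDegree * (p ^ k / p ^ e) := by
  set Y0 := (Finset.univ : Finset (ZMod (p ^ k))).filter
      (fun y => (p : ℤ) ^ k ∣ P.eval (y.val : ℤ)) with hY0
  set T := Y0.image (fun y => y.val % p ^ e) with hT
  have hsec : ∀ t ∈ T, ∃ y ∈ Y0, y.val % p ^ e = t := by
    intro t ht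
    rw [hT, Finset.mem_image] at ht
    exact ht
  choose g hg1 hg2 using hsec
  set Y := T.attach.image (fun t => ((g t.1 t.2).val : ℤ)) with hY
  have hYc : Y.card = T.card := by
    rw [hY, Finset.card_image_of_injective, Finset.card_attach]
    intro t t' htt
    have h1 : (g t.1 t.2).val = (g t'.1 t'.2).val := Nat.cast_injective (R := ℤ) htt
    apply Subtype.ext
    rw [← hg2 t.1 t.2, ← hg2 t'.1 t'.2, h1]
  have hTc : T.card ≤ P.natDegree := by
    rw [← hYc]
    apply classes P p hp k e he hk Y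
    · intro y hy
      rw [hY, Finset.mem_image] at hy
      obtain ⟨t, _, rfl⟩ := hy
      exact (Finset.mem_filter.mp (hg1 t.1 t.2)).2
    · intro y hy y' hy' hne hdvd
      rw [hY, Finset.mem_image] at hy hy'
      obtain ⟨t, _, rfl⟩ := hy
      obtain ⟨t', _, rfl⟩ := hy'
      apply hne
      have h3 : ((g t'.1 t'.2).val : ℤ) ≡ ((g t.1 t.2).val : ℤ) [ZMOD ((p ^ e : ℕ) : ℤ)] := by
        apply (Int.modEq_iff_dvd).mpr
        push_cast
        exact hdvd
      have h4 : (g t'.1 t'.2).val % p ^ e = (g t.1 t.2).val % p ^ e := by exact_mod_cast h3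
      rw [hg2, hg2] at h4
      have h5 : t' = t := Subtype.ext h4
      rw [h5]
  have hsub : Y0 ⊆ T.biUnion (fun t => Finset.univ.filter (fun y : ZMod (p ^ k) =>
      ((p ^ e : ℕ) : ℤ) ∣ (y.val : ℤ) - ((t : ℕ) : ℤ))) := by
    intro y hy
    rw [Finset.mem_biUnion]
    refine ⟨y.val % p ^ e, Finset.mem_image_of_mem _ hy, ?_⟩
    rw [Finset.mem_filter]
    refine ⟨Finset.mem_univ _, ?_⟩
    have := Nat.mod_add_div y.val (p ^ e)
    refine ⟨((y.val / p ^ e : ℕ) : ℤ), ?_⟩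
    have h6 : (y.val : ℤ) = ((y.val % p ^ e : ℕ) : ℤ) + ((p ^ e : ℕ) : ℤ) *
        ((y.val / p ^ e : ℕ) : ℤ) := by exact_mod_cast this.symm
    linarith
  refine (Finset.card_le_card hsub).trans (Finset.card_biUnion_le.trans ?_)
  calc _ ≤ ∑ _t ∈ T, p ^ k / p ^ e := Finset.sum_le_sum (fun t _ =>
        card_class (p ^ e) (p ^ k) (pow_dvd_pow p hek) _)
    _ = T.card * (p ^ k / p ^ e) := by rw [Finset.sum_const, smul_eq_mul]
    _ ≤ _ := Nat.mul_le_mul_right _ hTc

theorem rho_pow {G : ℤ[X]} (hG : G.Monic) (hn : 3 ≤ G.natDegree) (p : ℕ) (hp : p.Prime) (k : ℕ) :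
    (rho G (p ^ k) : ℝ) ≤ (G.natDegree : ℝ) ^ (G.natDegree + 1) *
      (p : ℝ) ^ (-(k : ℝ) / ((G.natDegree : ℝ) - 1)) * ((p : ℝ) ^ k) ^ 2 := by
  have : Fact p.Prime := ⟨hp⟩
  have : NeZero (p ^ k) := ⟨pow_ne_zero _ hp.ne_zero⟩
  have hp0 : (0 : ℝ) < p := by exact_mod_cast hp.pos
  have hp1 : (1 : ℝ) ≤ p := by exact_mod_cast hp.one_le
  set n := G.natDegree with hnn
  have hnR : (3 : ℝ) ≤ n := by exact_mod_cast hn
  set v := (n ^ n).factorization p with hv
  have hnn0 : n ^ n ≠ 0 := pow_ne_zero _ (by omega)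
  have hpv : p ^ v ≤ n ^ n := Nat.le_of_dvd (Nat.pos_of_ne_zero hnn0) (Nat.ordProj_dvd (n ^ n) p)
  have hpvR : (p : ℝ) ^ v ≤ (n : ℝ) ^ n := by exact_mod_cast hpv
  have hn1 : (0 : ℝ) < (n : ℝ) - 1 := by linarith
  rcases Nat.lt_or_ge v k with hkv | hkv
  · -- `k > v`
    set e := 1 + (k - v - 1) / (n - 1) with he
    have he1 : 1 ≤ e := Nat.le_add_right 1 _
    have hdiv1 : (k - v - 1) / (n - 1) ≤ k - v - 1 := Nat.div_le_self _ _
    have hek : e ≤ k := by omega
    have hmul : (n - 1) * ((k - v - 1) / (n - 1)) ≤ k - v - 1 := Nat.mul_div_le _ _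
    have hcount : ∀ x : ZMod (p ^ k), ((Finset.univ : Finset (ZMod (p ^ k))).filter
        (fun y => (G.map (Int.castRingHom (ZMod (p ^ k))) + C x * X + C y).discr = 0)).card ≤
          (n - 1) * (p ^ k / p ^ e) := by
      intro x
      obtain ⟨P, hP1, hP2, hP3, _⟩ := exists_ypol (lin_monic hG (by omega) (x.val : ℤ))
        (by rw [lin_natDegree hG (by omega)]; omega)
      rw [lin_natDegree hG (by omega)] at hP1 hP2
      have hnk : ¬ (p : ℤ) ^ k ∣ P.leadingCoeff * (p : ℤ) ^ (P.natDegree * (e - 1)) := by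
        rw [hP1, hP2]
        intro hc
        have h1 : (p : ℤ) ^ k ∣ ((n : ℤ) ^ n) * (p : ℤ) ^ ((n - 1) * (e - 1)) := by
          have : (p : ℤ) ^ k ∣ (-1) ^ (n * (n - 1) / 2) *
              ((-1) ^ (n * (n - 1) / 2) * (n : ℤ) ^ n * (p : ℤ) ^ ((n - 1) * (e - 1))) :=
            Dvd.dvd.mul_left hc _
          have e2 : (-1 : ℤ) ^ (n * (n - 1) / 2) * ((-1) ^ (n * (n - 1) / 2) * (n : ℤ) ^ n *
              (p : ℤ) ^ ((n - 1) * (e - 1))) =
              ((-1) ^ (n * (n - 1) / 2)) ^ 2 * ((n : ℤ) ^ n * (p : ℤ) ^ ((n - 1) * (e - 1))) := by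
            ring
          rw [e2, ← pow_mul, mul_comm (n * (n - 1) / 2) 2, pow_mul] at this
          simpa using this
        have h2 : p ^ k ∣ n ^ n * p ^ ((n - 1) * (e - 1)) := by exact_mod_cast h1
        have h3 : k ≤ (n ^ n * p ^ ((n - 1) * (e - 1))).factorization p :=
          (hp.pow_dvd_iff_le_factorization
            (mul_ne_zero hnn0 (pow_ne_zero _ hp.ne_zero))).mp h2
        rw [Nat.factorization_mul hnn0 (pow_ne_zero _ hp.ne_zero), Finsupp.add_apply,
          hp.factorization_pow, Finsupp.single_eq_same, ← hv] at h3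
        have h4 : e - 1 = (k - v - 1) / (n - 1) := by omega
        rw [h4] at h3
        omega
      have h5 := count_y P p hp k e he1 hek hnk
      rw [hP1] at h5
      refine le_trans (Finset.card_le_card ?_) h5
      intro y hy
      rw [Finset.mem_filter] at hy ⊢
      refine ⟨Finset.mem_univ _, ?_⟩
      have h6 := disc_val hG (by omega) (p ^ k) (x, y) hy.2
      rw [← hP3]
      push_cast at h6
      exact h6
    have htot : rho G (p ^ k) ≤ p ^ k * ((n - 1) * (p ^ k / p ^ e)) := by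
      rw [rho_eq]
      have e1 : ((Finset.univ : Finset (ZMod (p ^ k) × ZMod (p ^ k))).filter (fun z =>
          (G.map (Int.castRingHom (ZMod (p ^ k))) + C z.1 * X + C z.2).discr = 0)).card =
          ∑ x : ZMod (p ^ k), ((Finset.univ : Finset (ZMod (p ^ k))).filter
            (fun y => (G.map (Int.castRingHom (ZMod (p ^ k))) + C x * X + C y).discr = 0)).card := by
        rw [Finset.card_filter, ← Finset.univ_product_univ, Finset.sum_product]
        apply Finset.sum_congr rfl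
        intro x _
        rw [Finset.card_filter]
      rw [e1]
      refine (Finset.sum_le_sum (fun x _ => hcount x)).trans ?_
      rw [Finset.sum_const, Finset.card_univ, ZMod.card, smul_eq_mul]
    have hc1 : ((p ^ k / p ^ e : ℕ) : ℝ) = (p : ℝ) ^ k / (p : ℝ) ^ e := by
      rw [Nat.cast_div (pow_dvd_pow p hek) (by exact_mod_cast (pow_pos hp.pos e).ne')]
      push_cast
      rfl
    have hc2 : ((n - 1 : ℕ) : ℝ) = (n : ℝ) - 1 := by
      rw [Nat.cast_sub (by omega)]; simp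
    have htot' : (rho G (p ^ k) : ℝ) ≤
        (p : ℝ) ^ k * (((n : ℝ) - 1) * ((p : ℝ) ^ k / (p : ℝ) ^ e)) := by
      rw [← hc1, ← hc2]
      exact_mod_cast htot
    refine htot'.trans ?_
    have hegt : ((k : ℝ) - v) / ((n : ℝ) - 1) ≤ e := by
      rw [div_le_iff₀ hn1, ← hc2]
      have h7 : k - v ≤ e * (n - 1) := by
        have h8 := Nat.lt_mul_div_succ (k - v - 1) (show 0 < n - 1 by omega)
        have h9 : (n - 1) * ((k - v - 1) / (n - 1) + 1) = e * (n - 1) := by rw [he]; ring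
        omega
      have h8 : ((k - v : ℕ) : ℝ) = (k : ℝ) - v := by
        rw [Nat.cast_sub hkv.le]
      rw [← h8]
      exact_mod_cast h7
    have h10 : (1 : ℝ) / (p : ℝ) ^ e ≤
        (p : ℝ) ^ ((v : ℝ) / ((n : ℝ) - 1)) * (p : ℝ) ^ (-(k : ℝ) / ((n : ℝ) - 1)) := by
      rw [← Real.rpow_add hp0, one_div, ← Real.rpow_natCast, ← Real.rpow_neg hp0.le]
      apply Real.rpow_le_rpow_of_exponent_le hp1
      have : (v : ℝ) / ((n : ℝ) - 1) + -(k : ℝ) / ((n : ℝ) - 1) =
          -(((k : ℝ) - v) / ((n : ℝ) - 1)) := by ring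
      rw [this]
      linarith
    have h11 : (p : ℝ) ^ ((v : ℝ) / ((n : ℝ) - 1)) ≤ (n : ℝ) ^ n := by
      have h12 : (p : ℝ) ^ ((v : ℝ) / ((n : ℝ) - 1)) ≤ (p : ℝ) ^ (v : ℝ) := by
        apply Real.rpow_le_rpow_of_exponent_le hp1
        apply div_le_self (by positivity)
        linarith
      rw [Real.rpow_natCast] at h12
      exact h12.trans hpvR
    have hq0 : 0 ≤ (p : ℝ) ^ (-(k : ℝ) / ((n : ℝ) - 1)) := Real.rpow_nonneg hp0.le _
    have h13 : (1 : ℝ) / (p : ℝ) ^ e ≤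
        (n : ℝ) ^ n * (p : ℝ) ^ (-(k : ℝ) / ((n : ℝ) - 1)) :=
      h10.trans (mul_le_mul_of_nonneg_right h11 hq0)
    calc (p : ℝ) ^ k * (((n : ℝ) - 1) * ((p : ℝ) ^ k / (p : ℝ) ^ e))
        = ((n : ℝ) - 1) * (1 / (p : ℝ) ^ e) * ((p : ℝ) ^ k) ^ 2 := by ring
      _ ≤ (n : ℝ) * ((n : ℝ) ^ n * (p : ℝ) ^ (-(k : ℝ) / ((n : ℝ) - 1))) *
            ((p : ℝ) ^ k) ^ 2 := by
          apply mul_le_mul_of_nonneg_right _ (by positivity)
          apply mul_le_mul (by linarith) h13 (by positivity) (by positivity)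
      _ = _ := by rw [pow_succ]; ring
  · have h1 : (rho G (p ^ k) : ℝ) ≤ ((p : ℝ) ^ k) ^ 2 := by
      exact_mod_cast rho_le_sq G (p ^ k)
    refine h1.trans ?_
    have h2 : 1 ≤ (n : ℝ) ^ (n + 1) * (p : ℝ) ^ (-(k : ℝ) / ((n : ℝ) - 1)) := by
      have h3 : (p : ℝ) ^ ((k : ℝ) / ((n : ℝ) - 1)) ≤ (n : ℝ) ^ (n + 1) := by
        calc (p : ℝ) ^ ((k : ℝ) / ((n : ℝ) - 1)) ≤ (p : ℝ) ^ (k : ℝ) := by
              apply Real.rpow_le_rpow_of_exponent_le hp1
              apply div_le_self (by positivity)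
              linarith
          _ = (p : ℝ) ^ k := Real.rpow_natCast _ _
          _ ≤ (p : ℝ) ^ v := pow_le_pow_right₀ hp1 hkv
          _ ≤ (n : ℝ) ^ n := hpvR
          _ ≤ _ := pow_le_pow_right₀ (by linarith) (by omega)
      have h4 : (p : ℝ) ^ ((k : ℝ) / ((n : ℝ) - 1)) * (p : ℝ) ^ (-(k : ℝ) / ((n : ℝ) - 1)) = 1 := by
        rw [← Real.rpow_add hp0]
        have : (k : ℝ) / ((n : ℝ) - 1) + -(k : ℝ) / ((n : ℝ) - 1) = 0 := by ring
        rw [this, Real.rpow_zero]
      calc (1 : ℝ) = (p : ℝ) ^ ((k : ℝ) / ((n : ℝ) - 1)) *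
            (p : ℝ) ^ (-(k : ℝ) / ((n : ℝ) - 1)) := h4.symm
        _ ≤ _ := mul_le_mul_of_nonneg_right h3 (Real.rpow_nonneg hp0.le _)
    calc ((p : ℝ) ^ k) ^ 2 = 1 * ((p : ℝ) ^ k) ^ 2 := (one_mul _).symm
      _ ≤ _ := mul_le_mul_of_nonneg_right h2 (by positivity)

end SzC2
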