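import Pool.Agent.SzC2.Defs

/-!
The number of pairs modulo `d`: multiplicativity, boxes.
-/

open Polynomial
open scoped Classical

namespace SzC2

/-- the polynomial modulo `d` attached to a pair -/
private noncomputable def fz (G : ℤ[X]) (d : ℕ) (z : ZMod d × ZMod d) : (ZMod d)[X] :=
  G.map (Int.castRingHom (ZMod d)) + C z.1 * X + C z.2

private lemma fz_monic (G : ℤ[X]) (hG : G.Monic) (hn : 2 ≤ G.natDegree) (d : ℕ)
    (z : ZMod d × ZMod d) : (fz G d z).Monic := by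
  unfold fz
  by_cases hd : d = 1
  · subst hd
    exact Subsingleton.elim _ _
  · haveI : Nontrivial (ZMod d) := by
      rw [ZMod.nontrivial_iff]; exact hd
    rw [add_assoc]
    refine (hG.map _).add_of_left ?_
    have h1 : (C z.1 * X + C z.2).degree ≤ 1 := degree_linear_le
    refine lt_of_le_of_lt h1 ?_
    rw [hG.degree_map, degree_eq_natDegree hG.ne_zero]
    exact_mod_cast (by omega : 1 < G.natDegree)

private lemma rho_eq (G : ℤ[X]) (d : ℕ) :
    rho G d = Nat.card {z : ZMod d × ZMod d // (fz G d z).discr = 0} := rfl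

theorem rho_one (G : ℤ[X]) : rho G 1 = 1 := by
  rw [rho_eq]
  haveI : Unique {z : ZMod 1 × ZMod 1 // (fz G 1 z).discr = 0} :=
    { default := ⟨(0, 0), Subsingleton.elim _ _⟩
      uniq := fun z => Subtype.ext (Subsingleton.elim _ _) }
  exact Nat.card_unique

theorem rho_mul (G : ℤ[X]) (hG : G.Monic) (hn : 2 ≤ G.natDegree) {a b : ℕ} (ha : 0 < a)
    (hb : 0 < b) (h : a.Coprime b) : rho G (a * b) = rho G a * rho G b := by
  rw [rho_eq, rho_eq, rho_eq, ← Nat.card_prod]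
  let e : ZMod (a * b) ≃+* ZMod a × ZMod b := ZMod.chineseRemainder h
  let φa : ZMod (a * b) →+* ZMod a := (RingHom.fst (ZMod a) (ZMod b)).comp (e : ZMod (a * b) →+* _)
  let φb : ZMod (a * b) →+* ZMod b := (RingHom.snd (ZMod a) (ZMod b)).comp (e : ZMod (a * b) →+* _)
  let E : (ZMod (a * b) × ZMod (a * b)) ≃ (ZMod a × ZMod a) × (ZMod b × ZMod b) :=
    (e.toEquiv.prodCongr e.toEquiv).trans (Equiv.prodProdProdComm _ _ _ _)
  have hmapa : ∀ z : ZMod (a * b) × ZMod (a * b),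
      (fz G (a * b) z).map φa = fz G a (E z).1 := by
    intro z
    unfold fz
    rw [Polynomial.map_add, Polynomial.map_add, Polynomial.map_mul, map_C, map_C, map_X, map_map]
    congr 3
    exact RingHom.ext_int _ _
  have hmapb : ∀ z : ZMod (a * b) × ZMod (a * b),
      (fz G (a * b) z).map φb = fz G b (E z).2 := by
    intro z
    unfold fz
    rw [Polynomial.map_add, Polynomial.map_add, Polynomial.map_mul, map_C, map_C, map_X, map_map]
    congr 3
    exact RingHom.ext_int _ _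
  have key : ∀ z : ZMod (a * b) × ZMod (a * b),
      (fz G (a * b) z).discr = 0 ↔ (fz G a (E z).1).discr = 0 ∧ (fz G b (E z).2).discr = 0 := by
    intro z
    rw [← hmapa, ← hmapb, SzSP.discr_map _ (fz_monic G hG hn _ z),
      SzSP.discr_map _ (fz_monic G hG hn _ z)]
    constructor
    · intro h0
      rw [h0, map_zero, map_zero]
      exact ⟨rfl, rfl⟩
    · rintro ⟨h1, h2⟩
      have h3 : e (fz G (a * b) z).discr = 0 := Prod.ext h1 h2
      exact (map_eq_zero_iff e e.injective).mp h3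
  refine Nat.card_congr ?_
  exact (Equiv.subtypeEquiv E key).trans
    (Equiv.subtypeProdEquivProd (p := fun u => (fz G a u).discr = 0)
      (q := fun v => (fz G b v).discr = 0))

private lemma res_count (d : ℕ) (hd : 0 < d) (s : ℤ) (B : ℕ) :
    (((Finset.Icc (-(B : ℤ)) B).filter (fun y => (d : ℤ) ∣ y - s)).card : ℝ)
      ≤ (2 * B + 1) / d + 1 := by
  have hd' : (0 : ℤ) < d := by exact_mod_cast hd
  have h1 : (Finset.Icc (-(B : ℤ)) B).filter (fun y => (d : ℤ) ∣ y - s) =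
      (Finset.Ioc (-(B : ℤ) - 1) B).filter (fun y => y ≡ s [ZMOD d]) := by
    ext y
    simp only [Finset.mem_filter, Finset.mem_Icc, Finset.mem_Ioc]
    rw [Int.modEq_comm, Int.modEq_iff_dvd]
    constructor
    · rintro ⟨⟨h1, h2⟩, h3⟩
      exact ⟨⟨by omega, h2⟩, h3⟩
    · rintro ⟨⟨h1, h2⟩, h3⟩
      exact ⟨⟨by omega, h2⟩, h3⟩
  rw [h1]
  have h2 := Int.Ioc_filter_modEq_card (-(B : ℤ) - 1) B hd' s
  have hdr : (0 : ℝ) < d := by exact_mod_cast hd
  have hdq : (0 : ℚ) < d := by exact_mod_cast hd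
  have h3 : (((max (⌊((B : ℤ) - s : ℚ) / ((d : ℤ) : ℚ)⌋ -
      ⌊(((-(B : ℤ) - 1 : ℤ) : ℚ) - s) / ((d : ℤ) : ℚ)⌋) 0 : ℤ) : ℚ)) ≤ (2 * B + 1) / d + 1 := by
    rw [Int.cast_max]
    refine max_le ?_ ?_
    · push_cast
      have h4 := Int.floor_le (((B : ℚ) - s) / (d : ℚ))
      have h5 := Int.lt_floor_add_one ((-(B : ℚ) - 1 - s) / (d : ℚ))
      have h6 : ((B : ℚ) - s) / d - (-(B : ℚ) - 1 - s) / d = (2 * B + 1) / d := by
        field_simp; ring
      linarith
    · push_cast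
      positivity
  have h7 : (((((Finset.Ioc (-(B : ℤ) - 1) B).filter (fun y => y ≡ s [ZMOD d])).card : ℤ) : ℚ))
      ≤ (2 * B + 1) / d + 1 := by
    rw [h2]
    exact_mod_cast h3
  have h8 : ((((((Finset.Ioc (-(B : ℤ) - 1) B).filter (fun y => y ≡ s [ZMOD d])).card : ℤ) : ℚ)
      : ℚ) : ℝ) ≤ (((2 * B + 1) / d + 1 : ℚ) : ℝ) := by exact_mod_cast h7
  push_cast at h8
  exact h8

private lemma zmod_iff (d : ℕ) (y s : ℤ) : ((y : ZMod d) = (s : ZMod d)) ↔ (d : ℤ) ∣ y - s := by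
  rw [eq_comm, ZMod.intCast_eq_intCast_iff_dvd_sub]

/-- a set of pairs modulo `d` in a box -/
theorem box_set (d : ℕ) (hd : 0 < d) (S : Finset (ZMod d × ZMod d)) (A B : ℕ) :
    (((Finset.Icc (-(A : ℤ)) A ×ˢ Finset.Icc (-(B : ℤ)) B).filter
      (fun z => ((z.1 : ZMod d), (z.2 : ZMod d)) ∈ S)).card : ℝ)
      ≤ S.card * ((2 * A + 1) / d + 1) * ((2 * B + 1) / d + 1) := by
  haveI : NeZero d := ⟨hd.ne'⟩
  have hsub : (Finset.Icc (-(A : ℤ)) A ×ˢ Finset.Icc (-(B : ℤ)) B).filter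
      (fun z => ((z.1 : ZMod d), (z.2 : ZMod d)) ∈ S) ⊆
      S.biUnion (fun s => ((Finset.Icc (-(A : ℤ)) A).filter
        (fun y => (d : ℤ) ∣ y - (s.1.val : ℤ))) ×ˢ
        ((Finset.Icc (-(B : ℤ)) B).filter (fun y => (d : ℤ) ∣ y - (s.2.val : ℤ)))) := by
    intro z hz
    rw [Finset.mem_filter, Finset.mem_product] at hz
    rw [Finset.mem_biUnion]
    refine ⟨_, hz.2, ?_⟩
    rw [Finset.mem_product, Finset.mem_filter, Finset.mem_filter]
    refine ⟨⟨hz.1.1, ?_⟩, ⟨hz.1.2, ?_⟩⟩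
    · rw [← zmod_iff]; simp
    · rw [← zmod_iff]; simp
  have h1 := (Finset.card_le_card hsub).trans Finset.card_biUnion_le
  have h2 : (((Finset.Icc (-(A : ℤ)) A ×ˢ Finset.Icc (-(B : ℤ)) B).filter
      (fun z => ((z.1 : ZMod d), (z.2 : ZMod d)) ∈ S)).card : ℝ) ≤
      ((∑ s ∈ S, (((Finset.Icc (-(A : ℤ)) A).filter
        (fun y => (d : ℤ) ∣ y - (s.1.val : ℤ))) ×ˢ
        ((Finset.Icc (-(B : ℤ)) B).filter (fun y => (d : ℤ) ∣ y - (s.2.val : ℤ)))).card : ℕ) : ℝ) :=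
    by exact_mod_cast h1
  refine h2.trans ?_
  push_cast
  have h3 : ∀ s ∈ S, ((((Finset.Icc (-(A : ℤ)) A).filter
        (fun y => (d : ℤ) ∣ y - (s.1.val : ℤ))) ×ˢ
        ((Finset.Icc (-(B : ℤ)) B).filter (fun y => (d : ℤ) ∣ y - (s.2.val : ℤ)))).card : ℝ) ≤
        ((2 * A + 1) / d + 1) * ((2 * B + 1) / d + 1) := by
    intro s _
    rw [Finset.card_product]
    push_cast
    exact mul_le_mul (res_count d hd _ A) (res_count d hd _ B) (by positivity) (by positivity)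
  refine (Finset.sum_le_sum h3).trans ?_
  rw [Finset.sum_const, nsmul_eq_mul, mul_assoc]

/-- pairs of a box with `d | disc` -/
theorem box_count (G : ℤ[X]) (hG : G.Monic) (hn : 2 ≤ G.natDegree) (d : ℕ) (hd : 0 < d)
    (A B : ℕ) :
    (((Finset.Icc (-(A : ℤ)) A ×ˢ Finset.Icc (-(B : ℤ)) B).filter
      (fun z => (d : ℤ) ∣ (fxy G z.1 z.2).discr)).card : ℝ)
      ≤ rho G d * ((2 * A + 1) / d + 1) * ((2 * B + 1) / d + 1) := by
  haveI : NeZero d := ⟨hd.ne'⟩
  have hmon : ∀ x y : ℤ, (fxy G x y).Monic := by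
    intro x y
    unfold fxy
    rw [add_assoc]
    refine hG.add_of_left ?_
    have h1 : (C x * X + C y : ℤ[X]).degree ≤ 1 := degree_linear_le
    refine lt_of_le_of_lt h1 ?_
    rw [degree_eq_natDegree hG.ne_zero]
    exact_mod_cast (by omega : 1 < G.natDegree)
  have hmap : ∀ x y : ℤ, (fxy G x y).map (Int.castRingHom (ZMod d)) =
      fz G d ((x : ZMod d), (y : ZMod d)) := by
    intro x y
    unfold fxy fz
    rw [Polynomial.map_add, Polynomial.map_add, Polynomial.map_mul, map_C, map_C, map_X]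
    simp
  have hiff : ∀ x y : ℤ, (d : ℤ) ∣ (fxy G x y).discr ↔
      (fz G d ((x : ZMod d), (y : ZMod d))).discr = 0 := by
    intro x y
    rw [← hmap, SzSP.discr_map _ (hmon x y)]
    rw [eq_intCast, ZMod.intCast_zmod_eq_zero_iff_dvd]
  have hS : rho G d = ((Finset.univ : Finset (ZMod d × ZMod d)).filter
      (fun z => (fz G d z).discr = 0)).card := by
    rw [rho_eq, Nat.card_eq_fintype_card, Fintype.card_subtype]
  have h1 : (Finset.Icc (-(A : ℤ)) A ×ˢ Finset.Icc (-(B : ℤ)) B).filter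
      (fun z => (d : ℤ) ∣ (fxy G z.1 z.2).discr) =
      (Finset.Icc (-(A : ℤ)) A ×ˢ Finset.Icc (-(B : ℤ)) B).filter
      (fun z => ((z.1 : ZMod d), (z.2 : ZMod d)) ∈
        (Finset.univ : Finset (ZMod d × ZMod d)).filter (fun z => (fz G d z).discr = 0)) := by
    refine Finset.filter_congr fun z _ => ?_
    rw [Finset.mem_filter, hiff]
    simp
  rw [h1, hS]
  exact box_set d hd _ A B

/-- classes modulo `d` in an interval -/
theorem int_set (d : ℕ) (hd : 0 < d) (S : Finset ℤ) (B : ℕ) :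
    (((Finset.Icc (-(B : ℤ)) B).filter (fun y => ∃ s ∈ S, (d : ℤ) ∣ y - s)).card : ℝ)
      ≤ S.card * ((2 * B + 1) / d + 1) := by
  have hsub : (Finset.Icc (-(B : ℤ)) B).filter (fun y => ∃ s ∈ S, (d : ℤ) ∣ y - s) ⊆
      S.biUnion (fun s => (Finset.Icc (-(B : ℤ)) B).filter (fun y => (d : ℤ) ∣ y - s)) := by
    intro y hy
    rw [Finset.mem_filter] at hy
    obtain ⟨h1, s, hs, h2⟩ := hy
    rw [Finset.mem_biUnion]
    exact ⟨s, hs, Finset.mem_filter.mpr ⟨h1, h2⟩⟩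
  have h1 := (Finset.card_le_card hsub).trans Finset.card_biUnion_le
  have h2 : (((Finset.Icc (-(B : ℤ)) B).filter (fun y => ∃ s ∈ S, (d : ℤ) ∣ y - s)).card : ℝ) ≤
      ((∑ s ∈ S, ((Finset.Icc (-(B : ℤ)) B).filter (fun y => (d : ℤ) ∣ y - s)).card : ℕ) : ℝ) := by
    exact_mod_cast h1
  refine h2.trans ?_
  push_cast
  refine (Finset.sum_le_sum fun s _ => res_count d hd s B).trans ?_
  rw [Finset.sum_const, nsmul_eq_mul]

end SzC2
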