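import Pool.Agent.SzC2.Defs

/-!
Two facts on polynomials used in `SzC2/Strong`: the degree of the resultant of two polynomials
over a polynomial ring, and the small number of double points of the curve of double roots.
-/

open Polynomial
open scoped Classical

namespace SzC2

/-- degree of the resultant of two polynomials over a polynomial ring -/
theorem resultant_natDegree_le {K : Type*} [Field K] (A B : K[X][X]) (a b e : ℕ)
    (hA : ∀ i, (A.coeff i).natDegree ≤ e) (hB : ∀ i, (B.coeff i).natDegree ≤ e) :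
    (resultant A B a b).natDegree ≤ (a + b) * e := by
  have hent : ∀ i j, ((sylvester A B a b) i j).natDegree ≤ e := by
    intro i j
    induction j using Fin.addCases with
    | left j =>
      simp only [sylvester, Matrix.of_apply, Fin.addCases_left]
      split_ifs
      · exact hB _
      · simp
    | right j =>
      simp only [sylvester, Matrix.of_apply, Fin.addCases_right]
      split_ifs
      · exact hA _
      · simp
  rw [resultant, Matrix.det_apply']
  refine natDegree_sum_le_of_forall_le _ _ (fun σ _ => ?_)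
  refine natDegree_mul_le.trans ?_
  rw [natDegree_intCast, zero_add]
  refine (natDegree_prod_le _ _).trans ?_
  refine (Finset.sum_le_sum fun i _ => hent _ _).trans ?_
  simp

section AB

variable {S T : Type*} [CommRing S] [CommRing T]

/-- the quotient `(f'(X) - f'(1)) / (X - 1)`, `f = ∑ a i X ^ i` -/
noncomputable def AA (a : ℕ → S) (n : ℕ) : S[X] :=
  ∑ i ∈ Finset.range (n + 1), C (a i * (i : S)) * ∑ j ∈ Finset.range (i - 1), X ^ j

/-- the quotient `(f(X) - f(1) - f'(1) (X - 1)) / (X - 1) ^ 2`, `f = ∑ a i X ^ i` -/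
noncomputable def BB (a : ℕ → S) (n : ℕ) : S[X] :=
  ∑ i ∈ Finset.range (n + 1), C (a i) * ∑ j ∈ Finset.range i, ∑ l ∈ Finset.range j, X ^ l

lemma AA_map (φ : S →+* T) (a : ℕ → S) (n : ℕ) : (AA a n).map φ = AA (fun i => φ (a i)) n := by
  simp [AA, Polynomial.map_sum]

lemma BB_map (φ : S →+* T) (a : ℕ → S) (n : ℕ) : (BB a n).map φ = BB (fun i => φ (a i)) n := by
  simp [BB, Polynomial.map_sum]

lemma coeff_geom (k l : ℕ) : (∑ j ∈ Finset.range k, (X : S[X]) ^ j).coeff l =
    if l < k then 1 else 0 := by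
  simp [coeff_X_pow]

lemma coeff_AA (a : ℕ → S) (n l : ℕ) : (AA a n).coeff l =
    ∑ i ∈ Finset.range (n + 1), if l < i - 1 then a i * (i : S) else 0 := by
  rw [AA, finsetSum_coeff]
  refine Finset.sum_congr rfl fun i _ => ?_
  rw [coeff_C_mul, coeff_geom]
  split_ifs <;> simp

lemma coeff_BB (a : ℕ → S) (n l : ℕ) : (BB a n).coeff l =
    ∑ i ∈ Finset.range (n + 1), ∑ j ∈ Finset.range i, if l < j then a i else 0 := by
  rw [BB, finsetSum_coeff]
  refine Finset.sum_congr rfl fun i _ => ?_
  rw [coeff_C_mul, finsetSum_coeff, Finset.mul_sum]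
  refine Finset.sum_congr rfl fun j _ => ?_
  rw [coeff_geom]
  split_ifs <;> simp

lemma natDegree_AA_le (a : ℕ → S) (n : ℕ) : (AA a n).natDegree ≤ n - 2 := by
  rw [natDegree_le_iff_coeff_eq_zero]
  intro l hl
  rw [coeff_AA]
  refine Finset.sum_eq_zero fun i hi => ?_
  rw [Finset.mem_range] at hi
  rw [if_neg (by omega)]

lemma natDegree_BB_le (a : ℕ → S) (n : ℕ) : (BB a n).natDegree ≤ n - 2 := by
  rw [natDegree_le_iff_coeff_eq_zero]
  intro l hl
  rw [coeff_BB]
  refine Finset.sum_eq_zero fun i hi => Finset.sum_eq_zero fun j hj => ?_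
  rw [Finset.mem_range] at hi hj
  rw [if_neg (by omega)]

lemma coeff_AA_top (a : ℕ → S) {n : ℕ} (hn : 3 ≤ n) : (AA a n).coeff (n - 2) = a n * (n : S) := by
  rw [coeff_AA, Finset.sum_range_succ, Finset.sum_eq_zero, zero_add, if_pos (by omega)]
  intro i hi
  rw [Finset.mem_range] at hi
  rw [if_neg (by omega)]

lemma coeff_BB_top (a : ℕ → S) {n : ℕ} (hn : 3 ≤ n) : (BB a n).coeff (n - 2) = a n := by
  obtain ⟨k, rfl⟩ : ∃ k, n = k + 1 := ⟨n - 1, by omega⟩
  rw [coeff_BB, Finset.sum_range_succ, Finset.sum_eq_zero, zero_add, Finset.sum_range_succ,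
    Finset.sum_eq_zero, zero_add, if_pos (by omega)]
  · intro j hj
    rw [Finset.mem_range] at hj
    rw [if_neg (by omega)]
  · intro i hi
    rw [Finset.mem_range] at hi
    refine Finset.sum_eq_zero fun j hj => ?_
    rw [Finset.mem_range] at hj
    rw [if_neg (by omega)]

lemma eval_AA (a : ℕ → S) (n : ℕ) (x : S) : (AA a n).eval x * (x - 1) =
    ∑ i ∈ Finset.range (n + 1), a i * (i : S) * (x ^ (i - 1) - 1) := by
  rw [AA, eval_finsetSum, Finset.sum_mul]
  refine Finset.sum_congr rfl fun i _ => ?_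
  rw [eval_mul, eval_C, eval_geom_sum, mul_assoc, geom_sum_mul]

lemma eval_BB (a : ℕ → S) (n : ℕ) (x : S) : (BB a n).eval x * (x - 1) ^ 2 =
    ∑ i ∈ Finset.range (n + 1), a i * (x ^ i - 1 - (i : S) * (x - 1)) := by
  rw [BB, eval_finsetSum, Finset.sum_mul]
  refine Finset.sum_congr rfl fun i _ => ?_
  rw [eval_mul, eval_C, eval_finsetSum, mul_assoc]
  congr 1
  have h : ∀ j ∈ Finset.range i, (∑ l ∈ Finset.range j, (X : S[X]) ^ l).eval x * (x - 1) =
      x ^ j - 1 := by
    intro j _
    rw [eval_geom_sum, geom_sum_mul]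
  rw [pow_two, ← mul_assoc, Finset.sum_mul, Finset.sum_congr rfl h, Finset.sum_sub_distrib,
    sub_mul, geom_sum_mul]
  simp

end AB

section K

variable {K : Type*} [Field K]

lemma natDegree_AA {a : ℕ → K} {n : ℕ} (hn : 3 ≤ n) (ha : a n = 1) (h1 : (n : K) ≠ 0) :
    (AA a n).natDegree = n - 2 :=
  natDegree_eq_of_le_of_coeff_ne_zero (natDegree_AA_le a n)
    (by rw [coeff_AA_top a hn, ha, one_mul]; exact h1)

lemma natDegree_BB {a : ℕ → K} {n : ℕ} (hn : 3 ≤ n) (ha : a n = 1) :
    (BB a n).natDegree = n - 2 :=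
  natDegree_eq_of_le_of_coeff_ne_zero (natDegree_BB_le a n)
    (by rw [coeff_BB_top a hn, ha]; exact one_ne_zero)

/-- the resultant vanishes iff there is a common root -/
lemma resultant_AB [IsAlgClosed K] {a : ℕ → K} {n : ℕ} (hn : 3 ≤ n) (ha : a n = 1)
    (h1 : (n : K) ≠ 0) :
    resultant (AA a n) (BB a n) (n - 2) (n - 2) = 0 ↔
      ∃ x : K, (AA a n).eval x = 0 ∧ (BB a n).eval x = 0 := by
  have e1 := natDegree_AA hn ha h1
  have e2 := natDegree_BB hn ha
  have hA : AA a n ≠ 0 := by
    intro h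
    have := coeff_AA_top a hn
    rw [h, ha, coeff_zero, one_mul] at this
    exact h1 this.symm
  have h := resultant_eq_zero_iff (f := AA a n) (g := BB a n)
  rw [e1, e2] at h
  rw [h, isCoprime_iff_aeval_ne_zero_of_isAlgClosed K K]
  constructor
  · rintro ⟨-, h⟩
    push Not at h
    obtain ⟨x, hx1, hx2⟩ := h
    exact ⟨x, by simpa using hx1, by simpa using hx2⟩
  · rintro ⟨x, hx1, hx2⟩
    refine ⟨Or.inl hA, ?_⟩
    push Not
    exact ⟨x, by simpa using hx1, by simpa using hx2⟩

lemma no_common_root {a : ℕ → K} {n : ℕ} (hn : 3 ≤ n) (ha : a n = 1)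
    (ha0 : ∀ i < n, a i = 0) (h1 : (n : K) ≠ 0) (h2 : ((n - 1 : ℕ) : K) ≠ 0) (x : K)
    (hA : (AA a n).eval x = 0) (hB : (BB a n).eval x = 0) : False := by
  have cast1 : ((n - 1 : ℕ) : K) = (n : K) - 1 := by
    rw [Nat.cast_sub (by omega)]; simp
  by_cases hx : x = 1
  · subst hx
    rw [AA, Finset.sum_range_succ, Finset.sum_eq_zero, zero_add] at hA
    · rw [ha, one_mul, eval_mul, eval_C, eval_geom_sum] at hA
      simp only [one_pow, Finset.sum_const, Finset.card_range, nsmul_eq_mul, mul_one] at hA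
      rcases mul_eq_zero.1 hA with h | h
      · exact h1 h
      · exact h2 h
    · intro i hi
      rw [ha0 i (Finset.mem_range.1 hi)]
      simp
  · have hA' := eval_AA a n x
    have hB' := eval_BB a n x
    rw [hA, zero_mul, Finset.sum_range_succ, Finset.sum_eq_zero, zero_add, ha, one_mul] at hA'
    · rw [hB, zero_mul, Finset.sum_range_succ, Finset.sum_eq_zero, zero_add, ha, one_mul] at hB'
      · rcases mul_eq_zero.1 hA'.symm with h | h
        · exact h1 h
        · obtain ⟨k, rfl⟩ : ∃ k, n = k + 1 := ⟨n - 1, by omega⟩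
          rw [Nat.add_sub_cancel] at h h2
          have h3 : x ^ k = 1 := sub_eq_zero.1 h
          rw [pow_succ, h3, one_mul] at hB'
          push_cast at hB'
          have h4 : (k : K) * (x - 1) = 0 := by linear_combination hB'
          rcases mul_eq_zero.1 h4 with h5 | h5
          · exact h2 h5
          · exact hx (sub_eq_zero.1 h5)
      · intro i hi
        rw [ha0 i (Finset.mem_range.1 hi), zero_mul]
    · intro i hi
      rw [ha0 i (Finset.mem_range.1 hi)]
      simp

end K

/-- few points of the curve of double roots are double points -/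
theorem double_points {K : Type*} [Field K] [IsAlgClosed K] {g : K[X]} (hg : g.Monic)
    (hn : 3 ≤ g.natDegree) (h1 : (g.natDegree : K) ≠ 0) (h2 : ((g.natDegree - 1 : ℕ) : K) ≠ 0) :
    ∃ R : Finset K, R.card ≤ 2 * g.natDegree * (g.natDegree - 2) + 1 ∧
      ∀ r s : K, r ≠ s → g.derivative.eval s = g.derivative.eval r →
        g.eval s - g.eval r - g.derivative.eval r * (s - r) = 0 → r ∈ R := by
  set n := g.natDegree with hnn
  let a : ℕ → K[X] := fun i => C (g.coeff i) * X ^ (n - i)
  set Q : K[X] := resultant (AA a n) (BB a n) (n - 2) (n - 2) with hQ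
  have han : ∀ t : K, (evalRingHom t) (a n) = 1 := by
    intro t
    simp only [a, coe_evalRingHom, Nat.sub_self, pow_zero, mul_one, eval_C]
    exact hg.coeff_natDegree
  have hev : ∀ t : K, Q.eval t = 0 ↔ ∃ x : K,
      (AA (fun i => (evalRingHom t) (a i)) n).eval x = 0 ∧
      (BB (fun i => (evalRingHom t) (a i)) n).eval x = 0 := by
    intro t
    rw [← resultant_AB hn (han t) h1, ← AA_map, ← BB_map, resultant_map_map, ← hQ,
      coe_evalRingHom]
  have hQ0 : Q ≠ 0 := by
    intro h0
    have h3 : Q.eval 0 = 0 := by rw [h0]; simp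
    rw [hev] at h3
    obtain ⟨x, hx1, hx2⟩ := h3
    refine no_common_root hn (han 0) ?_ h1 h2 x hx1 hx2
    intro i hi
    simp only [a, coe_evalRingHom, eval_mul, eval_C, eval_pow, eval_X]
    rw [zero_pow (by omega), mul_zero]
  have hdeg : ∀ i, (a i).natDegree ≤ n := by
    intro i
    refine (natDegree_C_mul_X_pow_le _ _).trans (Nat.sub_le _ _)
  have hQd : Q.natDegree ≤ (n - 2 + (n - 2)) * n := by
    refine resultant_natDegree_le _ _ _ _ _ ?_ ?_
    · intro l
      rw [coeff_AA]
      refine natDegree_sum_le_of_forall_le _ _ (fun i _ => ?_)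
      split_ifs
      · refine natDegree_mul_le.trans ?_
        rw [natDegree_natCast, add_zero]
        exact hdeg i
      · simp
    · intro l
      rw [coeff_BB]
      refine natDegree_sum_le_of_forall_le _ _ (fun i _ => ?_)
      refine natDegree_sum_le_of_forall_le _ _ (fun j _ => ?_)
      split_ifs
      · exact hdeg i
      · simp
  refine ⟨insert 0 (Q.roots.toFinset.image (fun t => t⁻¹)), ?_, ?_⟩
  · refine (Finset.card_insert_le _ _).trans ?_
    refine Nat.add_le_add_right ?_ 1
    refine Finset.card_image_le.trans ?_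
    refine (Multiset.toFinset_card_le _).trans ?_
    refine (card_roots' _).trans ?_
    refine hQd.trans (le_of_eq ?_)
    ring
  · intro r s hrs hd hf
    by_cases hr : r = 0
    · rw [hr]; exact Finset.mem_insert_self _ _
    refine Finset.mem_insert_of_mem (Finset.mem_image.2 ⟨r⁻¹, ?_, inv_inv r⟩)
    rw [Multiset.mem_toFinset, mem_roots hQ0, IsRoot.def, hev]
    have hx1 : s * r⁻¹ - 1 ≠ 0 := by
      intro h
      apply hrs
      have : s * r⁻¹ * r = 1 * r := by rw [sub_eq_zero.1 h]
      rw [mul_assoc, inv_mul_cancel₀ hr] at this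
      simpa using this.symm
    have hgd : ∀ y : K, g.derivative.eval y =
        ∑ i ∈ Finset.range (n + 1), g.coeff i * ((i : K) * y ^ (i - 1)) := by
      intro y
      conv_lhs => rw [g.as_sum_range_C_mul_X_pow]
      rw [derivative_sum, eval_finsetSum]
      refine Finset.sum_congr rfl fun i _ => ?_
      simp [derivative_X_pow]
    have hge : ∀ y : K, g.eval y = ∑ i ∈ Finset.range (n + 1), g.coeff i * y ^ i := fun y =>
      eval_eq_sum_range y
    refine ⟨s * r⁻¹, ?_, ?_⟩
    · have h := eval_AA (fun i => (evalRingHom r⁻¹) (a i)) n (s * r⁻¹)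
      have h0 : ∑ i ∈ Finset.range (n + 1), (fun i => (evalRingHom r⁻¹) (a i)) i * (i : K) *
          ((s * r⁻¹) ^ (i - 1) - 1) = r⁻¹ ^ (n - 1) * (g.derivative.eval s - g.derivative.eval r) := by
        rw [hgd, hgd, ← Finset.sum_sub_distrib, Finset.mul_sum]
        refine Finset.sum_congr rfl fun i hi => ?_
        rw [Finset.mem_range] at hi
        simp only [a, coe_evalRingHom, eval_mul, eval_C, eval_pow, eval_X]
        rcases Nat.eq_zero_or_pos i with rfl | hi0
        · simp
        · obtain ⟨j, rfl⟩ : ∃ j, i = j + 1 := ⟨i - 1, by omega⟩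
          obtain ⟨k, hk⟩ : ∃ k, n = k + (j + 1) := ⟨n - (j + 1), by omega⟩
          have e1 : n - (j + 1) = k := by omega
          have e2 : n - 1 = k + j := by omega
          rw [e1, e2, Nat.add_sub_cancel]
          have e3 : r⁻¹ ^ j * r ^ j = 1 := by rw [← mul_pow, inv_mul_cancel₀ hr, one_pow]
          rw [mul_pow, pow_add]
          linear_combination (g.coeff (j + 1) * r⁻¹ ^ k * ((j + 1 : ℕ) : K)) * e3
      rw [h0, hd, sub_self, mul_zero] at h
      exact (mul_eq_zero.1 h).resolve_right hx1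
    · have h := eval_BB (fun i => (evalRingHom r⁻¹) (a i)) n (s * r⁻¹)
      have h0 : ∑ i ∈ Finset.range (n + 1), (fun i => (evalRingHom r⁻¹) (a i)) i *
          ((s * r⁻¹) ^ i - 1 - (i : K) * (s * r⁻¹ - 1)) =
          r⁻¹ ^ n * (g.eval s - g.eval r - g.derivative.eval r * (s - r)) := by
        rw [hgd, hge, hge, Finset.sum_mul, ← Finset.sum_sub_distrib, ← Finset.sum_sub_distrib,
          Finset.mul_sum]
        refine Finset.sum_congr rfl fun i hi => ?_
        rw [Finset.mem_range] at hi
        simp only [a, coe_evalRingHom, eval_mul, eval_C, eval_pow, eval_X]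
        rcases Nat.eq_zero_or_pos i with rfl | hi0
        · simp
        · obtain ⟨j, rfl⟩ : ∃ j, i = j + 1 := ⟨i - 1, by omega⟩
          obtain ⟨k, hk⟩ : ∃ k, n = k + (j + 1) := ⟨n - (j + 1), by omega⟩
          have e1 : n - (j + 1) = k := by omega
          rw [e1, hk, Nat.add_sub_cancel]
          have e3 : r⁻¹ ^ j * r ^ j = 1 := by rw [← mul_pow, inv_mul_cancel₀ hr, one_pow]
          have e4 : r⁻¹ * r = 1 := inv_mul_cancel₀ hr
          rw [mul_pow, pow_add, pow_succ, pow_succ, pow_succ]
          linear_combination g.coeff (j + 1) * r⁻¹ ^ k * ((1 - ((j + 1 : ℕ) : K)) *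
            (r⁻¹ * r * e3 + e4) + ((j + 1 : ℕ) : K) * s * r⁻¹ * e3)
      rw [h0, hf, mul_zero] at h
      exact (mul_eq_zero.1 h).resolve_right (pow_ne_zero 2 hx1)

end SzC2
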